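import Pool.Agent.Lib.MP_2d4879_an.Spec

namespace Pool.Agent.Lib.MP_2d4879_an

open Filter Topology MeasureTheory
open scoped InnerProductSpace

variable {α : Type} [MeasurableSpace α] {μ : Measure α} [IsFiniteMeasure μ]

structure GK (K : α → α → ℝ) : Prop where
  meas : Measurable (Function.uncurry K)
  bdd : ∃ C, 0 ≤ C ∧ ∀ x y, |K x y| ≤ C

namespace GK
variable {K K' K'' : α → α → ℝ}

lemma meas_row (hK : GK K) (x : α) : Measurable (K x) := hK.meas.of_uncurry_left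

lemma meas_col (hK : GK K) (y : α) : Measurable (fun x => K x y) := hK.meas.of_uncurry_right

lemma meas_comp {β : Type} [MeasurableSpace β] (hK : GK K) {f g : β → α} (hf : Measurable f)
    (hg : Measurable g) : Measurable (fun b => K (f b) (g b)) := hK.meas.comp (hf.prodMk hg)

lemma memLp (hK : GK K) (x : α) : MemLp (K x) 2 μ := by
  obtain ⟨C, -, hC⟩ := hK.bdd
  exact MemLp.of_bound (hK.meas_row x).aestronglyMeasurable C (Eventually.of_forall (hC x))

noncomputable def row (μ : Measure α) [IsFiniteMeasure μ] (hK : GK K) (x : α) : Lp ℝ 2 μ :=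
  (hK.memLp x).toLp _

lemma inner_row (hK : GK K) (x : α) (f : Lp ℝ 2 μ) :
    ⟪hK.row μ x, f⟫_ℝ = ∫ y, K x y * f y ∂μ := by
  rw [L2.inner_def]
  refine integral_congr_ae ?_
  filter_upwards [(hK.memLp (μ := μ) x).coeFn_toLp] with y hy
  simp [row, hy, mul_comm]

lemma norm_row (hK : GK K) (x : α) : ‖hK.row μ x‖ ^ 2 = ∫ y, K x y ^ 2 ∂μ := by
  rw [← real_inner_self_eq_norm_sq, inner_row]
  refine integral_congr_ae ?_
  filter_upwards [(hK.memLp (μ := μ) x).coeFn_toLp] with y hy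
  simp [row, hy, sq]

lemma row_bdd (hK : GK K) : ∃ C, 0 ≤ C ∧ ∀ x, ‖hK.row μ x‖ ≤ C := by
  obtain ⟨C, hC0, hC⟩ := hK.bdd
  refine ⟨_, ?_, fun x => Lp.norm_le_of_ae_bound hC0 ?_⟩
  · positivity
  filter_upwards [(hK.memLp (μ := μ) x).coeFn_toLp] with y hy
  simpa [row, hy] using hC x y

lemma meas_act (hK : GK K) (f : Lp ℝ 2 μ) :
    StronglyMeasurable fun x => ⟪hK.row μ x, f⟫_ℝ := by
  simp_rw [inner_row]
  exact (hK.meas.stronglyMeasurable.mul
    ((Lp.stronglyMeasurable f).comp_measurable measurable_snd)).integral_prod_right'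

lemma memLp_act (hK : GK K) (f : Lp ℝ 2 μ) : MemLp (fun x => ⟪hK.row μ x, f⟫_ℝ) 2 μ := by
  obtain ⟨C, -, hC⟩ := hK.row_bdd (μ := μ)
  exact MemLp.of_bound (hK.meas_act f).aestronglyMeasurable (C * ‖f‖)
    (Eventually.of_forall fun x => (norm_inner_le_norm _ _).trans (by gcongr; exact hC x))

noncomputable def opL (μ : Measure α) [IsFiniteMeasure μ] (hK : GK K) :
    Lp ℝ 2 μ →ₗ[ℝ] Lp ℝ 2 μ where
  toFun f := (hK.memLp_act f).toLp _
  map_add' f g := by
    rw [← MemLp.toLp_add]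
    congr 1; ext x; simp [inner_add_right]
  map_smul' c f := by
    rw [RingHom.id_apply, ← MemLp.toLp_const_smul]
    congr 1; ext x; simp [inner_smul_right]

lemma opL_bdd (hK : GK K) : ∃ C, ∀ f, ‖hK.opL μ f‖ ≤ C * ‖f‖ := by
  obtain ⟨C, hC0, hC⟩ := hK.row_bdd (μ := μ)
  refine ⟨measureUnivNNReal μ ^ (2 : ENNReal).toReal⁻¹ * C, fun f => ?_⟩
  rw [mul_assoc]
  refine Lp.norm_le_of_ae_bound (by positivity) ?_
  filter_upwards [(hK.memLp_act f).coeFn_toLp] with x hx
  change ‖((hK.memLp_act f).toLp _ : Lp ℝ 2 μ) x‖ ≤ _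
  rw [hx]
  exact (norm_inner_le_norm _ _).trans (by gcongr; exact hC x)

noncomputable def op (μ : Measure α) [IsFiniteMeasure μ] (hK : GK K) :
    Lp ℝ 2 μ →L[ℝ] Lp ℝ 2 μ := (hK.opL μ).mkContinuousOfExistsBound hK.opL_bdd

lemma op_ae' (hK : GK K) (f : Lp ℝ 2 μ) : hK.op μ f =ᵐ[μ] fun x => ⟪hK.row μ x, f⟫_ℝ :=
  (hK.memLp_act f).coeFn_toLp

lemma op_ae (hK : GK K) (f : Lp ℝ 2 μ) : hK.op μ f =ᵐ[μ] fun x => ∫ y, K x y * f y ∂μ := by
  simpa only [inner_row] using hK.op_ae' f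

lemma inner_op (hK : GK K) (f g : Lp ℝ 2 μ) :
    ⟪g, hK.op μ f⟫_ℝ = ∫ x, g x * ∫ y, K x y * f y ∂μ ∂μ := by
  rw [L2.inner_def]
  refine integral_congr_ae ?_
  filter_upwards [hK.op_ae f] with x hx
  simp [hx, mul_comm]

lemma norm_op (hK : GK K) (f : Lp ℝ 2 μ) :
    ‖hK.op μ f‖ ^ 2 = ∫ x, ⟪hK.row μ x, f⟫_ℝ ^ 2 ∂μ := by
  rw [← real_inner_self_eq_norm_sq, L2.inner_def]
  refine integral_congr_ae ?_
  filter_upwards [hK.op_ae' f] with x hx
  simp [hx, sq]

omit [IsFiniteMeasure μ] in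
lemma int_prod (hK : GK K) {f g : α → ℝ} (hf : Integrable f μ) (hg : Integrable g μ) :
    Integrable (fun p : α × α => K p.1 p.2 * (f p.1 * g p.2)) (μ.prod μ) := by
  obtain ⟨C, -, hC⟩ := hK.bdd
  exact (hf.mul_prod hg).bdd_mul hK.meas.aestronglyMeasurable
    (Eventually.of_forall fun p => hC p.1 p.2)

lemma symm_op (hK : GK K) (hs : ∀ x y, K x y = K y x) :
    (hK.op μ : Lp ℝ 2 μ →ₗ[ℝ] Lp ℝ 2 μ).IsSymmetric := by
  intro f g
  have hf : Integrable f μ := (Lp.memLp f).integrable one_le_two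
  have hg : Integrable g μ := (Lp.memLp g).integrable one_le_two
  change ⟪hK.op μ f, g⟫_ℝ = ⟪f, hK.op μ g⟫_ℝ
  rw [real_inner_comm, inner_op, inner_op]
  simp_rw [← integral_const_mul]
  rw [integral_integral_swap]
  · congr 1; ext x; congr 1; ext y; rw [hs y x]; ring
  · refine (hK.int_prod hg hf).congr (Eventually.of_forall fun p => ?_)
    simp only [Function.uncurry]; ring

lemma int_normsq (hK : GK K) : Integrable (fun x => ‖hK.row μ x‖ ^ 2) μ := by
  obtain ⟨C, hC0, hC⟩ := hK.row_bdd (μ := μ)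
  refine Integrable.of_bound ?_ (C ^ 2) (Eventually.of_forall fun x => ?_)
  · simp_rw [norm_row]
    exact ((hK.meas.pow_const 2).stronglyMeasurable.integral_prod_right').aestronglyMeasurable
  · rw [Real.norm_of_nonneg (sq_nonneg _)]
    gcongr; exact hC x

lemma int_actsq (hK : GK K) (f : Lp ℝ 2 μ) : Integrable (fun x => ⟪hK.row μ x, f⟫_ℝ ^ 2) μ :=
  (hK.memLp_act f).integrable_sq

lemma bessel (hK : GK K) {ι : Type} {v : ι → Lp ℝ 2 μ} (hv : Orthonormal ℝ v) (F : Finset ι) :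
    ∑ i ∈ F, ‖hK.op μ (v i)‖ ^ 2 ≤ ∫ x, ‖hK.row μ x‖ ^ 2 ∂μ := by
  simp_rw [norm_op]
  rw [← integral_finsetSum _ fun i _ => hK.int_actsq (v i)]
  refine integral_mono (integrable_finsetSum _ fun i _ => hK.int_actsq (v i)) hK.int_normsq
    fun x => ?_
  have := hv.sum_inner_products_le (hK.row μ x) (s := F)
  simpa [real_inner_comm] using this

lemma parseval (hK : GK K) {ι : Type} [Countable ι] (b : HilbertBasis ι ℝ (Lp ℝ 2 μ)) :
    HasSum (fun i => ‖hK.op μ (b i)‖ ^ 2) (∫ x, ∫ y, K x y ^ 2 ∂μ ∂μ) := by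
  have h1 := hasSum_integral_of_summable_integral_norm (μ := μ)
    (F := fun i x => ⟪hK.row μ x, b i⟫_ℝ ^ 2) (fun i => hK.int_actsq (b i)) (by
      simp_rw [Real.norm_of_nonneg (sq_nonneg _), ← norm_op]
      exact summable_of_sum_le (fun i => sq_nonneg _) (hK.bessel b.orthonormal))
  simp_rw [norm_op]
  convert! h1 using 3 with x
  rw [← hK.norm_row, ← (hasSum_normsq b (hK.row μ x)).tsum_eq]
  simp [real_inner_comm]

lemma compact_op (hK : GK K) : IsCompactOperator (hK.op μ) :=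
  compact_of_hs _ _ fun _ _ hv F => hK.bessel hv F

end GK

noncomputable def cv (μ : Measure α) (K K' : α → α → ℝ) (x z : α) : ℝ := ∫ y, K x y * K' y z ∂μ

variable {K K' K'' : α → α → ℝ}

lemma GK.cv (hK : GK K) (hK' : GK K') : GK (cv μ K K') := by
  obtain ⟨C, hC0, hC⟩ := hK.bdd
  obtain ⟨C', hC0', hC'⟩ := hK'.bdd
  constructor
  · have : StronglyMeasurable fun p : (α × α) × α => K p.1.1 p.2 * K' p.2 p.1.2 :=
      ((hK.meas_comp (by fun_prop) (by fun_prop)).mul
        (hK'.meas_comp (by fun_prop) (by fun_prop))).stronglyMeasurable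
    exact (this.integral_prod_right' (ν := μ)).measurable
  · refine ⟨C * C' * μ.real Set.univ, by positivity, fun x z => ?_⟩
    refine norm_integral_le_of_norm_le_const (μ := μ) (f := fun y => K x y * K' y z)
      (Eventually.of_forall fun y => ?_)
    rw [norm_mul]
    exact mul_le_mul (hC _ _) (hC' _ _) (norm_nonneg _) hC0

lemma GK.int_row (hK : GK K) (x : α) : Integrable (K x) μ := (hK.memLp x).integrable one_le_two

lemma GK.int_col (hK : GK K) (y : α) : Integrable (fun x => K x y) μ := by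
  obtain ⟨C, -, hC⟩ := hK.bdd
  exact Integrable.of_bound (hK.meas_col y).aestronglyMeasurable C
    (Eventually.of_forall fun x => hC x y)

lemma cv_act (hK : GK K) (hK' : GK K') {f : α → ℝ} (hf : Integrable f μ) (x : α) :
    ∫ z, cv μ K K' x z * f z ∂μ = ∫ y, K x y * ∫ z, K' y z * f z ∂μ ∂μ := by
  unfold cv
  simp_rw [← integral_const_mul, ← integral_mul_const]
  rw [integral_integral_swap]
  · congr 1; ext y; congr 1; ext z; ring
  · have := (hK'.int_prod (hK.int_row (μ := μ) x) hf).swap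
    refine this.congr (Eventually.of_forall fun p => ?_)
    simp only [Function.uncurry, Function.comp, Prod.fst_swap, Prod.snd_swap]; ring

lemma cv_assoc (hK : GK K) (hK' : GK K') (hK'' : GK K'') :
    cv μ (cv μ K K') K'' = cv μ K (cv μ K' K'') := by
  ext x z
  exact cv_act hK hK' (hK''.int_col z) x

lemma op_cv (hK : GK K) (hK' : GK K') (f : Lp ℝ 2 μ) :
    (hK.cv (μ := μ) hK').op μ f = hK.op μ (hK'.op μ f) := by
  refine Lp.ext ?_
  filter_upwards [(hK.cv (μ := μ) hK').op_ae f, hK.op_ae (hK'.op μ f)] with x h1 h2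
  rw [h1, h2, cv_act hK hK' ((Lp.memLp f).integrable one_le_two)]
  refine integral_congr_ae ?_
  filter_upwards [hK'.op_ae f] with y hy
  rw [hy]

noncomputable def pw (μ : Measure α) (K : α → α → ℝ) : ℕ → α → α → ℝ
  | 0 => K
  | m + 1 => cv μ K (pw μ K m)

lemma GK.pw (hK : GK K) : ∀ m, GK (pw μ K m)
  | 0 => hK
  | m + 1 => hK.cv (hK.pw m)

lemma pw_add (hK : GK K) (m l : ℕ) : pw μ K (m + l + 1) = cv μ (pw μ K m) (pw μ K l) := by
  induction m with
  | zero => simp [pw]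
  | succ m ih =>
    rw [show m + 1 + l + 1 = (m + l + 1) + 1 by ring, pw, ih, pw,
      cv_assoc hK (hK.pw m) (hK.pw l)]

lemma pw_symm (hK : GK K) (hs : ∀ x y, K x y = K y x) (m : ℕ) :
    ∀ x y, pw μ K m x y = pw μ K m y x := by
  induction m with
  | zero => exact hs
  | succ m ih =>
    intro x y
    have h1 : pw μ K (m + 1) = cv μ (pw μ K m) K := by simpa [pw] using pw_add hK m 0
    conv_rhs => rw [h1]
    simp only [pw, cv]
    congr 1; ext z; rw [hs x z, ih z y, mul_comm]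

lemma op_pw (hK : GK K) {f : Lp ℝ 2 μ} {c : ℝ} (hf : hK.op μ f = c • f) (m : ℕ) :
    (hK.pw (μ := μ) m).op μ f = c ^ (m + 1) • f := by
  induction m with
  | zero => rw [zero_add, pow_one]; exact hf
  | succ m ih =>
    have := op_cv hK (hK.pw (μ := μ) m) f
    rw [ih, map_smul, hf, smul_smul, ← pow_succ] at this
    exact this

theorem ker_spec [TopologicalSpace.SeparableSpace (Lp ℝ 2 μ)] (hK : GK K)
    (hs : ∀ x y, K x y = K y x) :
    ∃ (ι : Type) (b : HilbertBasis ι ℝ (Lp ℝ 2 μ)) (ev : ι → ℝ),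
      (∀ i, hK.op μ (b i) = ev i • b i) ∧
      ∀ m, HasSum (fun i => ev i ^ (2 * m + 2)) (∫ x, pw μ K (2 * m + 1) x x ∂μ) := by
  obtain ⟨ι, _, b, ev, hb⟩ := exists_eigenbasis (hK.op μ) hK.compact_op (hK.symm_op hs)
  refine ⟨ι, b, ev, hb, fun m => ?_⟩
  convert! (hK.pw (μ := μ) m).parseval b using 2 with i x
  · rw [op_pw hK (hb i), norm_smul, b.orthonormal.1 i, mul_one, Real.norm_eq_abs, sq_abs]; ring
  · rw [two_mul, pw_add hK]
    simp only [cv]
    ext x
    congr 1; ext y; rw [pw_symm hK hs m y x, sq]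

end Pool.Agent.Lib.MP_2d4879_an
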