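import Pool.Agent.Lib.MP_2d4879_an.Moll
import Pool.Agent.Lib.MP_2d4879_an.HS

namespace Pool.Agent.Lib.MP_2d4879_an

open MeasureTheory Real Filter Topology
open scoped InnerProductSpace ENNReal Pointwise

def adm (Ω : Set E) (k : ℕ) : Set ℝ :=
  {r : ℝ | ∃ V : Submodule ℝ (E → ℝ), Module.finrank ℝ V = k ∧
    ∀ f ∈ V, ContDiff ℝ 1 f ∧ HasCompactSupport f ∧ tsupport f ⊆ Ω ∧
      ∫ x, ‖fderiv ℝ f x‖ ^ 2 ≤ r * ∫ x, f x ^ 2}

lemma adm_mono {Ω : Set E} {k : ℕ} {r r' : ℝ} (h : r ≤ r') (hr : r ∈ adm Ω k) : r' ∈ adm Ω k := by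
  obtain ⟨V, hV, hf⟩ := hr
  refine ⟨V, hV, fun f hfV => ⟨(hf f hfV).1, (hf f hfV).2.1, (hf f hfV).2.2.1,
    (hf f hfV).2.2.2.trans ?_⟩⟩
  exact mul_le_mul_of_nonneg_right h (integral_nonneg fun x => sq_nonneg _)

lemma int_sq_of_cs {f : E → ℝ} (hf : Continuous f) (hc : HasCompactSupport f) :
    Integrable fun x => f x ^ 2 :=
  Continuous.integrable_of_hasCompactSupport (by fun_prop)
    (hc.comp_left (g := fun t : ℝ => t ^ 2) (by simp))

lemma int_sq_pos {f : E → ℝ} (hf : Continuous f) (hc : HasCompactSupport f) (h0 : f ≠ 0) :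
    0 < ∫ x, f x ^ 2 := by
  obtain ⟨x, hx⟩ := Function.ne_iff.1 h0
  exact integral_pos_of_integrable_nonneg_nonzero (x := x) (by fun_prop) (int_sq_of_cs hf hc)
    (fun x => sq_nonneg _) (by simpa using hx)

lemma adm_nonneg {Ω : Set E} {k : ℕ} (hk : 0 < k) {r : ℝ} (hr : r ∈ adm Ω k) : 0 ≤ r := by
  obtain ⟨V, hV, hf⟩ := hr
  have : V ≠ ⊥ := by rintro rfl; simp at hV; omega
  obtain ⟨f, hfV, h0⟩ := Submodule.exists_mem_ne_zero_of_ne_bot this
  obtain ⟨h1, h2, -, h4⟩ := hf f hfV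
  have h5 := int_sq_pos h1.continuous h2 h0
  have h6 : 0 ≤ ∫ x, ‖fderiv ℝ f x‖ ^ 2 := integral_nonneg fun x => sq_nonneg _
  exact nonneg_of_mul_nonneg_left (h6.trans h4) h5

lemma int_aff (F : E → ℝ) {l : ℝ} (c : E) : ∫ y, F (l • y + c) = (l ^ 2)⁻¹ * ∫ x, F x := by
  have := Measure.integral_comp_smul volume (fun y => F (y + c)) l
  rw [this, integral_add_right_eq_self F c]
  simp

lemma adm_transfer {Ω Ω' : Set E} {k : ℕ} {r l : ℝ} (hl : 0 < l) (c : E)
    (hΩ : ∀ y, l • y + c ∈ Ω → y ∈ Ω') (hr : r ∈ adm Ω k) : l ^ 2 * r ∈ adm Ω' k := by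
  obtain ⟨V, hV, hf⟩ := hr
  let A : E ≃ₜ E := (Homeomorph.smulOfNeZero l hl.ne').trans (Homeomorph.addRight c)
  have hA : ∀ y, A y = l • y + c := fun y => rfl
  have hinj := LinearMap.funLeft_injective_of_surjective ℝ ℝ A A.surjective
  refine ⟨V.map (LinearMap.funLeft ℝ ℝ A), ?_, ?_⟩
  · rw [← hV]; exact (Submodule.equivMapOfInjective _ hinj V).finrank_eq.symm
  rintro _ ⟨f, hfV, rfl⟩
  obtain ⟨h1, h2, h3, h4⟩ := hf f hfV
  change ContDiff ℝ 1 (f ∘ A) ∧ HasCompactSupport (f ∘ A) ∧ tsupport (f ∘ A) ⊆ Ω' ∧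
    ∫ x, ‖fderiv ℝ (f ∘ A) x‖ ^ 2 ≤ l ^ 2 * r * ∫ x, f (l • x + c) ^ 2
  refine ⟨h1.comp (show ContDiff ℝ 1 fun y : E => l • y + c by fun_prop), h2.comp_homeomorph A,
    fun y hy => hΩ y (h3 (tsupport_comp_subset_preimage f A.continuous hy)), ?_⟩
  have h5 : ∀ y, ‖fderiv ℝ (f ∘ A) y‖ ^ 2 = l ^ 2 * ‖fderiv ℝ f (l • y + c)‖ ^ 2 := by
    intro y
    have h6 : HasFDerivAt A (l • ContinuousLinearMap.id ℝ E) y :=
      ((hasFDerivAt_id y).const_smul l).add_const c
    rw [(((h1.differentiable one_ne_zero) (A y)).hasFDerivAt.comp y h6).fderiv,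
      ContinuousLinearMap.comp_smul, ContinuousLinearMap.comp_id, norm_smul, mul_pow,
      Real.norm_eq_abs, sq_abs, hA]
  simp_rw [h5]
  rw [integral_const_mul, int_aff (fun x => ‖fderiv ℝ f x‖ ^ 2), int_aff (fun x => f x ^ 2),
    mul_assoc, mul_left_comm r]
  gcongr

lemma gk_pk {h : ℝ} (hh : 0 < h) : GK (fun x y : E => pk h (x - y)) :=
  ⟨by unfold Function.uncurry; fun_prop, (4 * π * h)⁻¹, by positivity,
    fun x y => by rw [abs_of_pos (pk_pos hh _)]; exact pk_le hh _⟩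

lemma gk_rho {h ε : ℝ} (hh : 0 < h) (hε : 0 < ε) : GK (fun x y : E => rho h ε (x - y)) :=
  ⟨by have := (rho_contDiff h ε).continuous.measurable; unfold Function.uncurry; fun_prop,
    (4 * π * h)⁻¹, by positivity,
    fun x y => by rw [abs_of_nonneg (rho_nonneg hh _)]; exact (rho_le hh hε _).trans (pk_le hh _)⟩

lemma pk_posdef {h : ℝ} (hh : 0 < h) {μ : Measure E} [IsFiniteMeasure μ] {g : E → ℝ}
    (hm : Measurable g) (hi : Integrable g μ) :
    0 ≤ ∫ x, g x * ∫ y, pk h (x - y) * g y ∂μ ∂μ := by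
  have h2 : 0 < h / 2 := by positivity
  set u : E → ℝ := fun z => ∫ y, pk (h / 2) (z - y) * g y ∂μ
  have hI : Integrable (fun p : (E × E) × E => (g p.1.1 * g p.1.2) *
      (pk (h / 2) (p.1.1 - p.2) * pk (h / 2) (p.2 - p.1.2))) ((μ.prod μ).prod volume) := by
    rw [integrable_prod_iff (Measurable.aestronglyMeasurable (by fun_prop))]
    refine ⟨Eventually.of_forall fun p => (pk_ck_int h2 h2 p.1 p.2).const_mul (g p.1 * g p.2), ?_⟩
    have : (fun p : E × E => ∫ z, ‖(g p.1 * g p.2) *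
        (pk (h / 2) (p.1 - z) * pk (h / 2) (z - p.2))‖) =
        fun p => ‖pk h (p.1 - p.2) * (g p.1 * g p.2)‖ := by
      ext p
      simp_rw [norm_mul (g p.1 * g p.2),
        Real.norm_of_nonneg (mul_pos (pk_pos h2 _) (pk_pos h2 _)).le]
      rw [integral_const_mul, pk_ck h2 h2, add_halves, norm_mul (pk _ _),
        Real.norm_of_nonneg (pk_pos hh _).le, mul_comm]
    rw [this]
    exact ((gk_pk hh).int_prod hi hi).norm
  have e2 : ∫ x, g x * ∫ y, pk h (x - y) * g y ∂μ ∂μ = ∫ z, u z ^ 2 := by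
    have e3 := integral_prod _ ((gk_pk hh).int_prod hi hi)
    have e4 := integral_integral_swap (f := fun (p : E × E) z => (g p.1 * g p.2) *
      (pk (h / 2) (p.1 - z) * pk (h / 2) (z - p.2))) hI
    simp_rw [integral_const_mul, pk_ck h2 h2, add_halves] at e4
    calc _ = ∫ x, ∫ y, pk h (x - y) * (g x * g y) ∂μ ∂μ := by
          congr 1; ext x; rw [← integral_const_mul]; congr 1; ext y; ring
      _ = ∫ p : E × E, g p.1 * g p.2 * pk h (p.1 - p.2) ∂μ.prod μ := by
          rw [← e3]; congr 1; ext p; ring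
      _ = _ := by
          rw [e4]; congr 1; ext z
          rw [sq, ← integral_prod_mul]
          congr 1; ext p
          rw [pk_sub_comm _ p.1]; ring
  rw [e2]
  exact integral_nonneg fun z => sq_nonneg _

section
variable {D : Set E} [IsFiniteMeasure (volume.restrict D)] {h : ℝ}

omit [IsFiniteMeasure (volume.restrict D)] in
lemma ext_norm (g : Lp ℝ 2 (volume.restrict D)) {f : E → ℝ} (h1 : f =ᵐ[volume.restrict D] g)
    (h0 : ∀ x ∉ D, f x = 0) : ∫ x, f x ^ 2 = ‖g‖ ^ 2 := by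
  rw [← real_inner_self_eq_norm_sq, L2.inner_def,
    ← setIntegral_eq_integral_of_forall_compl_eq_zero (s := D) (fun x hx => by simp [h0 x hx])]
  refine integral_congr_ae ?_
  filter_upwards [h1] with x hx
  simp [hx, sq]

lemma ext_bil (hh : 0 < h) (g : Lp ℝ 2 (volume.restrict D)) {f : E → ℝ}
    (h1 : f =ᵐ[volume.restrict D] g) (h0 : ∀ x ∉ D, f x = 0) :
    bil h f = ⟪g, (gk_pk hh).op _ g⟫_ℝ := by
  rw [GK.inner_op, bil,
    ← setIntegral_eq_integral_of_forall_compl_eq_zero (s := D) (fun x hx => by simp [h0 x hx])]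
  refine integral_congr_ae ?_
  filter_upwards [h1] with x hx
  rw [hx, ← setIntegral_eq_integral_of_forall_compl_eq_zero (s := D)
    (fun x hx => by simp [h0 x hx])]
  congr 1
  refine integral_congr_ae ?_
  filter_upwards [h1] with y hy
  rw [hy]

theorem count_of_adm (hh : 0 < h) {ι : Type} (b : HilbertBasis ι ℝ (Lp ℝ 2 (volume.restrict D)))
    (ev : ι → ℝ) (hb : ∀ i, (gk_pk hh).op _ (b i) = ev i • b i) {k : ℕ} (hk : 0 < k) {r c : ℝ}
    (hr : r ∈ adm D k) (hc : c < 1 - h * r) :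
    ∃ J : Finset ι, J.card = k ∧ ∀ j ∈ J, c ≤ ev j := by
  obtain ⟨V, hV, hf⟩ := hr
  have : FiniteDimensional ℝ V := Module.finite_of_finrank_pos (hV ▸ hk)
  have hm : ∀ u : V, MemLp u.1 2 (volume.restrict D) := fun u =>
    ((hf u u.2).1.continuous.memLp_of_hasCompactSupport (hf u u.2).2.1).restrict D
  let L : V →ₗ[ℝ] Lp ℝ 2 (volume.restrict D) :=
    { toFun := fun u => (hm u).toLp _
      map_add' := fun u v => MemLp.toLp_add _ _
      map_smul' := fun c u => MemLp.toLp_const_smul _ _ }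
  have h1 : ∀ u : V, u.1 =ᵐ[volume.restrict D] L u := fun u => (hm u).coeFn_toLp.symm
  have h0 : ∀ u : V, ∀ x ∉ D, u.1 x = 0 := fun u x hx =>
    image_eq_zero_of_notMem_tsupport fun h => hx ((hf u u.2).2.2.1 h)
  rw [← hV]
  refine count_of_subspace _ ((gk_pk hh).symm_op fun x y => pk_sub_comm h x y) b ev hb L
    (fun u hu h => ?_) hc fun u => ?_
  · have := int_sq_pos (hf u u.2).1.continuous (hf u u.2).2.1 (by simpa using hu)
    rw [ext_norm (L u) (h1 u) (h0 u), h] at this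
    simp at this
  · obtain ⟨k1, k2, -, k4⟩ := hf u u.2
    have k5 := en_le_grad hh k1 k2
    rw [en_eq hh k1.continuous.measurable (int_sq_of_cs k1.continuous k2)] at k5
    rw [← ext_norm (L u) (h1 u) (h0 u), ← ext_bil hh (L u) (h1 u) (h0 u)]
    nlinarith [mul_le_mul_of_nonneg_left k4 hh.le]

theorem adm_of_count (hD : MeasurableSet D) (hDb : Bornology.IsBounded D) (hh : 0 < h) {ι : Type}
    (b : HilbertBasis ι ℝ (Lp ℝ 2 (volume.restrict D)))
    (ev : ι → ℝ) (hb : ∀ i, (gk_pk hh).op _ (b i) = ev i • b i) (I : Finset ι) {a ε r : ℝ}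
    (hI : ∀ i ∈ I, a ≤ ev i) (hε : 0 < ε) (hε1 : ε ≤ 1 / 4) (hr0 : 0 ≤ r)
    (h9 : 0 < 1 - 9 * ε - 2 / ε * (1 - a)) (hr : (1 - a) / h ≤ r * (1 - 9 * ε - 2 / ε * (1 - a)))
    {Ω : Set E} (hΩ : ∀ x ∈ closure D, ∀ z : E, ‖z‖ ≤ √(8 * h * -log ε) → x + z ∈ Ω) :
    r ∈ adm Ω I.card := by
  obtain ⟨V, hV0, hV, hf⟩ := subspace_of_count _ ((gk_pk hh).symm_op fun x y => pk_sub_comm h x y)
    b ev hb I hI
  let M : Lp ℝ 2 (volume.restrict D) →ₗ[ℝ] (E → ℝ) :=
    LinearMap.pi fun x => (innerSL ℝ ((gk_rho hh hε).row (volume.restrict D) x)).toLinearMap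
  have key : ∀ g ∈ V, ContDiff ℝ 1 (M g) ∧ HasCompactSupport (M g) ∧ tsupport (M g) ⊆ Ω ∧
      ∫ x, ‖fderiv ℝ (M g) x‖ ^ 2 ≤ (1 - a) / h * ‖g‖ ^ 2 ∧
      (1 - 9 * ε - 2 / ε * (1 - a)) * ‖g‖ ^ 2 ≤ ∫ x, M g x ^ 2 := by
    intro g hg
    set f := D.indicator g with hfd
    have f1 : f =ᵐ[volume.restrict D] g := indicator_ae_eq_restrict hD
    have f0 : ∀ x ∉ D, f x = 0 := fun x hx => Set.indicator_of_notMem hx _
    have fm : Measurable f := (Lp.stronglyMeasurable g).measurable.indicator hD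
    have fi : Integrable f :=
      (integrable_indicator_iff hD).2 ((Lp.memLp g).integrable one_le_two)
    have f2 : Integrable fun x => f x ^ 2 := by
      have : (fun x => f x ^ 2) = D.indicator fun x => g x ^ 2 := by
        ext x; by_cases hx : x ∈ D <;> simp [hfd, hx]
      rw [this]
      exact (integrable_indicator_iff hD).2 (Lp.memLp g).integrable_sq
    have e : M g = mol h ε f := by
      ext x
      change ⟪(gk_rho hh hε).row _ x, g⟫_ℝ = _
      rw [GK.inner_row, mol, ← setIntegral_eq_integral_of_forall_compl_eq_zero (s := D)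
        (f := fun t => f t * rho h ε (x - t)) (fun x hx => by simp [f0 x hx])]
      refine integral_congr_ae ?_
      filter_upwards [f1] with y hy
      rw [hy, mul_comm]
    have hK : IsCompact (closure D + Metric.closedBall (0 : E) √(8 * h * -log ε)) :=
      hDb.isCompact_closure.add (isCompact_closedBall _ _)
    have hs : Function.support (mol h ε f) ⊆
        closure D + Metric.closedBall (0 : E) √(8 * h * -log ε) := by
      intro x hx
      by_contra hx'
      refine hx (integral_eq_zero_of_ae (Eventually.of_forall fun t => ?_))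
      by_cases ht : t ∈ D
      · by_cases h2 : rho h ε (x - t) = 0
        · simp [h2]
        · exact (hx' ⟨t, subset_closure ht, x - t, by simpa using rho_supp hh hε h2, by simp⟩).elim
      · simp [f0 t ht]
    have hts : tsupport (mol h ε f) ⊆ _ := closure_minimal hs hK.isClosed
    have hcs : HasCompactSupport (mol h ε f) := hK.of_isClosed_subset (isClosed_tsupport _) hts
    have hcd := mol_contDiff hh hε fi
    have g1 := mol_grad_int hh hε fm fi f2
    have g2 := mol_sq_int hh hε hε1 fm fi f2 (int_sq_of_cs hcd.continuous hcs)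
    rw [ext_norm g f1 f0, ext_bil hh g f1 f0] at g1 g2
    have g3 := hf g hg
    rw [e]
    refine ⟨hcd, hcs, fun x hx => ?_, g1.trans ?_, le_trans ?_ g2⟩
    · obtain ⟨y, hy, z, hz, rfl⟩ := hts hx
      exact hΩ y hy z (by simpa using hz)
    · rw [div_mul_eq_mul_div]; gcongr; linarith
    · have : 2 / ε * (‖g‖ ^ 2 - ⟪g, (gk_pk hh).op _ g⟫_ℝ) ≤ 2 / ε * ((1 - a) * ‖g‖ ^ 2) := by
        gcongr; linarith
      linarith
  refine ⟨V.map M, ?_, ?_⟩
  · rw [← hV]
    have hinj : Function.Injective (M.domRestrict V) := by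
      rw [injective_iff_map_eq_zero]
      intro g hg
      have := (key g g.2).2.2.2.2
      rw [show M g = 0 from hg] at this
      simp only [Pi.zero_apply, ne_eq, OfNat.ofNat_ne_zero, not_false_eq_true, zero_pow,
        integral_zero] at this
      have h2 : ‖(g : Lp ℝ 2 (volume.restrict D))‖ ^ 2 ≤ 0 := by nlinarith
      simpa using h2
    rw [← LinearMap.range_domRestrict]
    exact LinearMap.finrank_range_of_inj hinj
  · rintro _ ⟨g, hg, rfl⟩
    obtain ⟨k1, k2, k3, k4, k5⟩ := key g hg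
    refine ⟨k1, k2, k3, k4.trans ?_⟩
    calc _ ≤ r * (1 - 9 * ε - 2 / ε * (1 - a)) * ‖g‖ ^ 2 := by gcongr
      _ ≤ _ := by rw [mul_assoc]; gcongr

lemma ev_nonneg (hD : MeasurableSet D) (hh : 0 < h) {g : Lp ℝ 2 (volume.restrict D)} {c : ℝ}
    (hg : ‖g‖ = 1) (hc : (gk_pk hh).op _ g = c • g) : 0 ≤ c ∧ c ≤ 1 := by
  have e1 : ⟪g, (gk_pk hh).op _ g⟫_ℝ = c := by
    rw [hc, inner_smul_right, real_inner_self_eq_norm_sq, hg]; simp
  have hi : Integrable g (volume.restrict D) := (Lp.memLp g).integrable one_le_two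
  constructor
  · rw [← e1, GK.inner_op]
    exact pk_posdef hh (Lp.stronglyMeasurable g).measurable hi
  · rw [← e1]
    set f := D.indicator g with hfd
    have f1 : f =ᵐ[volume.restrict D] g := indicator_ae_eq_restrict hD
    have f0 : ∀ x ∉ D, f x = 0 := fun x hx => Set.indicator_of_notMem hx _
    have fm : Measurable f := (Lp.stronglyMeasurable g).measurable.indicator hD
    have f2 : Integrable fun x => f x ^ 2 := by
      have : (fun x => f x ^ 2) = D.indicator fun x => g x ^ 2 := by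
        ext x; by_cases hx : x ∈ D <;> simp [hfd, hx]
      rw [this]
      exact (integrable_indicator_iff hD).2 (Lp.memLp g).integrable_sq
    have h3 : 0 ≤ ∫ x, en h f x := integral_nonneg (en_nonneg hh)
    rw [en_eq hh fm f2, ext_norm g f1 f0, ext_bil hh g f1 f0, hg] at h3
    linarith

end

end Pool.Agent.Lib.MP_2d4879_an
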