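import Pool.Agent.Lib.MP_2d4879_an.Lim

namespace Pool.Agent.Lib.MP_2d4879_an

open MeasureTheory Real Filter Topology Set Asymptotics
open scoped ENNReal

noncomputable def ph (h s : ℝ) : ℝ := EE fun σ => max (s * σ.W1 - h) 0

noncomputable def ps (h s : ℝ) : ℝ := EE fun σ => max (s * σ.W1 - h) 0 ^ 2

noncomputable def mw : ℝ := EE fun σ => σ.W1

abbrev L0 : Filter ℝ := 𝓝[>] 0

lemma ph_nonneg (h s : ℝ) : 0 ≤ ph h s := EE_nonneg (by fun_prop) fun _ => le_max_right _ _

lemma ps_nonneg (h s : ℝ) : 0 ≤ ps h s := EE_nonneg (by fun_prop) fun _ => sq_nonneg _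

lemma ph_anti {h h' : ℝ} (hh : h ≤ h') (s : ℝ) : ph h' s ≤ ph h s :=
  EE_mono (by fun_prop) (by fun_prop) fun _ => max_le_max (by linarith) le_rfl

lemma ps_anti {h h' : ℝ} (hh : h ≤ h') (s : ℝ) : ps h' s ≤ ps h s :=
  EE_mono (by fun_prop) (by fun_prop) fun _ =>
    pow_le_pow_left₀ (le_max_right _ _) (max_le_max (by linarith) le_rfl) 2

lemma ph_lower {h s : ℝ} (hh : 0 ≤ h) (hs : 0 < s) :
    s * (π⁻¹ * exp (-((h / s + 2) ^ 2 + 1))) ≤ ph h s := by
  rw [← EE_const (s * _)]
  refine EE_mono' (by fun_prop) (by fun_prop) fun j => ?_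
  set n := 4 * j + 3
  have h1 := nu_lower (n := n) (2 * j + 1) (by omega) (x := h / s + 1) (by positivity)
  have hm : MeasurableSet {y : Fin n → E | h / s + 1 ≤ wd y} :=
    measurableSet_le measurable_const (meas_wd n)
  have h2 : ∫ y, {y : Fin n → E | h / s + 1 ≤ wd y}.indicator (fun _ => s) y ∂nu n ≤
      En n fun σ => max (s * σ.W1 - h) 0 := by
    refine integral_mono ((integrable_const s).indicator hm)
      (Good.int (Φ := fun σ => max (s * σ.W1 - h) 0) (by fun_prop) n) fun y => ?_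
    by_cases hy : y ∈ {y : Fin n → E | h / s + 1 ≤ wd y}
    · rw [indicator_of_mem hy]
      refine le_max_of_le_left ?_
      have : s * (h / s + 1) ≤ s * wd y := mul_le_mul_of_nonneg_left hy hs.le
      rw [mul_add, mul_div_cancel₀ _ hs.ne'] at this
      change s ≤ s * wd y - h
      linarith
    · rw [indicator_of_notMem hy]; exact le_max_right _ _
  rw [integral_indicator_const _ hm, smul_eq_mul, mul_comm] at h2
  refine le_trans ?_ h2
  simp only [En, integral_const, probReal_univ, smul_eq_mul, one_mul]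
  refine mul_le_mul_of_nonneg_left ?_ hs.le
  rw [show h / s + 2 = h / s + 1 + 1 by ring]
  exact (ENNReal.ofReal_le_iff_le_toReal (measure_ne_top _ _)).1 h1

lemma ph_pos {h s : ℝ} (hh : 0 ≤ h) (hs : 0 < s) : 0 < ph h s :=
  lt_of_lt_of_le (by positivity) (ph_lower hh hs)

lemma mw_pos : 0 < mw := by
  refine (ph_pos le_rfl one_pos).trans_le (EE_mono (by fun_prop) (by fun_prop) fun σ => ?_)
  simpa using σ.W1_nonneg

lemma php_upper {h s : ℝ} (hs : 0 < s) (hs1 : s ≤ 1) (hsh : s < h) :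
    ph h s + ps h s ≤ 3 * (2 * exp 4 * ((2 * (h / s - 1) + 4) * exp (-(h / s - 1) ^ 2))) := by
  rw [ph, ps, ← EE_add (by fun_prop) (by fun_prop), ← EE_const (3 * _)]
  refine EE_mono' (by fun_prop) (by fun_prop) fun j => ?_
  set n := 4 * j + 3
  obtain ⟨h1, h2⟩ := int_tl n (c := h / s - 1) (by rw [sub_pos, one_lt_div hs]; exact hsh)
  simp only [En, integral_const, probReal_univ, smul_eq_mul, one_mul]
  refine le_trans (integral_mono (Good.int (Φ := fun σ => max (s * σ.W1 - h) 0 +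
    max (s * σ.W1 - h) 0 ^ 2) (by fun_prop) n) (h1.const_mul 3) fun y => ?_) ?_
  · change max (s * wd y - h) 0 + max (s * wd y - h) 0 ^ 2 ≤ 3 * tl (h / s - 1 + 1) (wd y)
    rw [sub_add_cancel, tl]
    have e : s * wd y - h = s * (wd y - h / s) := by field_simp
    split_ifs with hy
    · set t := wd y - h / s
      have ht : 0 ≤ t := sub_nonneg.2 hy
      have k1 := add_one_le_exp t
      have k2 := quadratic_le_exp_of_nonneg ht
      have k3 : s * t ≤ t := mul_le_of_le_one_left ht hs1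
      rw [e, max_eq_left (by positivity)]
      nlinarith [mul_nonneg hs.le ht]
    · rw [e, max_eq_right (mul_nonpos_of_nonneg_of_nonpos hs.le (by linarith))]; simp
  · rw [integral_const_mul]; gcongr

lemma php_small {h a : ℝ} (hh : 0 < h) (ha : a < h ^ 2) (b c : ℝ) :
    (fun s => ph h s + ps h s) =o[L0] fun s => exp (-(a * s⁻¹ ^ 2 + b * s⁻¹ + c)) := by
  refine IsBigO.trans_isLittleO (g := fun s => exp (-(h ^ 2 * s⁻¹ ^ 2) + 4 * h * s⁻¹)) ?_ ?_
  · refine IsBigO.of_bound (6 * exp 4) ?_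
    filter_upwards [Ioo_mem_nhdsGT (lt_min one_pos hh)] with s hs
    have hs0 := hs.1
    rw [Real.norm_of_nonneg (add_nonneg (ph_nonneg _ _) (ps_nonneg _ _)),
      Real.norm_of_nonneg (exp_pos _).le]
    refine (php_upper hs0 (hs.2.le.trans (min_le_left _ _))
      (hs.2.trans_le (min_le_right _ _))).trans ?_
    have h1 : 2 * (h / s - 1) + 4 ≤ exp (2 * (h / s) + 1) := by
      linarith [add_one_le_exp (2 * (h / s) + 1)]
    calc _ ≤ 3 * (2 * exp 4 * (exp (2 * (h / s) + 1) * exp (-(h / s - 1) ^ 2))) := by gcongr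
      _ = _ := by
        rw [← exp_add, ← mul_assoc, ← mul_assoc]
        congr 2
        · norm_num
        · field_simp; ring
  · rw [isLittleO_exp_comp_exp_comp]
    have h1 : Tendsto (fun u : ℝ => u * ((h ^ 2 - a) * u + -(4 * h + b)) + -c) atTop atTop :=
      tendsto_atTop_add_const_right _ _ (tendsto_id.atTop_mul_atTop₀
        (tendsto_atTop_add_const_right _ _ (tendsto_id.const_mul_atTop (sub_pos.2 ha))))
    refine (h1.comp tendsto_inv_nhdsGT_zero).congr fun s => ?_
    simp only [Function.comp]; ring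

lemma exp_inv_le {s : ℝ} (hs : 0 < s) : exp (-s⁻¹) ≤ s := by
  rw [exp_neg, inv_le_comm₀ (exp_pos _) hs]
  linarith [add_one_le_exp s⁻¹]

lemma php_o_ph {h h' : ℝ} (hh : 0 ≤ h) (hh' : h < h') :
    (fun s => ph h' s + ps h' s) =o[L0] ph h := by
  refine (php_small (hh.trans_lt hh') (a := h ^ 2) (by gcongr) (4 * h + 1) 5).trans_isBigO ?_
  refine IsBigO.of_bound π ?_
  filter_upwards [self_mem_nhdsWithin] with s hs
  have hs0 : 0 < s := hs
  rw [Real.norm_of_nonneg (ph_nonneg _ _), Real.norm_of_nonneg (exp_pos _).le]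
  refine le_trans ?_ (mul_le_mul_of_nonneg_left (ph_lower hh hs0) pi_pos.le)
  calc _ = exp (-s⁻¹) * exp (-((h / s + 2) ^ 2 + 1)) := by
        rw [← exp_add]; congr 1; field_simp; ring
    _ ≤ s * exp (-((h / s + 2) ^ 2 + 1)) := by gcongr; exact exp_inv_le hs0
    _ = _ := by field_simp

lemma php_o_sq {h : ℝ} (hh : 0 < h) : (fun s => ph h s + ps h s) =o[L0] fun s => s ^ 2 := by
  refine (php_small hh (a := 0) (by positivity) 2 0).trans_isBigO ?_
  refine IsBigO.of_bound 1 ?_
  filter_upwards [self_mem_nhdsWithin] with s hs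
  have hs0 : 0 < s := hs
  rw [Real.norm_of_nonneg (sq_nonneg _), Real.norm_of_nonneg (exp_pos _).le, one_mul]
  calc _ = exp (-s⁻¹) ^ 2 := by rw [← exp_nat_mul]; congr 1; push_cast; ring
    _ ≤ _ := by gcongr; exact exp_inv_le hs0

lemma ph_O (h : ℝ) : ph h =O[L0] fun s => ph h s + ps h s :=
  IsBigO.of_bound 1 (Eventually.of_forall fun s => by
    rw [Real.norm_of_nonneg (add_nonneg (ph_nonneg _ _) (ps_nonneg _ _)),
      Real.norm_of_nonneg (ph_nonneg _ _)]
    linarith [ps_nonneg h s])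

lemma ps_O (h : ℝ) : ps h =O[L0] fun s => ph h s + ps h s :=
  IsBigO.of_bound 1 (Eventually.of_forall fun s => by
    rw [Real.norm_of_nonneg (add_nonneg (ph_nonneg _ _) (ps_nonneg _ _)),
      Real.norm_of_nonneg (ps_nonneg _ _)]
    linarith [ph_nonneg h s])

lemma ph_o_ph {h h' : ℝ} (hh : 0 ≤ h) (hh' : h < h') : ph h' =o[L0] ph h :=
  (ph_O h').trans_isLittleO (php_o_ph hh hh')

lemma ps_o_ph {h h' : ℝ} (hh : 0 ≤ h) (hh' : h ≤ h') : ps h' =o[L0] ph h := by
  rw [isLittleO_iff]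
  intro ε hε
  have hη : 0 < min 1 (ε / 2) := by positivity
  filter_upwards [isLittleO_iff.1 (php_o_ph hh (h' := h + min 1 (ε / 2)) (by linarith))
    (half_pos hε)] with s h1
  set η := min 1 (ε / 2)
  rw [Real.norm_of_nonneg (add_nonneg (ph_nonneg _ _) (ps_nonneg _ _)),
      Real.norm_of_nonneg (ph_nonneg _ _)] at h1
  rw [Real.norm_of_nonneg (ps_nonneg _ _), Real.norm_of_nonneg (ph_nonneg _ _)]
  have h2 : ps h s ≤ η * ph h s + (ph (h + η) s + ps (h + η) s) := by
    rw [ph, ph, ps, ps, ← EE_add (by fun_prop) (by fun_prop), ← EE_mul _ (by fun_prop),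
      ← EE_add (by fun_prop) (by fun_prop)]
    refine EE_mono (by fun_prop) (by fun_prop) fun σ => ?_
    have hη1 : η ≤ 1 := min_le_left _ _
    set t := s * σ.W1 - h
    rw [show s * σ.W1 - (h + η) = t - η by ring]
    rcases le_total t 0 with h3 | h3
    · rw [max_eq_right h3, max_eq_right (by linarith)]; simp
    rw [max_eq_left h3]
    rcases le_total t η with h4 | h4
    · rw [max_eq_right (by linarith)]; nlinarith
    · rw [max_eq_left (by linarith)]; nlinarith
  have h3 : η * ph h s ≤ ε / 2 * ph h s :=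
    mul_le_mul_of_nonneg_right (min_le_right _ _) (ph_nonneg _ _)
  linarith [ps_anti hh' s]

lemma sph_o_ph (h : ℝ) : (fun s => s * ph h s) =o[L0] ph h := by
  have : (fun s : ℝ => s) =o[L0] fun _ => (1 : ℝ) :=
    (isLittleO_one_iff ℝ).2 (tendsto_id.mono_left nhdsWithin_le_nhds)
  simpa using this.mul_isBigO (isBigO_refl (ph h) L0)

lemma not_le_o {h c : ℝ} (hh : 0 ≤ h) (hc : 0 < c) {f : ℝ → ℝ} (hf : f =o[L0] ph h)
    (hle : ∀ᶠ s in L0, c * ph h s ≤ f s) : False := by
  obtain ⟨s, h1, h2, h3⟩ := (hle.and ((isLittleO_iff.1 hf (half_pos hc)).and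
    self_mem_nhdsWithin)).exists
  have := ph_pos hh h3
  rw [Real.norm_of_nonneg this.le] at h2
  nlinarith [le_abs_self (f s), Real.norm_eq_abs (f s)]

lemma poly_zero {a b c : ℝ} (h : (fun s => a + b * s + c * s ^ 2) =o[L0] fun s => s ^ 2) :
    a = 0 ∧ b = 0 ∧ c = 0 := by
  have t0 : Tendsto (fun s : ℝ => s) L0 (𝓝 0) := tendsto_id.mono_left nhdsWithin_le_nhds
  have h1 := h.tendsto_div_nhds_zero
  have ha : a = 0 := by
    have h2 := h1.mul (t0.pow 2)
    have h3 := ((tendsto_const_nhds (x := a)).add (t0.const_mul b)).add ((t0.pow 2).const_mul c)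
    have := tendsto_nhds_unique_of_eventuallyEq h2 h3 (by
      filter_upwards [self_mem_nhdsWithin] with s hs
      have : s ≠ 0 := ne_of_gt hs
      field_simp)
    simpa using this.symm
  subst ha
  have hb : b = 0 := by
    have h2 := h1.mul t0
    have h3 := (tendsto_const_nhds (x := b)).add (t0.const_mul c)
    have := tendsto_nhds_unique_of_eventuallyEq h2 h3 (by
      filter_upwards [self_mem_nhdsWithin] with s hs
      have : s ≠ 0 := ne_of_gt hs
      field_simp; ring)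
    simpa using this.symm
  subst hb
  refine ⟨rfl, rfl, (tendsto_nhds_unique_of_eventuallyEq h1 tendsto_const_nhds ?_).symm⟩
  filter_upwards [self_mem_nhdsWithin] with s hs
  have : s ≠ 0 := ne_of_gt hs
  field_simp; ring

lemma EE_W2 (f : ℝ → ℝ) : EE (fun σ => f σ.W2) = EE fun σ => f σ.W1 :=
  EE_rot (p := 0) (q := 1) (r := 1) (t := 0) (by norm_num) (by norm_num) (by norm_num)
    fun σ => by rw [rot_swap_W1]

def S.W (σ : S) (a b : ℝ) : ℝ := σ.f a b + σ.f (-a) (-b)

@[fun_prop] lemma Good.W (a b : ℝ) : Good fun σ => σ.W a b := (Good.atom _ _).add (Good.atom _ _)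

lemma EE_unit {a b : ℝ} (hab : a ^ 2 + b ^ 2 = 1) (f : ℝ → ℝ → ℝ) :
    EE (fun σ => f (σ.W a b) (σ.W (-b) a)) = EE fun σ => f σ.W1 σ.W2 :=
  EE_rot (p := a) (q := b) (r := -b) (t := a) (by linarith) (by linarith) (by ring)
    fun σ => by simp [S.rot, S.W, S.W1, S.W2]

lemma EE_ph_W2 (h s : ℝ) : EE (fun σ => max (s * σ.W1 - h) 0 * σ.W2) = ph h s * mw := by
  rw [EE_indep (f := fun w => max (s * w - h) 0) (g := fun w => w) (by fun_prop) (by fun_prop),
    EE_W2 fun w => w]
  rfl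

end Pool.Agent.Lib.MP_2d4879_an
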