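import Pool.Agent.Lib.MP_2d4879_an.Polar
import Pool.Agent.Lib.MP_2d4879_an.Asy

namespace Pool.Agent.Lib.MP_2d4879_an

open MeasureTheory Real Filter Topology Set
open scoped ENNReal

noncomputable def Jk (κ w H : ℝ) : ℝ :=
  if κ = 0 then max H 0 * max w 0 else (max w 0 ^ 2 - max (w - κ * max H 0) 0 ^ 2) / (2 * κ)

lemma int_lin (κ w t0 t1 : ℝ) :
    ∫ t in Ioo t0 t1, max (w - κ * (t - t0)) 0 = Jk κ w (t1 - t0) := by
  rcases le_total t1 t0 with h | h
  · rw [Ioo_eq_empty (not_lt.2 h), Jk, max_eq_right (sub_nonpos.2 h)]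
    simp
  rw [← integral_Ioc_eq_integral_Ioo, ← intervalIntegral.integral_of_le h, Jk,
    max_eq_left (sub_nonneg.2 h)]
  split_ifs with hk
  · simp [hk]
  rw [intervalIntegral.integral_eq_sub_of_hasDerivAt
    (f := fun t => -(max (w - κ * (t - t0)) 0 ^ 2 / (2 * κ))) (fun t _ => ?_)
    (Continuous.intervalIntegrable (by fun_prop) _ _)]
  · simp only [sub_self, mul_zero, sub_zero]; ring
  · have h1 : HasDerivAt (fun t => w - κ * (t - t0)) (-κ) t := by
      simpa using (((hasDerivAt_id t).sub_const t0).const_mul κ).const_sub w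
    have h2 := (((hasDerivAt_posSq _).comp t h1).div_const (2 * κ)).neg
    convert! h2 using 1
    field_simp

lemma lint_lin (κ w t0 t1 : ℝ) :
    ∫⁻ t in Ioo t0 t1, ENNReal.ofReal (w - κ * (t - t0)) = ENNReal.ofReal (Jk κ w (t1 - t0)) := by
  rw [← int_lin, ofReal_integral_eq_lintegral_ofReal (f := fun t => max (w - κ * (t - t0)) 0)
    ((Continuous.integrableOn_Icc (by fun_prop)).mono_set Ioo_subset_Icc_self)
    (Eventually.of_forall fun t => le_max_right _ _)]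
  simp [ENNReal.ofReal_max]

lemma Jk_nonneg (κ w H : ℝ) : 0 ≤ Jk κ w H := by
  have := int_lin κ w 0 H
  rw [sub_zero H] at this
  rw [← this]
  exact integral_nonneg fun t => le_max_right _ _

lemma vol_sec {A : Set E} (hA : MeasurableSet A) :
    volume A = ∫⁻ t : ℝ, volume {u : ℝ | (!₂[u, t] : E) ∈ A} := by
  have h1 : MeasurePreserving (fun p : ℝ × ℝ => (!₂[p.1, p.2] : E)) :=
    (PiLp.volume_preserving_toLp (Fin 2)).comp ((volume_preserving_finTwoArrow ℝ).symm _)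
  rw [← h1.measure_preimage hA.nullMeasurableSet, Measure.volume_eq_prod,
    Measure.prod_apply_symm (hA.preimage h1.measurable)]
  rfl

lemma vol_trap (t0 t1 x y l r : ℝ) :
    volume {p : E | t0 < p 1 ∧ p 1 < t1 ∧ x * p 1 + l < p 0 ∧ p 0 < y * p 1 + r} =
      ENNReal.ofReal (Jk (x - y) (r - l - (x - y) * t0) (t1 - t0)) := by
  rw [vol_sec (by measurability), ← lint_lin, ← lintegral_indicator measurableSet_Ioo]
  congr 1; ext t
  by_cases ht : t ∈ Ioo t0 t1
  · rw [indicator_of_mem ht, show r - l - (x - y) * t0 - (x - y) * (t - t0) =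
      (y * t + r) - (x * t + l) by ring, ← Real.volume_Ioo]
    congr 1; ext u; simp [ht.1, ht.2]
  · rw [indicator_of_notMem ht]
    convert measure_empty (μ := (volume : Measure ℝ))
    ext u
    simp only [mem_Ioo, not_and, not_lt] at ht
    simp only [Matrix.cons_val_one, Matrix.cons_val_zero, mem_ofPred_eq, mem_empty_iff_false,
      iff_false, not_and, not_lt]
    intro h1 h2; linarith [ht h1]

lemma vol_cone {x y : ℝ} (hxy : y < x) (T l r : ℝ) :
    volume {p : E | p 1 < T ∧ p 0 ≤ x * p 1 + l ∧ y * p 1 + r ≤ p 0} =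
      ENNReal.ofReal (max ((x - y) * T + l - r) 0 ^ 2 / (2 * (x - y))) := by
  set κ := x - y with hκ
  have hk : 0 < κ := sub_pos.2 hxy
  set c := κ * T + l - r with hc
  have h1 := lint_lin (-κ) (c - max c 0) (T - max c 0 / κ) T
  have h2 : Jk (-κ) (c - max c 0) (T - (T - max c 0 / κ)) = max c 0 ^ 2 / (2 * κ) := by
    rw [Jk, if_neg (by linarith), sub_sub_cancel, max_eq_left (a := max c 0 / κ) (by positivity),
      max_eq_right (sub_nonpos.2 (le_max_left _ _)),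
      show c - max c 0 - -κ * (max c 0 / κ) = c by field_simp; ring]
    field_simp; ring
  rw [vol_sec (by measurability), ← h2, ← h1, ← lintegral_indicator measurableSet_Ioo]
  refine lintegral_congr_ae ?_
  filter_upwards [Measure.ae_ne volume (T - max c 0 / κ)] with t ht0
  by_cases ht : t < T
  · have e : {u : ℝ | (!₂[u, t] : E) ∈ {p : E | p 1 < T ∧ p 0 ≤ x * p 1 + l ∧ y * p 1 + r ≤ p 0}} =
        Icc (y * t + r) (x * t + l) := by ext u; simp [ht, and_comm]
    have e2 : c - max c 0 - -κ * (t - (T - max c 0 / κ)) = x * t + l - (y * t + r) := by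
      field_simp; rw [hc, hκ]; ring
    refine (congrArg volume e).trans ?_
    rw [Real.volume_Icc]
    by_cases h3 : T - max c 0 / κ < t
    · rw [indicator_of_mem (show t ∈ Ioo _ _ from ⟨h3, ht⟩), e2]
    · rw [indicator_of_notMem (fun h => h3 h.1), ENNReal.ofReal_eq_zero, ← e2]
      nlinarith [le_max_left c 0, not_lt.1 h3]
  · rw [indicator_of_notMem (fun h => ht h.2)]
    convert measure_empty (μ := (volume : Measure ℝ))
    ext u; simp [ht]

def Trap (h B x y : ℝ) : Set E := {p | 0 < p 1 ∧ p 1 < h ∧ x * p 1 < p 0 ∧ p 0 < B + y * p 1}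

noncomputable def wb (B x y s : ℝ) (σ : S) : ℝ :=
  B - s * (σ.f (-1) x + σ.f 1 (-y) + (x - y) * σ.f 0 (-1))

noncomputable def ar (h B x y s : ℝ) (σ : S) : ℝ := Jk (x - y) (wb B x y s σ) (h - s * σ.W2)

lemma sspf_lt {n : ℕ} (z : Fin n → E) {s : ℝ} (hs : 0 ≤ s) (a b c : ℝ) :
    s * spf z a b < c ↔ ∀ j, s * (a * cns 0 z j 0 + b * cns 0 z j 1) < c := by
  rw [← show spf z (s * a) (s * b) = s * spf z a b from (sp z).smul s a b hs, spf_lt_iff]
  simp only [mul_add, mul_assoc]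

lemma le_sspf {n : ℕ} (z : Fin n → E) {s : ℝ} (hs : 0 ≤ s) (a b c : ℝ) :
    c ≤ s * spf z a b ↔ ∃ j, c ≤ s * (a * cns 0 z j 0 + b * cns 0 z j 1) := by
  rw [← not_lt, sspf_lt z hs]; simp

lemma er_trap (h B x y : ℝ) {s : ℝ} (hs : 0 ≤ s) (n : ℕ) (z : Fin n → E) :
    er (Trap h B x y) s z = ar h B x y s (sp z) := by
  have e : {a : E | ∀ j, a + s • cns 0 z j ∈ Trap h B x y} =
      {p : E | s * spf z 0 (-1) < p 1 ∧ p 1 < h - s * spf z 0 1 ∧
        x * p 1 + s * spf z (-1) x < p 0 ∧ p 0 < y * p 1 + (B - s * spf z 1 (-y))} := by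
    ext a
    simp only [Trap, mem_ofPred_eq, PiLp.add_apply, PiLp.smul_apply, smul_eq_mul, forall_and]
    rw [lt_sub_comm (a := a 1), ← lt_sub_iff_add_lt', ← sub_lt_iff_lt_add' (a := a 0),
      lt_sub_comm (a := a 0 - y * a 1), sspf_lt z hs, sspf_lt z hs, sspf_lt z hs, sspf_lt z hs]
    refine and_congr ?_ (and_congr ?_ (and_congr ?_ ?_)) <;>
      exact forall_congr' fun j => by constructor <;> intro h <;> linarith
  rw [er, e, Measure.real, vol_trap, ENNReal.toReal_ofReal (Jk_nonneg _ _ _), ar, wb]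
  congr 1
  · simp only [sp]; ring
  · simp only [sp, S.W2]; ring

@[fun_prop] lemma Good.Jk (κ : ℝ) {Φ Ψ : S → ℝ} (h1 : Good Φ) (h2 : Good Ψ) :
    Good fun σ => Jk κ (Φ σ) (Ψ σ) := by
  unfold MP_2d4879_an.Jk
  split_ifs <;> fun_prop

@[fun_prop] lemma Good.wb (B x y s : ℝ) : Good fun σ => wb B x y s σ := by
  unfold MP_2d4879_an.wb; fun_prop

@[fun_prop] lemma Good.ar (h B x y s : ℝ) : Good fun σ => ar h B x y s σ := by
  unfold MP_2d4879_an.ar; fun_prop

noncomputable def nm (x y b s : ℝ) (σ : S) : ℝ :=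
  s * (σ.f (-1) x + σ.f 1 (-y) - (x - y) * σ.f 0 1) - b

noncomputable def th (x y b s : ℝ) (σ : S) : ℝ := max (nm x y b s σ) 0 ^ 2 / (2 * (x - y))

@[fun_prop] lemma Good.nm (x y b s : ℝ) : Good fun σ => nm x y b s σ := by
  unfold MP_2d4879_an.nm; fun_prop

@[fun_prop] lemma Good.th (x y b s : ℝ) : Good fun σ => th x y b s σ := by
  unfold MP_2d4879_an.th; fun_prop

lemma vol_th {x y : ℝ} (hxy : y < x) (b : ℝ) {s : ℝ} (hs : 0 ≤ s) (n : ℕ) (z : Fin n → E) :
    volume {a : E | (fun j => a + s • cns 0 z j) ∈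
      ev3 {p | p 1 < 0} {p | p 0 ≤ x * p 1} {p | b + y * p 1 ≤ p 0}} =
      ENNReal.ofReal (th x y b s (sp z)) := by
  have e : {a : E | (fun j => a + s • cns 0 z j) ∈
      ev3 {p | p 1 < 0} {p | p 0 ≤ x * p 1} {p | b + y * p 1 ≤ p 0}} =
      {p : E | p 1 < 0 - s * spf z 0 1 ∧ p 0 ≤ x * p 1 + s * spf z (-1) x ∧
        y * p 1 + (b - s * spf z 1 (-y)) ≤ p 0} := by
    ext a
    simp only [ev3, mem_ofPred_eq, PiLp.add_apply, PiLp.smul_apply, smul_eq_mul]
    rw [lt_sub_comm (a := a 1), ← sub_le_iff_le_add' (a := a 0), ← le_sub_iff_add_le',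
      sub_le_comm (a := b), sspf_lt z hs, le_sspf z hs, le_sspf z hs]
    refine and_congr ?_ (and_congr ?_ ?_)
    · exact forall_congr' fun j => by constructor <;> intro h <;> linarith
    · exact exists_congr fun j => by constructor <;> intro h <;> linarith
    · exact exists_congr fun j => by constructor <;> intro h <;> linarith
  rw [e, vol_cone hxy, th, nm]
  congr 4
  simp only [sp]; ring

lemma th_nonneg {x y : ℝ} (hxy : y < x) (b s : ℝ) (σ : S) : 0 ≤ th x y b s σ :=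
  div_nonneg (sq_nonneg _) (by linarith)

noncomputable def sg (y : ℝ) : ℝ := √(1 + y ^ 2)

lemma sg_sq (y : ℝ) : sg y ^ 2 = 1 + y ^ 2 := sq_sqrt (by positivity)

lemma sg_pos (y : ℝ) : 0 < sg y := sqrt_pos.2 (by positivity)

lemma one_le_sg (y : ℝ) : 1 ≤ sg y := by nlinarith [sg_sq y, sg_pos y, sq_nonneg y]

lemma refl_ex {n0 n1 : ℝ} (hN : 0 < n0 ^ 2 + n1 ^ 2) : ∃ ρ : E ≃ₗᵢ[ℝ] E, ∀ z, ∃ c : ℝ,
    c * (n0 ^ 2 + n1 ^ 2) = 2 * (n0 * z 0 + n1 * z 1) ∧
      ρ z 0 = z 0 - c * n0 ∧ ρ z 1 = z 1 - c * n1 := by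
  set N := n0 ^ 2 + n1 ^ 2 with h
  refine ⟨ort (1 - 2 * n0 ^ 2 / N) (-2 * n0 * n1 / N) (-2 * n0 * n1 / N) (1 - 2 * n1 ^ 2 / N)
    (by field_simp; rw [h]; ring) (by field_simp; rw [h]; ring) (by field_simp; rw [h]; ring),
    fun z => ⟨2 * (n0 * z 0 + n1 * z 1) / N, by field_simp, ?_, ?_⟩⟩
  · rw [ort_0]; field_simp; ring
  · rw [ort_1]; field_simp; ring

lemma En_ofReal {Φ : S → ℝ} (h : Good Φ) (h0 : ∀ σ, 0 ≤ Φ σ) (n : ℕ) :
    ENNReal.ofReal (En n Φ) = ∫⁻ y, ENNReal.ofReal (Φ (sp y)) ∂nu n :=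
  ofReal_integral_eq_lintegral_ofReal (h.int n) (Eventually.of_forall fun _ => h0 _)

theorem th_polar {x y1 y2 : ℝ} (h1 : y1 < x) (h2 : y2 ≤ y1) (h3 : 0 ≤ y2) (δ : ℝ) {s : ℝ}
    (hs : 0 < s) : EE (th x y2 (δ * sg y2) s) ≤ EE (th x y1 (δ * sg y1) s) := by
  rcases h2.eq_or_lt with rfl | h2
  · exact le_rfl
  have p1 := sg_pos y1
  have p2 := sg_pos y2
  obtain ⟨a1, ha1⟩ : ∃ a1, a1 * sg y1 = 1 := ⟨(sg y1)⁻¹, by field_simp⟩
  obtain ⟨a2, ha2⟩ : ∃ a2, a2 * sg y2 = 1 := ⟨(sg y2)⁻¹, by field_simp⟩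
  have q1 : a1 ^ 2 * (1 + y1 ^ 2) = 1 := by rw [← sg_sq, ← mul_pow, ha1, one_pow]
  have q2 : a2 ^ 2 * (1 + y2 ^ 2) = 1 := by rw [← sg_sq, ← mul_pow, ha2, one_pow]
  have a1p : 0 < a1 := (mul_pos_iff_of_pos_right p1).1 (by rw [ha1]; exact one_pos)
  have a2p : 0 < a2 := (mul_pos_iff_of_pos_right p2).1 (by rw [ha2]; exact one_pos)
  have h12 : a1 < a2 := by
    refine lt_of_pow_lt_pow_left₀ 2 a2p.le ?_
    nlinarith [mul_pos (pow_pos a1p 2) (show 0 < y1 ^ 2 - y2 ^ 2 by nlinarith)]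
  have h13 : y2 * a2 < y1 * a1 := by
    refine lt_of_pow_lt_pow_left₀ 2 (mul_nonneg (by linarith) a1p.le) ?_
    nlinarith
  set n0 := a1 - a2 with hn0
  set n1 := y2 * a2 - y1 * a1 with hn1
  have n0n : n0 < 0 := by linarith
  have n1n : n1 < 0 := by linarith
  have hN : 0 < n0 ^ 2 + n1 ^ 2 := by nlinarith [sq_nonneg n1]
  have hv : 2 * (n0 * a1 - n1 * (y1 * a1)) = n0 ^ 2 + n1 ^ 2 := by
    rw [hn0, hn1]; linear_combination q1 - q2
  obtain ⟨ρ, hρ⟩ := refl_ex hN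
  have hneg : ∀ z, n0 * ρ z 0 + n1 * ρ z 1 = -(n0 * z 0 + n1 * z 1) := by
    intro z
    obtain ⟨c, k1, k2, k3⟩ := hρ z
    rw [k2, k3]; linear_combination -k1
  have R : ∀ (y a : ℝ) (z : E), 0 < a → a * sg y = 1 →
      (δ * sg y + y * z 1 ≤ z 0 ↔ δ ≤ a * z 0 - y * a * z 1) := by
    intro y a z ha e
    rw [← mul_le_mul_iff_right₀ ha, show a * (δ * sg y + y * z 1) = δ * (a * sg y) + y * a * z 1
      by ring, e, mul_one, le_sub_iff_add_le]
  have P : Pol ρ (fun z => n0 * z 0 + n1 * z 1) {p | p 1 < 0} {p | p 0 ≤ x * p 1}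
      {p | δ * sg y1 + y1 * p 1 ≤ p 0} {p | δ * sg y2 + y2 * p 1 ≤ p 0} :=
    { inv := fun z => by
        obtain ⟨c, k1, k2, k3⟩ := hρ z
        obtain ⟨d, k4, k5, k6⟩ := hρ (ρ z)
        have : d = -c := mul_right_cancel₀ hN.ne' (by rw [k4, hneg]; linarith)
        ext i; fin_cases i
        · change ρ (ρ z) 0 = z 0; rw [k5, k2, this]; ring
        · change ρ (ρ z) 1 = z 1; rw [k6, k3, this]; ring
      neg := hneg
      near := fun z w hz hw => by
        obtain ⟨c, k1, k2, k3⟩ := hρ w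
        have hc : 0 ≤ c := nonneg_of_mul_nonneg_left (by rw [k1]; positivity) hN
        simp only [nsq, PiLp.sub_apply, k2, k3]
        nlinarith [mul_nonneg hc hz]
      hH := fun z hz h => by
        obtain ⟨c, k1, k2, k3⟩ := hρ z
        have hc : 0 ≤ c := nonneg_of_mul_nonneg_left (by rw [k1]; positivity) hN
        simp only [mem_ofPred_eq, k3] at h ⊢
        nlinarith
      hT := fun z hz h h' => by
        obtain ⟨c, k1, k2, k3⟩ := hρ z
        simp only [mem_ofPred_eq] at h h' ⊢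
        have e := hneg z
        have k4 : ρ z 0 ≤ 0 := by nlinarith
        exfalso
        nlinarith [mul_nonneg_of_nonpos_of_nonpos n0n.le k4, mul_pos_of_neg_of_neg n1n h]
      hR := fun z => by
        obtain ⟨c, k1, k2, k3⟩ := hρ z
        simp only [mem_ofPred_eq]
        rw [R _ _ _ a1p ha1, R _ _ _ a2p ha2, k2, k3]
        have : a1 * (z 0 - c * n0) - y1 * a1 * (z 1 - c * n1) = a2 * z 0 - y2 * a2 * z 1 := by
          have k4 : c * (n0 * a1 - n1 * (y1 * a1)) = n0 * z 0 + n1 * z 1 := by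
            linear_combination (c / 2) * hv + k1 / 2
          rw [hn0, hn1] at k4 ⊢
          linear_combination -k4
        rw [this]
      hR' := fun z hz h => by
        simp only [mem_ofPred_eq] at h ⊢
        rw [R _ _ _ a1p ha1]
        rw [R _ _ _ a2p ha2] at h
        rw [hn0, hn1] at hz
        linarith }
  refine EE_mono' (by fun_prop) (by fun_prop) fun j => ?_
  have := pol_nu P (by measurability) (by measurability) (by measurability) (by measurability) hs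
    (4 * j + 3)
  simp_rw [vol_th h1 _ hs.le, vol_th (h2.trans h1) _ hs.le] at this
  rw [← En_ofReal (by fun_prop) (th_nonneg h1 _ _),
    ← En_ofReal (by fun_prop) (th_nonneg (h2.trans h1) _ _)] at this
  exact (ENNReal.ofReal_le_ofReal_iff (integral_nonneg fun _ => th_nonneg h1 _ _ _)).1 this

end Pool.Agent.Lib.MP_2d4879_an
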