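import Pool.Agent.Lib.MP_2d4879_an.Path

namespace Pool.Agent.Lib.MP_2d4879_an

open MeasureTheory Real Filter Topology Set ProbabilityTheory
open scoped InnerProductSpace ENNReal

noncomputable def nu (n : ℕ) : Measure (Fin n → E) :=
  ENNReal.ofReal (4 * π) • pm (1 / (n + 1)) n 0 0

lemma four_pi_pe (z : E) :
    ENNReal.ofReal (4 * π) * pe 1 z = ENNReal.ofReal (exp (-‖z‖ ^ 2 / 4)) := by
  rw [pe, ← ENNReal.ofReal_mul (by positivity), pk]
  congr 1
  field_simp

lemma step_mul (n : ℕ) : ((n : ℝ) + 1) * (1 / (n + 1)) = 1 := by field_simp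

instance (n : ℕ) : IsProbabilityMeasure (nu n) := ⟨by
  rw [nu, Measure.smul_apply, pm_univ (by positivity), step_mul, smul_eq_mul, four_pi_pe]
  simp⟩

lemma wt_iso (h : ℝ) {n : ℕ} (O : E ≃ₗᵢ[ℝ] E) (y : Fin n → E) :
    wt h 0 0 (fun j => O (y j)) = wt h 0 0 y := by
  unfold wt
  have e1 := cns_map O 0 y
  have e2 := snc_map O 0 y
  simp only [map_zero] at e1 e2
  simp_rw [e1, e2, ← map_sub, pe, pk, O.norm_map]

lemma nu_iso {n : ℕ} (O : E ≃ₗᵢ[ℝ] E) :
    MeasurePreserving (fun (y : Fin n → E) j => O (y j)) (nu n) (nu n) := by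
  have hm : Measurable (fun (y : Fin n → E) j => O (y j)) := by fun_prop
  refine ⟨hm, Measure.ext_of_lintegral _ fun F hF => ?_⟩
  rw [lintegral_map hF hm, nu, lintegral_smul_measure, lintegral_smul_measure,
    lint_pm _ _ _ hF, lint_pm _ _ _ (F := fun y => F fun j => O (y j)) (hF.comp hm)]
  congr 1
  rw [← (volume_preserving_pi fun _ : Fin n => O.measurePreserving).lintegral_comp
    (f := fun x => wt (1 / (n + 1)) 0 0 x * F x) (by fun_prop)]
  simp_rw [wt_iso]

lemma nu_iso_int {n : ℕ} (O : E ≃ₗᵢ[ℝ] E) (F : (Fin n → E) → ℝ) :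
    ∫ y, F (fun j => O (y j)) ∂nu n = ∫ y, F y ∂nu n :=
  (nu_iso O).integral_comp
    (Homeomorph.piCongrRight fun _ : Fin n => O.toHomeomorph).measurableEmbedding F

noncomputable def w1 (h : ℝ) {n : ℕ} (x : Fin n → ℝ) : ℝ≥0∞ :=
  ∏ j : Fin (n + 1), ENNReal.ofReal (exp (-((cns 0 (fun i => !₂[x i, x i]) j -
    snc (fun i => !₂[x i, x i]) 0 j) 0) ^ 2 / (4 * h)))

lemma meas_w1 (h : ℝ) (n : ℕ) : Measurable (w1 h (n := n)) := by
  unfold w1
  refine Finset.measurable_prod _ fun j _ => Continuous.measurable ?_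
  have h1 : Continuous fun (x : Fin n → ℝ) i => (!₂[x i, x i] : E) := by fun_prop
  have h2 := (continuous_apply j).comp (cont_cns (continuous_const (y := (0 : E))) h1)
  have h3 := (continuous_apply j).comp (cont_snc (continuous_const (y := (0 : E))) h1)
  refine ENNReal.continuous_ofReal.comp (Continuous.rexp (Continuous.div_const
    (Continuous.neg (Continuous.pow ?_ 2)) _))
  exact (PiLp.continuous_apply 2 _ 0).comp (h2.sub h3)

lemma w1_eq (h : ℝ) {n : ℕ} (y : Fin n → E) (i : Fin 2) : w1 h (fun j => y j i) =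
    ∏ j : Fin (n + 1), ENNReal.ofReal (exp (-((cns 0 y j - snc y 0 j) i) ^ 2 / (4 * h))) := by
  unfold w1
  have e0 : (!₂[(0 : E) i, (0 : E) i] : E) = 0 := by ext k; fin_cases k <;> simp
  have e1 := cns_map (fun z => !₂[z i, z i]) 0 y
  have e2 := snc_map (fun z => !₂[z i, z i]) 0 y
  simp only [e0] at e1 e2
  simp [e1, e2]

lemma wt_eq_w1 {h : ℝ} (hh : 0 < h) {n : ℕ} (y : Fin n → E) :
    wt h 0 0 y = ENNReal.ofReal (4 * π * h)⁻¹ ^ (n + 1) *
      (w1 h (fun j => y j 0) * w1 h (fun j => y j 1)) := by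
  rw [w1_eq, w1_eq, ← Finset.prod_mul_distrib, wt]
  have : ∀ z : E, pe h z = ENNReal.ofReal (4 * π * h)⁻¹ * (ENNReal.ofReal (exp (-(z 0) ^ 2 / (4 * h))) *
      ENNReal.ofReal (exp (-(z 1) ^ 2 / (4 * h)))) := by
    intro z
    rw [← ENNReal.ofReal_mul (exp_pos _).le, ← ENNReal.ofReal_mul (by positivity), ← exp_add,
      pe, pk, nsq]
    congr 3; ring
  simp_rw [this]
  rw [Finset.prod_mul_distrib]
  simp

lemma nu_indep (n : ℕ) :
    IndepFun (fun (y : Fin n → E) j => y j 0) (fun (y : Fin n → E) j => y j 1) (nu n) := by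
  have hh : (0 : ℝ) < 1 / (n + 1) := by positivity
  have hT : MeasurePreserving (fun y : Fin n → E => ((fun j => y j 0), (fun j => y j 1))) :=
    (volume_measurePreserving_arrowProdEquivProdArrow ℝ ℝ (Fin n)).comp
      (volume_preserving_pi fun _ : Fin n =>
        (volume_preserving_finTwoArrow ℝ).comp (PiLp.volume_preserving_ofLp (Fin 2)))
  obtain ⟨A, c, hA⟩ : ∃ (A : Set (Fin n → ℝ) → ℝ≥0∞) (c : ℝ≥0∞), ∀ s t, MeasurableSet s →
      MeasurableSet t → nu n ((fun (y : Fin n → E) j => y j 0) ⁻¹' s ∩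
        (fun (y : Fin n → E) j => y j 1) ⁻¹' t) = c * (A s * A t) := by
    refine ⟨fun s => ∫⁻ x, w1 (1 / (n + 1)) x * s.indicator 1 x,
      ENNReal.ofReal (4 * π) * ENNReal.ofReal (4 * π * (1 / (n + 1)))⁻¹ ^ (n + 1),
      fun s t hs ht => ?_⟩
    have m1 : ∀ s, MeasurableSet s →
        Measurable fun x : Fin n → ℝ => w1 (1 / (n + 1)) x * s.indicator 1 x := fun s hs =>
      (meas_w1 _ n).mul (measurable_one.indicator hs)
    rw [nu, Measure.smul_apply, pm_apply _ _ _ ((hs.preimage (by fun_prop)).inter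
      (ht.preimage (by fun_prop))), smul_eq_mul, mul_assoc,
      ← lintegral_prod_mul (m1 s hs).aemeasurable (m1 t ht).aemeasurable, ← Measure.volume_eq_prod,
      ← hT.lintegral_comp (f := fun z : (Fin n → ℝ) × (Fin n → ℝ) =>
        w1 (1 / (n + 1)) z.1 * s.indicator 1 z.1 * (w1 (1 / (n + 1)) z.2 * t.indicator 1 z.2))
        (((m1 s hs).comp measurable_fst).mul ((m1 t ht).comp measurable_snd)),
      ← lintegral_const_mul' _ _ (ENNReal.pow_ne_top ENNReal.ofReal_ne_top)]
    congr 2; ext y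
    rw [wt_eq_w1 hh, mul_assoc, inter_indicator_one]
    simp only [Pi.mul_apply]
    congr 1
    rw [mul_mul_mul_comm]
    rfl
  rw [indepFun_iff_measure_inter_preimage_eq_mul]
  intro s t hs ht
  have h1 := hA s univ hs MeasurableSet.univ
  have h2 := hA univ t MeasurableSet.univ ht
  have h3 := hA univ univ MeasurableSet.univ MeasurableSet.univ
  simp only [preimage_univ, inter_univ, univ_inter, measure_univ] at h1 h2 h3
  rw [hA s t hs ht, h1, h2, ← mul_one (c * (A s * A t)), h3]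
  ring

lemma ms_er {n : ℕ} {D : Set E} (hD : MeasurableSet D) (s : ℝ) :
    MeasurableSet {p : E × (Fin n → E) | ∀ j, p.1 + s • cns 0 p.2 j ∈ D} := by
  rw [ofPred_forall]
  exact MeasurableSet.iInter fun j => hD.preimage (measurable_fst.add
    (((measurable_pi_apply j).comp (meas_cns measurable_const measurable_snd)).const_smul s))

noncomputable def er (D : Set E) (s : ℝ) {n : ℕ} (y : Fin n → E) : ℝ :=
  volume.real {a : E | ∀ j, a + s • cns 0 y j ∈ D}

lemma er_sub (D : Set E) (s : ℝ) {n : ℕ} (y : Fin n → E) :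
    {a : E | ∀ j, a + s • cns 0 y j ∈ D} ⊆ D := fun a ha => by simpa using ha 0

lemma tr_eq {D : Set E} (hD : Dom D) {s : ℝ} (hs : 0 < s) (n : ℕ) :
    tr D (s ^ 2 / (n + 1)) n = (4 * π * s ^ 2)⁻¹ * ∫ y, er D s y ∂nu n := by
  have := hD.fin
  have hm := hD.isOpen.measurableSet
  have hh : 0 < s ^ 2 / (n + 1) := by positivity
  set S := {p : E × (Fin n → E) | ∀ j, p.1 + s • cns 0 p.2 j ∈ D}
  have hS : MeasurableSet S := ms_er hm s
  have e1 : ENNReal.ofReal (tr D (s ^ 2 / (n + 1)) n) = ENNReal.ofReal (4 * π * s ^ 2)⁻¹ *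
      ∫⁻ y, volume {a : E | ∀ j, a + s • cns 0 y j ∈ D} ∂nu n := by
    rw [tr, ofReal_integral_eq_lintegral_ofReal _ (Eventually.of_forall fun x =>
      (pw_le hh n x x).1)]
    swap
    · obtain ⟨C, -, hC⟩ := ((gk_pk hh).pw (μ := volume.restrict D) n).bdd
      exact Integrable.of_bound (((gk_pk hh).pw n).meas_comp measurable_id
        measurable_id).aestronglyMeasurable C (Eventually.of_forall fun x => hC x x)
    have e2 : ∀ y : Fin n → E, volume {a : E | ∀ j, a + s • cns 0 y j ∈ D} =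
        ∫⁻ a, S.indicator 1 (a, y) := by
      intro y
      exact (lintegral_indicator_one (hS.preimage (measurable_prodMk_right (y := y)))).symm
    simp_rw [e2]
    rw [← lintegral_lintegral_swap (f := fun a y => S.indicator (1 : E × (Fin n → E) → ℝ≥0∞) (a, y))
      (measurable_one.indicator hS).aemeasurable, ← lintegral_indicator hm,
      ← lintegral_const_mul' _ _ ENNReal.ofReal_ne_top]
    congr 1; ext a
    by_cases ha : a ∈ D
    · rw [indicator_of_mem ha, pw_eq_pm hh hD, ← lintegral_indicator_one (ms_all hm),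
        div_eq_mul_one_div, lint_pm_aff _ hs a (measurable_one.indicator (ms_all hm)), nu,
        lintegral_smul_measure, smul_eq_mul, ← mul_assoc, ← ENNReal.ofReal_mul (by positivity)]
      congr 1
      · congr 1; field_simp
      · congr 1; ext y
        have : (fun j => a + s • y j) ∈ {x : Fin n → E | ∀ j, x j ∈ D} ↔ (a, y) ∈ S := by
          simp [S, Fin.forall_fin_succ, ha]
        by_cases h1 : (a, y) ∈ S
        · rw [indicator_of_mem h1, indicator_of_mem (this.2 h1)]; rfl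
        · rw [indicator_of_notMem h1, indicator_of_notMem (mt this.1 h1)]
    · rw [indicator_of_notMem ha]
      have : ∀ y, S.indicator (1 : E × (Fin n → E) → ℝ≥0∞) (a, y) = 0 := fun y =>
        indicator_of_notMem (s := S) (fun h => ha (er_sub D s y h)) _
      simp [this]
  have e3 : ∫ y, er D s y ∂nu n =
      (∫⁻ y, volume {a : E | ∀ j, a + s • cns 0 y j ∈ D} ∂nu n).toReal := by
    refine integral_toReal (measurable_measure_prodMk_right hS).aemeasurable
      (Eventually.of_forall fun y => ?_)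
    exact (measure_mono (er_sub D s y)).trans_lt hD.bdd.measure_lt_top
  have h0 : 0 ≤ tr D (s ^ 2 / (n + 1)) n := integral_nonneg fun x => (pw_le hh n x x).1
  rw [e3, ← ENNReal.toReal_ofReal h0, e1, ENNReal.toReal_mul, ENNReal.toReal_ofReal (by positivity)]

theorem er_lim {D D' : Set E} (hD : Dom D) (hD' : Dom D')
    (he : ∀ k, 0 < k → sInf (adm D k) = sInf (adm D' k)) {s : ℝ} (hs : 0 < s) :
    Tendsto (fun j : ℕ => ∫ y, er D s y ∂nu (4 * j + 3) - ∫ y, er D' s y ∂nu (4 * j + 3))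
      atTop (𝓝 0) := by
  have := (trace_lim hD hD' he (t := s ^ 2) (by positivity)).const_mul (4 * π * s ^ 2)
  rw [mul_zero] at this
  refine this.congr fun j => ?_
  have e : (4 * j + 4 : ℝ) = ((4 * j + 3 : ℕ) : ℝ) + 1 := by push_cast; ring
  rw [e, tr_eq hD hs, tr_eq hD' hs]
  field_simp

end Pool.Agent.Lib.MP_2d4879_an
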