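import Pool.Agent.Lib.MP_2d4879_an.Mono

namespace Pool.Agent.Lib.MP_2d4879_an

open Real Filter Topology Set Asymptotics

lemma sg_zero : sg 0 = 1 := by simp [sg]

lemma sg_abs (y : ℝ) : sg |y| = sg y := by simp [sg]

lemma lt_sg (y : ℝ) : y < sg y := by
  refine lt_of_pow_lt_pow_left₀ 2 (sg_pos y).le ?_
  rw [sg_sq]; linarith

lemma sg_gap {u v : ℝ} (h : u < v) : sg v - v < sg u - u := by
  have h1 := lt_sg u
  have : sg v < sg u + (v - u) := by
    refine lt_of_pow_lt_pow_left₀ 2 (by linarith [sg_pos u]) ?_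
    rw [add_sq, sg_sq, sg_sq]; nlinarith
  linarith

lemma sg_inj {u v : ℝ} (hu : 0 ≤ u) (hv : 0 ≤ v) (h : sg u = sg v) : u = v := by
  have := sg_sq u
  rw [h, sg_sq] at this
  exact (pow_left_inj₀ hu hv two_ne_zero).1 (by linarith)

lemma sg_pair {x1 y1 x2 y2 : ℝ} (h1 : y1 ≤ x1) (h2 : x1 < x2) (hs : x1 + y1 = x2 + y2) :
    sg x1 + sg y1 < sg x2 + sg y2 := by
  have key : ∀ a b l : ℝ, 0 < l → l < 1 → a ≠ b →
      sg (l * a + (1 - l) * b) < l * sg a + (1 - l) * sg b := by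
    intro a b l l0 l1 hab
    have pa := sg_pos a
    have pb := sg_pos b
    have l2 := sub_pos.2 l1
    refine lt_of_pow_lt_pow_left₀ 2 (by positivity) ?_
    have h3 : 1 + a * b < sg a * sg b := by
      refine lt_of_pow_lt_pow_left₀ 2 (by positivity) ?_
      rw [mul_pow, sg_sq, sg_sq]
      nlinarith [sq_pos_of_ne_zero (sub_ne_zero.2 hab)]
    rw [sg_sq, add_sq (l * sg a), mul_pow, mul_pow, sg_sq, sg_sq]
    nlinarith [mul_pos (mul_pos l0 l2) (sub_pos.2 h3)]
  have hq : 0 < x2 - y2 := by linarith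
  have l0 : 0 < (x2 - x1) / (x2 - y2) := div_pos (by linarith) hq
  have l1 : (x2 - x1) / (x2 - y2) < 1 := (div_lt_one hq).2 (by linarith)
  have k1 := key y2 x2 _ l0 l1 (by linarith)
  have k2 := key x2 y2 _ l0 l1 (by linarith)
  rw [show (x2 - x1) / (x2 - y2) * y2 + (1 - (x2 - x1) / (x2 - y2)) * x2 = x1 by
    field_simp; ring] at k1
  rw [show (x2 - x1) / (x2 - y2) * x2 + (1 - (x2 - x1) / (x2 - y2)) * y2 = y1 by
    rw [show y1 = x2 + y2 - x1 by linarith]; field_simp; ring] at k2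
  linarith

structure Tz where
  h : ℝ
  B : ℝ
  x : ℝ
  y : ℝ
  hh : 0 < h
  xy : |y| ≤ x
  hb : 0 < B - (x - y) * h
  par : x = y → h * sg x ≤ B

namespace Tz
variable (T : Tz)

noncomputable def δ : ℝ := (T.B - (T.x - T.y) * T.h) / sg (max T.y 0)

noncomputable def m : ℝ := T.B - (T.x - T.y) * T.h / 2

noncomputable def b' : ℝ := T.B - (T.x - T.y) * T.h / 2 - (|T.x| + |T.y|) * T.h / 2

noncomputable def err (s : ℝ) : ℝ := D1 T.h T.B T.x T.y s + D2 T.h T.B T.x T.y s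

noncomputable def θ (s : ℝ) : ℝ := EE (th T.x T.y (T.B - (T.x - T.y) * T.h) s)

lemma x0 : 0 ≤ T.x := (abs_nonneg _).trans T.xy

lemma yx : T.y ≤ T.x := (le_abs_self _).trans T.xy

lemma ux : max T.y 0 ≤ T.x := max_le T.yx T.x0

lemma δ0 : 0 < T.δ := div_pos T.hb (sg_pos _)

lemma bδ : T.B - (T.x - T.y) * T.h = T.δ * sg (max T.y 0) := by
  rw [δ, div_mul_cancel₀ _ (sg_pos _).ne']

lemma tall_lt (h : T.δ < T.h) : T.y < T.x := by
  refine T.yx.lt_of_ne fun e => ?_
  have h1 := T.par e.symm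
  have h2 := T.bδ
  rw [max_eq_left (e ▸ T.x0), e] at h2
  nlinarith [sg_pos T.x]

lemma b'_pos (h : T.h ≤ T.δ) : 0 < T.b' := by
  have h2 := T.bδ
  have := T.hb
  rw [b', abs_of_nonneg T.x0]
  rcases le_total T.y 0 with hy | hy
  · rw [abs_of_nonpos hy]; linarith
  · rw [abs_of_nonneg hy]
    rw [max_eq_left hy] at h2
    nlinarith [mul_pos T.hh (sub_pos.2 (lt_sg T.y)), sg_pos T.y]

lemma D2_o : (fun s => D2 T.h T.B T.x T.y s - T.b' * ph T.h s) =o[L0] ph T.h :=
  D2_est T.hh.le _ _ _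

lemma D2_O : D2 T.h T.B T.x T.y =O[L0] ph T.h := by
  have := T.D2_o.isBigO.add ((isBigO_refl (ph T.h) L0).const_mul_left T.b')
  simpa using this

lemma D1_O_of {g : ℝ → ℝ} (h : ∀ s, 0 ≤ s → D1 T.h T.B T.x T.y s ≤ g s) :
    D1 T.h T.B T.x T.y =O[L0] g := by
  refine IsBigO.of_bound 1 ?_
  filter_upwards [self_mem_nhdsWithin] with s hs
  rw [Real.norm_of_nonneg (D1_nonneg _ _ T.yx s), one_mul]
  exact (h s (le_of_lt hs)).trans (le_abs_self _)

lemma D1_O : D1 T.h T.B T.x T.y =O[L0] ph T.δ :=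
  (T.D1_O_of fun _ hs => D1_le_ph T.hh.le _ T.ux (le_max_left _ _) hs).trans
    ((isBigO_refl _ _).const_mul_left _)

lemma D1_o (h : T.y < T.x) {e : ℝ} (h0 : 0 ≤ e) (he : e ≤ T.δ) :
    D1 T.h T.B T.x T.y =o[L0] ph e :=
  (T.D1_O_of fun _ hs => (D1_le_th _ _ h _).trans
    (th_le_ps h T.ux (le_max_left _ _) hs _)).trans_isLittleO ((ps_o_ph h0 he).const_mul_left _)

lemma err_o_sq : T.err =o[L0] fun s => s ^ 2 :=
  ((T.D1_O.trans (ph_O _)).trans_isLittleO (php_o_sq T.δ0)).add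
    ((T.D2_O.trans (ph_O _)).trans_isLittleO (php_o_sq T.hh))

lemma err_o {e : ℝ} (h0 : 0 ≤ e) (h1 : e < T.h) (h2 : e < T.δ) : T.err =o[L0] ph e :=
  (T.D1_O.trans_isLittleO (ph_o_ph h0 h2)).add (T.D2_O.trans_isLittleO (ph_o_ph h0 h1))

lemma tall_o (h : T.δ < T.h) {e : ℝ} (h0 : 0 ≤ e) (he : e ≤ T.δ) : T.err =o[L0] ph e :=
  (T.D1_o (T.tall_lt h) h0 he).add (T.D2_O.trans_isLittleO (ph_o_ph h0 (he.trans_lt h)))

lemma flat_not_o (h : T.h ≤ T.δ) : ¬ T.err =o[L0] ph T.h := fun ho =>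
  not_le_o T.hh.le (T.b'_pos h) (ho.sub T.D2_o) (Eventually.of_forall fun s => by
    simp only [err]; linarith [D1_nonneg T.h T.B T.yx s])

lemma th_low (h : T.y < T.x) {η : ℝ} (hη : 0 < η) :
    ∃ c > 0, ∀ᶠ s in L0, c * ph (T.δ + η) s ≤ T.θ s := by
  have e := T.bδ
  rcases le_total T.y 0 with hy | hy
  · obtain ⟨c, hc, h1⟩ := D1_lower (B := T.B) T.hh h T.x0 hy hη
    rw [max_eq_right hy, sg_zero, mul_one] at e
    refine ⟨c, hc, h1.mono fun s hs => ?_⟩
    rw [← e]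
    exact hs.trans (D1_le_th _ _ h _)
  · have hx : 0 < T.x := hy.trans_lt h
    obtain ⟨c, hc, h1⟩ := D1_lower (B := T.δ + T.x) one_pos hx T.x0 le_rfl hη
    refine ⟨c, hc, ?_⟩
    filter_upwards [h1, self_mem_nhdsWithin] with s hs hs0
    have h2 := D1_le_th 1 (T.δ + T.x) hx s
    have h3 := th_polar h hy le_rfl T.δ hs0
    rw [show T.δ + T.x - (T.x - 0) * 1 = T.δ by ring] at hs h2
    rw [sg_zero, mul_one] at h3
    rw [θ, e, max_eq_left hy]
    linarith

lemma tall_approx (h : T.δ < T.h) : ∃ D, T.δ < D ∧ ∀ e, 0 ≤ e → e < D →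
    (fun s => T.err s - T.θ s) =o[L0] ph e := by
  obtain ⟨D, C, hD, h1⟩ := th_sub_D1 (T.tall_lt h) T.ux (le_max_left _ _) T.bδ h
  refine ⟨min D T.h, lt_min hD h, fun e h0 he => ?_⟩
  have k1 : (fun s => T.θ s - D1 T.h T.B T.x T.y s) =O[L0] fun s => C * ps D s := by
    refine IsBigO.of_bound 1 ?_
    filter_upwards [self_mem_nhdsWithin] with s hs
    rw [Real.norm_of_nonneg (show 0 ≤ T.θ s - D1 T.h T.B T.x T.y s from
      sub_nonneg.2 (D1_le_th _ _ (T.tall_lt h) _)), one_mul]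
    exact (h1 s (le_of_lt hs)).trans (le_abs_self _)
  have k2 := (T.D2_O.trans_isLittleO (ph_o_ph h0 (he.trans_le (min_le_right _ _)))).sub
    (k1.trans_isLittleO ((ps_o_ph h0 (he.le.trans (min_le_left _ _))).const_mul_left C))
  exact k2.congr_left fun s => by simp only [err]; ring

lemma tall_not_o (h : T.δ < T.h) {e : ℝ} (he : T.δ < e) : ¬ T.err =o[L0] ph e := by
  intro ho
  obtain ⟨D, hD, h1⟩ := T.tall_approx h
  have h0 := T.δ0
  have hη : 0 < (min D e - T.δ) / 2 := half_pos (sub_pos.2 (lt_min hD he))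
  obtain ⟨c, hc, h2⟩ := T.th_low (T.tall_lt h) hη
  have k1 : T.δ + (min D e - T.δ) / 2 < min D e := by linarith
  refine not_le_o (by linarith) hc ?_ h2
  have k2 := (ho.trans (ph_o_ph (by linarith) (k1.trans_le (min_le_right _ _)))).sub
    (h1 _ (by linarith) (k1.trans_le (min_le_left _ _)))
  exact k2.congr_left fun s => by ring

end Tz

structure Iso (T U : Tz) : Prop where
  A : T.h * T.m = U.h * U.m
  L : T.h * (sg T.x + sg T.y) + 2 * T.m = U.h * (sg U.x + sg U.y) + 2 * U.m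
  q : G T.x + G T.y = G U.x + G U.y
  e : T.err =ᶠ[L0] U.err

lemma iso_of {T U : Tz} (h : ∀ s, 0 < s → EE (ar T.h T.B T.x T.y s) = EE (ar U.h U.B U.x U.y s)) :
    Iso T U := by
  have k : ∀ s, 0 < s → (T.h * T.m - U.h * U.m) + (-(mw / 2 * (T.h * (sg T.x + sg T.y) + 2 * T.m)) -
      -(mw / 2 * (U.h * (sg U.x + sg U.y) + 2 * U.m))) * s + (G T.x + G T.y - (G U.x + G U.y)) *
      s ^ 2 = U.err s - T.err s := by
    intro s hs
    have := h s hs
    rw [EE_ar, EE_ar] at this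
    simp only [Tz.m, Tz.err]
    linarith
  obtain ⟨h1, h2, h3⟩ := poly_zero ((U.err_o_sq.sub T.err_o_sq).congr' (by
    filter_upwards [self_mem_nhdsWithin] with s hs using (k s hs).symm) EventuallyEq.rfl)
  refine ⟨by linarith, ?_, by linarith, ?_⟩
  · exact mul_left_cancel₀ (half_pos mw_pos).ne' (by linarith)
  · filter_upwards [self_mem_nhdsWithin] with s hs
    have := k s hs
    rw [h1, h2, h3] at this
    linarith

lemma Iso.symm {T U : Tz} (h : Iso T U) : Iso U T := ⟨h.A.symm, h.L.symm, h.q.symm, h.e.symm⟩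

lemma Iso.o {T U : Tz} (h : Iso T U) {g : ℝ → ℝ} (ho : U.err =o[L0] g) : T.err =o[L0] g :=
  ho.congr' h.e.symm EventuallyEq.rfl

lemma flat_tall {T U : Tz} (h : Iso T U) (hT : T.h ≤ T.δ) (hU : U.δ < U.h) : False := by
  rcases le_or_gt T.h U.δ with h1 | h1
  · exact T.flat_not_o hT (h.o (U.tall_o hU T.hh.le h1))
  · exact U.tall_not_o hU (e := (U.δ + T.h) / 2) (by linarith)
      (h.symm.o (T.err_o (by linarith [U.δ0]) (by linarith) (by linarith)))

lemma tall_gap {T U : Tz} (h : Iso T U) (hT : T.δ < T.h) (hU : U.δ < U.h) (hδ : T.δ = U.δ)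
    {a b : ℝ} (_ha : 0 ≤ a) (hab : a < b) (hθ : ∀ s, 0 < s → b * T.θ s ≤ a * U.θ s) : False := by
  obtain ⟨D, hD, h1⟩ := T.tall_approx hT
  obtain ⟨D', hD', h2⟩ := U.tall_approx hU
  have h0 := U.δ0
  have hη : 0 < (min D D' - U.δ) / 2 := half_pos (sub_pos.2 (lt_min (hδ ▸ hD) hD'))
  obtain ⟨c, hc, h3⟩ := U.th_low (U.tall_lt hU) hη
  have k1 : U.δ + (min D D' - U.δ) / 2 < min D D' := by linarith
  have k2 := ((h2 _ (by linarith) (k1.trans_le (min_le_right _ _))).sub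
    (h1 _ (by linarith) (k1.trans_le (min_le_left _ _)))).const_mul_left b
  refine not_le_o (by linarith) (mul_pos (sub_pos.2 hab) hc) k2.neg_left ?_
  filter_upwards [h3, h.e, self_mem_nhdsWithin] with s k3 k4 hs
  have := mul_le_mul_of_nonneg_left k3 (sub_pos.2 hab).le
  rw [k4]
  linarith [hθ s hs]

lemma tall_x {T U : Tz} (h : Iso T U) (hT : T.δ < T.h) (hU : U.δ < U.h) (hδ : T.δ = U.δ)
    (hx : T.x < U.x) : False := by
  have k0 : U.x + |U.y| < T.x + |T.y| := by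
    by_contra k
    have := G_lt hx T.xy (abs_nonneg _) (abs_nonneg U.y) (not_lt.1 k)
    rw [G_abs, G_abs] at this
    linarith [h.q]
  have eT := T.bδ
  have eU := U.bδ
  have lT := T.tall_lt hT
  have lU := U.tall_lt hU
  rcases le_total T.y 0 with hy | hy <;> rcases le_total U.y 0 with hy' | hy'
  · rw [max_eq_right hy, sg_zero, mul_one] at eT
    rw [max_eq_right hy', sg_zero, mul_one, ← hδ] at eU
    rw [abs_of_nonpos hy, abs_of_nonpos hy'] at k0
    refine tall_gap h hT hU hδ (a := U.x - U.y) (b := T.x - T.y) (by linarith) k0 fun s hs => ?_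
    have k1 := th_shear lT (by linarith [neg_le_abs T.y, T.xy]) (sub_pos.2 hx).le hs.le T.δ
    have k2 := th_mono lU le_rfl (y' := T.y + (U.x - T.x)) (by linarith) hs.le T.δ
    rw [add_sub_cancel] at k1
    rw [show U.x - (T.y + (U.x - T.x)) = T.x - T.y by ring] at k2
    rw [Tz.θ, Tz.θ, eT, eU]
    exact (mul_le_mul_of_nonneg_left k1 (sub_pos.2 lT).le).trans k2
  · rw [max_eq_right hy, sg_zero, mul_one] at eT
    rw [max_eq_left hy', ← hδ] at eU
    rw [abs_of_nonpos hy, abs_of_nonneg hy'] at k0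
    refine tall_gap h hT hU hδ (a := U.x) (b := T.x - T.y) U.x0 (by linarith) fun s hs => ?_
    have k1 := th_shear lT (by linarith [neg_le_abs T.y, T.xy]) (neg_nonneg.2 hy) hs.le T.δ
    have k2 := th_mono (x := U.x) (y := 0) (x' := T.x + -T.y) (y' := 0) (by linarith) (by linarith)
      le_rfl hs.le T.δ
    have k3 := th_polar lU hy' le_rfl T.δ hs
    rw [add_neg_cancel] at k1
    rw [sg_zero, mul_one] at k3
    rw [Tz.θ, Tz.θ, eT, eU]
    have k4 := mul_le_mul_of_nonneg_left k1 (sub_pos.2 lT).le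
    have k5 := mul_le_mul_of_nonneg_left k3 U.x0
    linarith
  · rw [max_eq_left hy] at eT
    rw [max_eq_right hy', sg_zero, mul_one, ← hδ] at eU
    refine tall_gap h.symm hU hT hδ.symm (a := T.x) (b := U.x - U.y) T.x0 (by linarith)
      fun s hs => ?_
    have k2 := th_mono (x := T.x) (y := 0) (by linarith) hx.le hy' hs.le T.δ
    have k3 := th_polar lT hy le_rfl T.δ hs
    rw [sg_zero, mul_one] at k3
    rw [Tz.θ, Tz.θ, eT, eU]
    have k5 := mul_le_mul_of_nonneg_left k3 T.x0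
    linarith
  · rw [max_eq_left hy] at eT
    rw [max_eq_left hy', ← hδ] at eU
    rw [abs_of_nonneg hy, abs_of_nonneg hy'] at k0
    refine tall_gap h.symm hU hT hδ.symm (a := T.x - T.y) (b := U.x - T.y) (by linarith)
      (by linarith) fun s hs => ?_
    have k2 := th_mono lT hx.le le_rfl hs.le (T.δ * sg T.y)
    have k3 := th_polar (x := U.x) (y1 := T.y) (by linarith) (by linarith) hy' T.δ hs
    rw [Tz.θ, Tz.θ, eT, eU]
    exact (mul_le_mul_of_nonneg_left k3 (by linarith)).trans k2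

lemma G_inj {u v : ℝ} (hu : 0 ≤ u) (hv : 0 ≤ v) (h : G u = G v) : u = v := by
  by_contra k
  rcases lt_or_gt_of_ne k with k | k
  · linarith [G_lt k le_rfl hu hu (by linarith)]
  · linarith [G_lt k le_rfl hv hv (by linarith)]

lemma tall_flip {T U : Tz} (h : Iso T U) (hT : T.δ < T.h) (hU : U.δ < U.h) (hδ : T.δ = U.δ)
    (hx : T.x = U.x) (hy : T.y < 0) (hy' : 0 ≤ U.y) : False := by
  have eT := T.bδ
  have eU := U.bδ
  have lU := U.tall_lt hU
  rw [max_eq_right hy.le, sg_zero, mul_one] at eT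
  rw [max_eq_left hy', ← hδ] at eU
  refine tall_gap h hT hU hδ (a := T.x) (b := T.x - T.y) T.x0 (by linarith) fun s hs => ?_
  have k2 := th_mono (x := T.x) (y := 0) (by linarith) le_rfl hy.le hs.le T.δ
  have k3 := th_polar lU hy' le_rfl T.δ hs
  rw [sg_zero, mul_one, ← hx] at k3
  rw [Tz.θ, Tz.θ, eT, eU, ← hx]
  have k5 := mul_le_mul_of_nonneg_left k3 T.x0
  linarith

lemma abs_cases' {a b : ℝ} (h : |a| = |b|) : a = b ∨ (a < 0 ∧ 0 < b ∧ a = -b) ∨
    (b < 0 ∧ 0 < a ∧ b = -a) := by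
  rcases abs_eq_abs.1 h with h | h
  · exact Or.inl h
  rcases lt_trichotomy b 0 with k | k | k
  · exact Or.inr (Or.inr ⟨k, by linarith, by linarith⟩)
  · exact Or.inl (by linarith)
  · exact Or.inr (Or.inl ⟨by linarith, k, h⟩)

lemma tall_tall {T U : Tz} (h : Iso T U) (hT : T.δ < T.h) (hU : U.δ < U.h) :
    T.h = U.h ∧ T.B = U.B ∧ T.x = U.x ∧ T.y = U.y := by
  have hδ : T.δ = U.δ := by
    by_contra k
    rcases lt_or_gt_of_ne k with k | k
    · exact T.tall_not_o hT k (h.o (U.tall_o hU U.δ0.le le_rfl))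
    · exact U.tall_not_o hU k (h.symm.o (T.tall_o hT T.δ0.le le_rfl))
  have hx : T.x = U.x := by
    by_contra k
    rcases lt_or_gt_of_ne k with k | k
    · exact tall_x h hT hU hδ k
    · exact tall_x h.symm hU hT hδ.symm k
  have hy : T.y = U.y := by
    have := h.q
    rw [hx, ← G_abs T.y, ← G_abs U.y] at this
    rcases abs_cases' (G_inj (abs_nonneg _) (abs_nonneg _) (add_left_cancel this)) with k | k | k
    · exact k
    · exact (tall_flip h hT hU hδ hx k.1 k.2.1.le).elim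
    · exact (tall_flip h.symm hU hT hδ.symm hx.symm k.1 k.2.1.le).elim
  have eT := T.bδ
  have eU := U.bδ
  have hA := h.A
  have lT := sub_pos.2 (T.tall_lt hT)
  have hb := T.hb
  simp only [Tz.m] at hA
  rw [← hx, ← hy] at hA
  rw [← hx, ← hy, ← hδ, ← eT] at eU
  have hh : T.h = U.h := by
    have k : (T.h - U.h) * (T.B - (T.x - T.y) * T.h + (T.x - T.y) * (T.h + U.h) / 2) = 0 := by
      linear_combination hA + U.h * eU
    have := T.hh
    have := U.hh
    exact sub_eq_zero.1 ((mul_eq_zero.1 k).resolve_right (by positivity))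
  exact ⟨hh, by rw [hh] at eU; linarith, hx, hy⟩

lemma rhombus {U : Tz} (hU : U.h ≤ U.δ) (hm : 2 * U.m = U.h * (sg U.x + sg U.y)) : U.x = U.y := by
  have eU := U.bδ
  have hh := U.hh
  have k0 : U.h * sg (max U.y 0) ≤ U.B - (U.x - U.y) * U.h := by
    rw [eU]; exact mul_le_mul_of_nonneg_right hU (sg_pos _).le
  simp only [Tz.m] at hm
  by_contra k
  have lt := U.yx.lt_of_ne (Ne.symm k)
  rcases le_total U.y 0 with hy | hy
  · rw [max_eq_right hy, sg_zero] at k0
    have k1 := sg_gap (show (0 : ℝ) < U.x by linarith [U.xy, neg_le_abs U.y, lt])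
    have k2 : sg U.y + U.y ≤ 1 := by
      rcases hy.eq_or_lt with e | e
      · rw [e, sg_zero]; simp
      · have := sg_gap (neg_pos.2 e)
        rw [sg_zero, show sg (-U.y) = sg U.y by simp [sg]] at this
        linarith
    rw [sg_zero] at k1
    nlinarith
  · rw [max_eq_left hy] at k0
    nlinarith [sg_gap lt]

lemma flat_flip {T U : Tz} (h : Iso T U) (hh : T.h = U.h) (hm : T.m = U.m) (hx : T.x = U.x)
    (hy : 0 < U.y) (hy' : T.y = -U.y) : False := by
  have e2 : ∀ s, D2 T.h T.B T.x T.y s = D2 U.h U.B U.x U.y s := by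
    intro s
    have k1 : EE (fun σ => max (s * σ.W2 - U.h) 0 *
        (σ.f 1 U.y - U.y / 2 * (σ.f 0 1 - σ.f 0 (-1)))) = EE fun σ => max (s * σ.W2 - U.h) 0 *
        (σ.f 1 (-U.y) + U.y / 2 * (σ.f 0 1 - σ.f 0 (-1))) :=
      EE_rot (p := 1) (q := 0) (r := 0) (t := -1) (by norm_num) (by norm_num) (by norm_num)
        fun σ => by simp [S.rot, S.W2, add_comm]; ring_nf; simp
    have k2 : ∀ V : Tz, D2 V.h V.B V.x V.y s = EE (fun σ => max (s * σ.W2 - V.h) 0 *
        (V.m - s * (σ.f (-1) V.x - V.x / 2 * (σ.f 0 1 - σ.f 0 (-1))))) - s * EE fun σ =>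
        max (s * σ.W2 - V.h) 0 * (σ.f 1 (-V.y) + V.y / 2 * (σ.f 0 1 - σ.f 0 (-1))) := by
      intro V
      rw [← EE_mul _ (by fun_prop), ← EE_sub (by fun_prop) (by fun_prop), D2]
      congr 1; ext σ
      simp only [wb, Tz.m, S.W2]; ring
    rw [k2 T, k2 U, hh, hm, hx, hy', neg_neg, ← k1]
    congr 3; ext σ; ring
  have hb := T.hb
  simp only [Tz.m] at hm
  rw [hh, hx, hy'] at hm hb
  have e3 : U.B - U.x * U.h = T.B - (T.x - T.y) * T.h := by rw [hh, hx, hy']; linarith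
  have hb' : 0 < U.B - U.x * U.h := by rw [e3]; exact T.hb
  obtain ⟨D, C, hD, h1⟩ := D1_flip (B := U.B) U.hh U.yx hy hb'
  obtain ⟨c, hc, h2⟩ := D1_lower (B := T.B) T.hh (x := T.x) (y := T.y)
    (by linarith [T.x0]) T.x0 (by linarith) (half_pos (sub_pos.2 hD))
  rw [← e3] at h2
  refine not_le_o (h := U.B - U.x * U.h + (D - (U.B - U.x * U.h)) / 2) (by linarith) hc
    (f := D1 U.h U.B U.x U.y) ((U.D1_O_of h1).trans_isLittleO
    ((ph_o_ph (by linarith) (by linarith)).const_mul_left C)) ?_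
  filter_upwards [h2, h.e] with s k1 k2
  simp only [Tz.err, e2] at k2
  linarith

lemma flat_flat {T U : Tz} (h : Iso T U) (hT : T.h ≤ T.δ) (hU : U.h ≤ U.δ) :
    T.h = U.h ∧ T.B = U.B ∧ T.x = U.x ∧ T.y = U.y := by
  have hh : T.h = U.h := by
    by_contra k
    rcases lt_or_gt_of_ne k with k | k
    · exact T.flat_not_o hT (h.o (U.err_o T.hh.le k (k.trans_le hU)))
    · exact U.flat_not_o hU (h.symm.o (T.err_o U.hh.le k (k.trans_le hT)))
  have hm : T.m = U.m := mul_left_cancel₀ U.hh.ne' (by rw [← h.A, hh])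
  have hs : sg T.x + sg T.y = sg U.x + sg U.y :=
    mul_left_cancel₀ U.hh.ne' (by have := h.L; rw [hh, hm] at this; linarith)
  suffices T.x = U.x ∧ T.y = U.y by
    refine ⟨hh, ?_, this⟩
    simp only [Tz.m] at hm
    rw [hh, this.1, this.2] at hm
    linarith
  by_cases hr : 2 * T.m = T.h * (sg T.x + sg T.y)
  · have k1 := rhombus hT hr
    have k2 := rhombus hU (by rw [← hm, ← hh, ← hs]; exact hr)
    have k3 : T.x = U.x := sg_inj T.x0 U.x0 (by rw [← k1, ← k2] at hs; linarith)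
    exact ⟨k3, by rw [← k1, ← k2, k3]⟩
  have key : ∀ V : Tz, V.h ≤ V.δ → 2 * V.m ≠ V.h * (sg V.x + sg V.y) →
      (fun s => V.err s - V.b' * ph V.h s) =o[L0] ph V.h := by
    intro V hV hr
    have k : D1 V.h V.B V.x V.y =o[L0] ph V.h := by
      rcases V.yx.eq_or_lt with e | e
      · refine V.D1_O.trans_isLittleO (ph_o_ph V.hh.le (hV.lt_of_ne fun k => hr ?_))
        have := V.bδ
        rw [max_eq_left (e ▸ V.x0), ← k, e] at this
        rw [Tz.m, e]; linarith
      · exact V.D1_o e V.hh.le hV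
    exact (k.add V.D2_o).congr_left fun s => by simp only [Tz.err]; ring
  have k1 := key T hT hr
  have k2 := key U hU (by rw [← hm, ← hh, ← hs]; exact hr)
  rw [← hh] at k2
  have hb : T.b' = U.b' := by
    by_contra k
    rcases lt_or_gt_of_ne k with k | k
    · refine not_le_o T.hh.le (sub_pos.2 k) (k1.sub k2) ?_
      filter_upwards [h.e] with s e
      rw [e]; linarith
    · refine not_le_o T.hh.le (sub_pos.2 k) (k2.sub k1) ?_
      filter_upwards [h.e] with s e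
      rw [e]; linarith
  have hsum : T.x + |T.y| = U.x + |U.y| := by
    simp only [Tz.b', Tz.m, abs_of_nonneg T.x0, abs_of_nonneg U.x0] at hb hm
    rw [hh] at hb hm
    exact mul_right_cancel₀ U.hh.ne' (by linarith)
  have hx : T.x = U.x := by
    rw [← sg_abs T.y, ← sg_abs U.y] at hs
    by_contra k
    rcases lt_or_gt_of_ne k with k | k
    · linarith [sg_pair T.xy k hsum]
    · linarith [sg_pair U.xy k hsum.symm]
  refine ⟨hx, ?_⟩
  rcases abs_cases' (show |T.y| = |U.y| by linarith) with k | k | k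
  · exact k
  · exact (flat_flip h hh hm hx k.2.1 k.2.2).elim
  · exact (flat_flip h.symm hh.symm hm.symm hx.symm k.2.1 k.2.2).elim

theorem tz_eq {T U : Tz}
    (h : ∀ s, 0 < s → EE (ar T.h T.B T.x T.y s) = EE (ar U.h U.B U.x U.y s)) :
    T.h = U.h ∧ T.B = U.B ∧ T.x = U.x ∧ T.y = U.y := by
  have hi := iso_of h
  rcases le_or_gt T.h T.δ with hT | hT <;> rcases le_or_gt U.h U.δ with hU | hU
  · exact flat_flat hi hT hU
  · exact (flat_tall hi hT hU).elim
  · exact (flat_tall hi.symm hU hT).elim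
  · exact tall_tall hi hT hU

end Pool.Agent.Lib.MP_2d4879_an
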