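import Pool.Agent.Lib.MP_2d4879_an.Adm

namespace Pool.Agent.Lib.MP_2d4879_an

open MeasureTheory Real Filter Topology
open scoped InnerProductSpace ENNReal Pointwise

structure Dom (D : Set E) : Prop where
  isOpen : IsOpen D
  conv : Convex ℝ D
  bdd : Bornology.IsBounded D
  ne : D.Nonempty

lemma Dom.fin {D : Set E} (hD : Dom D) : IsFiniteMeasure (volume.restrict D) :=
  ⟨by simpa using hD.bdd.measure_lt_top⟩

noncomputable def tr (D : Set E) (h : ℝ) (m : ℕ) : ℝ :=
  ∫ x in D, pw (volume.restrict D) (fun x y => pk h (x - y)) m x x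

lemma pw_le {D : Set E} {h : ℝ} (hh : 0 < h) (m : ℕ) : ∀ x y,
    0 ≤ pw (volume.restrict D) (fun x y => pk h (x - y)) m x y ∧
    pw (volume.restrict D) (fun x y => pk h (x - y)) m x y ≤ pk ((m + 1) * h) (x - y) := by
  induction m with
  | zero => intro x y; simpa [pw] using (pk_pos hh _).le
  | succ m ih =>
    intro x y
    have hm : 0 < ((m : ℝ) + 1) * h := by positivity
    refine ⟨integral_nonneg fun z => mul_nonneg (pk_pos hh _).le (ih z y).1, ?_⟩
    calc _ ≤ ∫ z in D, pk h (x - z) * pk ((m + 1) * h) (z - y) :=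
          integral_mono_of_nonneg (Eventually.of_forall fun z =>
            mul_nonneg (pk_pos hh _).le (ih z y).1) (pk_ck_int hh hm x y).integrableOn
            (Eventually.of_forall fun z => mul_le_mul_of_nonneg_left (ih z y).2 (pk_pos hh _).le)
      _ ≤ ∫ z, pk h (x - z) * pk ((m + 1) * h) (z - y) :=
          setIntegral_le_integral (pk_ck_int hh hm x y) (Eventually.of_forall fun z =>
            (mul_pos (pk_pos hh _) (pk_pos hm _)).le)
      _ = _ := by rw [pk_ck hh hm]; congr 1; push_cast; ring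

lemma tr_le {D : Set E} (hD : Dom D) {h : ℝ} (hh : 0 < h) (m : ℕ) :
    tr D h m ≤ (4 * π * ((m + 1) * h))⁻¹ * volume.real D := by
  have := hD.fin
  have h1 := norm_integral_le_of_norm_le_const (μ := volume.restrict D)
    (f := fun x => pw (volume.restrict D) (fun x y => pk h (x - y)) m x x)
    (C := (4 * π * ((m + 1) * h))⁻¹) (Eventually.of_forall fun x => by
      rw [Real.norm_of_nonneg (pw_le hh m x x).1]
      exact (pw_le hh m x x).2.trans (pk_le (by positivity) _))
  simpa [tr] using (le_abs_self _).trans h1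

lemma adm_swap {D D' : Set E} (hD : Dom D) (hD' : Dom D') {k : ℕ} (hk : 0 < k)
    (he : sInf (adm D k) = sInf (adm D' k)) {r η : ℝ} (hη : 0 < η) (hr : r ∈ adm D k) :
    r + η ∈ adm D' k := by
  have hne : (adm D' k).Nonempty := by
    obtain ⟨x0, hx0⟩ := hD'.ne
    obtain ⟨r0, hr0, hb⟩ := Metric.isOpen_iff.1 hD'.isOpen x0 hx0
    obtain ⟨R, hR0, hR⟩ := hD.bdd.subset_ball_lt 0 0
    refine ⟨_, adm_transfer (l := R / r0) (by positivity) (-((R / r0) • x0)) (fun y hy => hb ?_) hr⟩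
    have := hR hy
    rw [mem_ball_zero_iff, ← sub_eq_add_neg, ← smul_sub, norm_smul,
      Real.norm_of_nonneg (by positivity), div_mul_eq_mul_div, div_lt_iff₀ hr0] at this
    rw [mem_ball_iff_norm]
    exact lt_of_mul_lt_mul_left this hR0.le
  have h1 : sInf (adm D' k) < r + η := by
    rw [← he]
    exact lt_of_le_of_lt (csInf_le ⟨0, fun s hs => adm_nonneg hk hs⟩ hr) (by linarith)
  obtain ⟨s, hs, hs'⟩ := exists_lt_of_csInf_lt hne h1
  exact adm_mono hs'.le hs

theorem count_transfer {D D' : Set E} (hD : Dom D) (hD' : Dom D')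
    [IsFiniteMeasure (volume.restrict D)] [IsFiniteMeasure (volume.restrict D')]
    (he : ∀ k, 0 < k → sInf (adm D k) = sInf (adm D' k)) {R θ : ℝ} (hR : 0 < R) (hθ : 0 < θ) :
    ∃ h0 > 0, ∀ h, ∀ hh : 0 < h, h ≤ h0 → ∀ (ι : Type)
      (b : HilbertBasis ι ℝ (Lp ℝ 2 (volume.restrict D))) (ev : ι → ℝ),
      (∀ i, (gk_pk hh).op _ (b i) = ev i • b i) → ∀ (κ : Type)
      (b' : HilbertBasis κ ℝ (Lp ℝ 2 (volume.restrict D'))) (ev' : κ → ℝ),
      (∀ i, (gk_pk hh).op _ (b' i) = ev' i • b' i) → ∀ (I : Finset ι) (a : ℝ), 1 - h * R ≤ a →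
      (∀ i ∈ I, a ≤ ev i) → I.Nonempty →
      ∃ J : Finset κ, J.card = I.card ∧ ∀ j ∈ J, a - h * θ ≤ ev' j := by
  obtain ⟨x0, hx0⟩ := hD.ne
  obtain ⟨r0, hr0, hb⟩ := Metric.isOpen_iff.1 hD.isOpen x0 hx0
  set η := min 1 (θ / (21 * R)) with hη
  have hη0 : 0 < η := by positivity
  have hη1 : η ≤ 1 := min_le_left _ _
  have hη2 : η * (21 * R) ≤ θ := (le_div_iff₀ (by positivity)).1 (min_le_right _ _)
  set ε := η / 40 with hε
  have hε0 : 0 < ε := by positivity
  have hε1 : ε ≤ 1 / 4 := by linarith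
  have hl : 0 < -log ε := neg_pos.2 (log_neg hε0 (by linarith))
  refine ⟨min (ε ^ 2 / (2 * R)) ((η * r0) ^ 2 / (16 * -log ε)), by positivity,
    fun h hh hh0 ι b ev hb1 κ b' ev' hb2 I a ha hI hne => ?_⟩
  have k1 : h * (2 * R) ≤ ε ^ 2 := (le_div_iff₀ (by positivity)).1 (hh0.trans (min_le_left _ _))
  have k2 : h * (16 * -log ε) ≤ (η * r0) ^ 2 :=
    (le_div_iff₀ (by positivity)).1 (hh0.trans (min_le_right _ _))
  have ha1 : a ≤ 1 := by
    obtain ⟨i, hi⟩ := hne
    exact (hI i hi).trans (ev_nonneg hD.isOpen.measurableSet hh (b.orthonormal.1 i) (hb1 i)).2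
  have k3 : 2 / ε * (1 - a) ≤ ε := by
    rw [div_mul_eq_mul_div, div_le_iff₀ hε0]; nlinarith
  have k4 : 0 ≤ (1 - a) / h := div_nonneg (by linarith) hh.le
  have k5 : (1 - a) / h ≤ R := by rw [div_le_iff₀ hh]; linarith
  have h1 := adm_of_count hD.isOpen.measurableSet hD.bdd hh b ev hb1 I
    (r := (1 - a) / h * (1 + η)) hI hε0 hε1 (by positivity) (by linarith)
    (by
      rw [mul_assoc]
      refine le_mul_of_one_le_right k4 ?_
      have : 1 - η / 4 ≤ 1 - 9 * ε - 2 / ε * (1 - a) := by linarith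
      nlinarith)
    (Ω := {x | ∃ y ∈ D, x = (1 + η) • y + -(η • x0)}) (fun x hx z hz => by
      have hz' : ‖z‖ < η * r0 := by
        refine lt_of_le_of_lt hz (sqrt_lt' (by positivity) |>.2 ?_)
        nlinarith [mul_pos hh hl]
      have h2 : x0 + η⁻¹ • z ∈ interior D := by
        rw [hD.isOpen.interior_eq]
        refine hb ?_
        rw [mem_ball_iff_norm, add_sub_cancel_left, norm_smul, Real.norm_of_nonneg (by positivity),
          inv_mul_lt_iff₀ hη0]
        exact hz'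
      have h3 := hD.conv.combo_closure_interior_mem_interior hx h2 (a := (1 + η)⁻¹)
        (b := η / (1 + η)) (by positivity) (by positivity) (by field_simp)
      refine ⟨_, interior_subset h3, ?_⟩
      ext i
      simp only [PiLp.add_apply, PiLp.smul_apply, PiLp.neg_apply, smul_eq_mul]
      field_simp
      ring)
  have h2 := adm_transfer (Ω' := D) (l := 1 + η) (by positivity) (-(η • x0)) (by
    rintro y ⟨w, hw, h3⟩
    rwa [smul_right_injective E (by positivity : (1 + η) ≠ 0) (add_right_cancel h3)]) h1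
  have hk := Finset.card_pos.2 hne
  have h3 := adm_swap hD hD' hk (he _ hk) (η := θ / 3) (by positivity) h2
  refine count_of_adm hh b' ev' hb2 hk h3 ?_
  have e : h * ((1 + η) ^ 2 * ((1 - a) / h * (1 + η)) + θ / 3) =
      (1 - a) + h * (((1 + η) ^ 3 - 1) * ((1 - a) / h) + θ / 3) := by field_simp; ring
  have h4 : ((1 + η) ^ 3 - 1) * ((1 - a) / h) ≤ 7 * η * R := by
    gcongr
    nlinarith [sq_nonneg η, mul_le_mul hη1 hη1 hη0.le zero_le_one, pow_le_one₀ hη0.le hη1 (n := 3)]
  rw [e]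
  nlinarith

theorem trace_cmp {D D' : Set E} (hD : Dom D) (hD' : Dom D')
    (he : ∀ k, 0 < k → sInf (adm D k) = sInf (adm D' k)) {t δ : ℝ} (ht : 0 < t) (hδ : 0 < δ) :
    ∀ᶠ j : ℕ in atTop, tr D (t / (4 * j + 4)) (4 * j + 3) ≤
      tr D' (t / (4 * j + 4)) (4 * j + 3) + δ := by
  have := hD.fin
  have := hD'.fin
  have : Fact ((2 : ℝ≥0∞) ≠ ∞) := ⟨by simp⟩
  set C := (2 * π * t)⁻¹ * volume.real D + 1 with hC
  have hC0 : 0 < C := by positivity
  obtain ⟨R, hR, hR'⟩ : ∃ R > 0, exp (-(t * R / 2)) * C ≤ δ / 2 := by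
    refine ⟨4 * C / (t * δ), by positivity, ?_⟩
    have h1 : t * (4 * C / (t * δ)) / 2 = 2 * C / δ := by field_simp; ring
    have h2 := add_one_le_exp (2 * C / δ)
    rw [h1, exp_neg, inv_mul_le_iff₀ (exp_pos _)]
    have : 2 * C / δ * (δ / 2) = C := by field_simp
    nlinarith
  set e := min 1 (δ / (2 * C)) with he'
  have he0 : 0 < e := by positivity
  have he1 : e ≤ 1 := min_le_left _ _
  have he2 : e * (2 * C) ≤ δ := (le_div_iff₀ (by positivity)).1 (min_le_right _ _)
  obtain ⟨h0, hh0, hc⟩ := count_transfer hD hD' he hR (θ := e / (2 * t)) (by positivity)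
  have hlim : Tendsto (fun j : ℕ => t / (4 * j + 4)) atTop (𝓝 0) :=
    tendsto_const_nhds.div_atTop (tendsto_atTop_add_const_right _ _
      (tendsto_natCast_atTop_atTop.const_mul_atTop (by norm_num)))
  filter_upwards [hlim.eventually (ge_mem_nhds hh0),
    hlim.eventually (ge_mem_nhds (show 0 < 1 / (2 * R) by positivity))] with j hj1 hj2
  set h := t / (4 * j + 4) with hh'
  have hh : 0 < h := by positivity
  have hN : (4 * j + 4) * h = t := by rw [hh']; field_simp
  have hR2 : h * (2 * R) ≤ 1 := (le_div_iff₀ (by positivity)).1 hj2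
  obtain ⟨ι, b, ev, hb, hs⟩ := ker_spec (μ := volume.restrict D) (gk_pk hh)
    fun x y => pk_sub_comm h x y
  obtain ⟨κ, b', ev', hb', hs'⟩ := ker_spec (μ := volume.restrict D') (gk_pk hh)
    fun x y => pk_sub_comm h x y
  have s1 : HasSum (fun i => ev i ^ (4 * j + 4)) (tr D h (4 * j + 3)) := by
    have := hs (2 * j + 1)
    rwa [show 2 * (2 * j + 1) + 2 = 4 * j + 4 by ring,
      show 2 * (2 * j + 1) + 1 = 4 * j + 3 by ring] at this
  have s2 : HasSum (fun i => ev' i ^ (4 * j + 4)) (tr D' h (4 * j + 3)) := by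
    have := hs' (2 * j + 1)
    rwa [show 2 * (2 * j + 1) + 2 = 4 * j + 4 by ring,
      show 2 * (2 * j + 1) + 1 = 4 * j + 3 by ring] at this
  have s3 : HasSum (fun i => ev i ^ (2 * j + 2)) (tr D h (2 * j + 1)) := hs j
  have b1 : tr D h (4 * j + 3) ≤ C := by
    refine (tr_le hD hh _).trans ?_
    have : ((4 * j + 3 : ℕ) + 1 : ℝ) * h = t := by rw [← hN]; push_cast; ring
    rw [this, hC]
    have : (4 * π * t)⁻¹ ≤ (2 * π * t)⁻¹ := by gcongr; norm_num
    nlinarith [measureReal_nonneg (μ := volume) (s := D)]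
  have b2 : tr D h (2 * j + 1) ≤ C := by
    refine (tr_le hD hh _).trans ?_
    have : 4 * π * (((2 * j + 1 : ℕ) + 1 : ℝ) * h) = 2 * π * t := by rw [← hN]; push_cast; ring
    rw [this, hC]; linarith
  have ev0 : ∀ i, 0 ≤ ev i := fun i =>
    (ev_nonneg hD.isOpen.measurableSet hh (b.orthonormal.1 i) (hb i)).1
  have ev0' : ∀ i, 0 ≤ ev' i := fun i =>
    (ev_nonneg hD'.isOpen.measurableSet hh (b'.orthonormal.1 i) (hb' i)).1
  refine le_of_tendsto' s1 fun F => ?_
  classical
  rw [← Finset.sum_filter_add_sum_filter_not F (fun i => 1 - h * R ≤ ev i)]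
  obtain ⟨J, -, hJ⟩ := sum_le_of_count ev ev' (1 - h * R) (fun a => a - h * (e / (2 * t)))
    (fun a => (1 - e) * a ^ (4 * j + 4)) (fun a => a ^ (4 * j + 4))
    (hc h hh hj1 ι b ev hb κ b' ev' hb') (fun i v hi hv => by
      have h1 : 1 / 2 ≤ ev i := by linarith
      have h2 : ((4 * j + 4 : ℕ) : ℝ) * (2 * (h * (e / (2 * t)))) = e := by
        push_cast; rw [← hN]; field_simp
      have h3 : 0 ≤ h * (e / (2 * t)) := by positivity
      have h4 : 2 * (h * (e / (2 * t))) ≤ 1 := by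
        have : (1 : ℝ) ≤ ((4 * j + 4 : ℕ) : ℝ) := by exact_mod_cast (by omega)
        nlinarith
      have h5 := one_add_mul_le_pow (a := -(2 * (h * (e / (2 * t))))) (by linarith) (4 * j + 4)
      rw [mul_neg, h2] at h5
      calc _ ≤ (1 + -(2 * (h * (e / (2 * t))))) ^ (4 * j + 4) * ev i ^ (4 * j + 4) := by
            have := ev0 i
            gcongr; linarith
        _ ≤ _ := by
            rw [← mul_pow]
            gcongr
            · nlinarith
            · nlinarith)
    (F.filter fun i => 1 - h * R ≤ ev i) (fun i hi => (Finset.mem_filter.1 hi).2)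
  have c1 := sum_le_hasSum J (fun i _ => pow_nonneg (ev0' i) _) s2
  have c2 := sum_le_hasSum (F.filter fun i => 1 - h * R ≤ ev i)
    (fun i _ => pow_nonneg (ev0 i) _) s1
  have c3 := sum_le_hasSum (F.filter fun i => ¬ 1 - h * R ≤ ev i)
    (fun i _ => pow_nonneg (ev0 i) _) s3
  have c4 : ∑ i ∈ F.filter fun i => ¬ 1 - h * R ≤ ev i, ev i ^ (4 * j + 4) ≤
      exp (-(t * R / 2)) * ∑ i ∈ F.filter fun i => ¬ 1 - h * R ≤ ev i, ev i ^ (2 * j + 2) := by
    rw [Finset.mul_sum]
    refine Finset.sum_le_sum fun i hi => ?_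
    have h1 := not_le.1 (Finset.mem_filter.1 hi).2
    have h2 : ev i ≤ exp (-(h * R)) := by linarith [add_one_le_exp (-(h * R))]
    have h3 : ev i ^ (2 * j + 2) ≤ exp (-(t * R / 2)) := by
      refine (pow_le_pow_left₀ (ev0 i) h2 _).trans (le_of_eq ?_)
      rw [← exp_nat_mul, ← hN]; congr 1; push_cast; ring
    rw [show 4 * j + 4 = (2 * j + 2) + (2 * j + 2) by ring, pow_add]
    exact mul_le_mul_of_nonneg_right h3 (pow_nonneg (ev0 i) _)
  rw [← Finset.mul_sum] at hJ
  have c5 := mul_le_mul_of_nonneg_left (c3.trans b2) (exp_pos (-(t * R / 2))).le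
  have c6 := mul_le_mul_of_nonneg_left (c2.trans b1) he0.le
  linarith

theorem trace_lim {D D' : Set E} (hD : Dom D) (hD' : Dom D')
    (he : ∀ k, 0 < k → sInf (adm D k) = sInf (adm D' k)) {t : ℝ} (ht : 0 < t) :
    Tendsto (fun j : ℕ => tr D (t / (4 * j + 4)) (4 * j + 3) -
      tr D' (t / (4 * j + 4)) (4 * j + 3)) atTop (𝓝 0) := by
  rw [Metric.tendsto_nhds]
  intro ε hε
  filter_upwards [trace_cmp hD hD' he ht (half_pos hε),
    trace_cmp hD' hD (fun k hk => (he k hk).symm) ht (half_pos hε)] with j h1 h2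
  rw [Real.dist_0_eq_abs, abs_lt]
  constructor <;> linarith

end Pool.Agent.Lib.MP_2d4879_an
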