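import Pool.Agent.Lib.MP_2d4879_an.Area

namespace Pool.Agent.Lib.MP_2d4879_an

open Real Filter Topology Set Asymptotics

noncomputable def e1 (κ w H : ℝ) : ℝ := Jk κ w H - max H 0 * (w - κ * max H 0 / 2)

lemma pos_sq_add (x : ℝ) : max x 0 ^ 2 = x ^ 2 - max (-x) 0 ^ 2 := by
  rcases le_total x 0 with h | h
  · rw [max_eq_right h, max_eq_left (by linarith)]; ring
  · rw [max_eq_left h, max_eq_right (by linarith)]; ring

lemma e1_zero (w H : ℝ) : e1 0 w H = max H 0 * max (-w) 0 := by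
  rw [e1, Jk, if_pos rfl]
  rcases le_total w 0 with h | h
  · rw [max_eq_right h, max_eq_left (a := -w) (by linarith)]; ring
  · rw [max_eq_left h, max_eq_right (a := -w) (by linarith)]; ring

lemma e1_pos {κ : ℝ} (hk : 0 < κ) (w H : ℝ) :
    e1 κ w H = (max (κ * max H 0 - w) 0 ^ 2 - max (-w) 0 ^ 2) / (2 * κ) := by
  rw [e1, Jk, if_neg hk.ne', pos_sq_add w, pos_sq_add (w - _), neg_sub]
  field_simp; ring

lemma e1_nonneg {κ : ℝ} (hk : 0 ≤ κ) (w H : ℝ) : 0 ≤ e1 κ w H := by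
  rcases hk.eq_or_lt with rfl | hk
  · rw [e1_zero]; positivity
  · rw [e1_pos hk]
    refine div_nonneg (sub_nonneg.2 (pow_le_pow_left₀ (le_max_right _ _)
      (max_le_max ?_ le_rfl) 2)) (by positivity)
    linarith [mul_nonneg hk.le (le_max_right H 0)]

lemma e1_le {κ : ℝ} (hk : 0 ≤ κ) (w H : ℝ) : e1 κ w H ≤ max H 0 * max (κ * H - w) 0 := by
  rcases hk.eq_or_lt with rfl | hk
  · rw [e1_zero]; simp
  rw [e1_pos hk, div_le_iff₀ (by positivity)]
  rcases le_total H 0 with h | h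
  · simp [max_eq_right h]
  rw [max_eq_left h]
  have := mul_nonneg hk.le h
  rcases le_total (κ * H - w) 0 with h1 | h1
  · rw [max_eq_right h1]; nlinarith [sq_nonneg (max (-w) 0)]
  rw [max_eq_left h1]
  rcases le_total (-w) 0 with h2 | h2
  · rw [max_eq_right h2]; nlinarith
  · rw [max_eq_left h2]; nlinarith

lemma e1_le_sq {κ : ℝ} (hk : 0 < κ) (w H : ℝ) : e1 κ w H ≤ max (κ * H - w) 0 ^ 2 / (2 * κ) := by
  rw [e1_pos hk]
  rcases le_total H 0 with h | h
  · simp only [max_eq_right h, mul_zero, zero_sub, sub_self, zero_div]; positivity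
  · rw [max_eq_left h]; gcongr; linarith [sq_nonneg (max (-w) 0)]

lemma sq_le_e1 {κ : ℝ} (hk : 0 < κ) (w H : ℝ) :
    max (κ * H - w) 0 ^ 2 / (2 * κ) - max (-w) 0 ^ 2 / (2 * κ) ≤ e1 κ w H := by
  rw [e1_pos hk, ← sub_div]
  gcongr
  exact le_max_left _ _

lemma e1_lower {κ η h : ℝ} (hk : 0 < κ) (hη : 0 < η) (hh : 0 < h) {w H : ℝ} (hH : h ≤ H) :
    min (η / (2 * κ)) (h / 2) * max (κ * H - w - η) 0 ≤ e1 κ w H := by
  rcases le_total (κ * H - w - η) 0 with h1 | h1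
  · rw [max_eq_right h1, mul_zero]; exact e1_nonneg hk.le _ _
  rw [max_eq_left h1, e1_pos hk, max_eq_left (a := H) (by linarith),
    max_eq_left (a := κ * H - w) (by linarith)]
  rcases le_total (-w) 0 with h2 | h2
  · refine (mul_le_mul_of_nonneg_right (min_le_left _ _) h1).trans ?_
    rw [max_eq_right h2, div_mul_eq_mul_div]
    gcongr; nlinarith
  · refine (mul_le_mul_of_nonneg_right (min_le_right _ _) h1).trans ?_
    rw [max_eq_left h2, le_div_iff₀ (by positivity)]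
    have : h * (κ * H - w - η) ≤ H * (κ * H - w - η) := by gcongr
    have h3 : 0 ≤ κ * H * (-w + η) := by
      have : 0 ≤ H := by linarith
      positivity
    nlinarith

@[fun_prop] lemma Good.e1 (κ : ℝ) {Φ Ψ : S → ℝ} (h1 : Good Φ) (h2 : Good Ψ) :
    Good fun σ => e1 κ (Φ σ) (Ψ σ) := by
  unfold MP_2d4879_an.e1; fun_prop

noncomputable def D1 (h B x y s : ℝ) : ℝ := EE fun σ => e1 (x - y) (wb B x y s σ) (h - s * σ.W2)

noncomputable def D2 (h B x y s : ℝ) : ℝ :=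
  EE fun σ => max (s * σ.W2 - h) 0 * (wb B x y s σ - (x - y) * (h - s * σ.W2) / 2)

noncomputable def G (x : ℝ) : ℝ := EE fun σ => σ.W2 * σ.f (-1) x

lemma EE_f10 : EE (fun σ => σ.f 1 0) = mw / 2 := by
  have h1 : EE (fun σ => σ.f (-1) 0) = EE fun σ => σ.f 1 0 :=
    EE_rot (p := -1) (q := 0) (r := 0) (t := 1) (by norm_num) (by norm_num) (by norm_num)
      fun σ => by simp [S.rot]
  have h2 : mw = EE (fun σ => σ.f 1 0) + EE (fun σ => σ.f (-1) 0) :=
    EE_add (by fun_prop) (by fun_prop)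
  linarith

lemma EE_f {a b c : ℝ} (hc : 0 < c) (h : a ^ 2 + b ^ 2 = c ^ 2) :
    EE (fun σ => σ.f a b) = c * (mw / 2) := by
  rw [← EE_f10, ← EE_mul _ (by fun_prop)]
  refine EE_rot (p := a / c) (q := b / c) (r := -b / c) (t := a / c) (by field_simp; linarith)
    (by field_simp; linarith) (by field_simp; ring) fun σ => ?_
  simp only [S.rot, one_mul, zero_mul, add_zero]
  rw [← σ.smul c _ _ hc.le, mul_div_cancel₀ _ hc.ne', mul_div_cancel₀ _ hc.ne']

lemma G_eq (x : ℝ) : EE (fun σ => σ.W2 * σ.f 1 (-x)) = G x :=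
  EE_rot (p := -1) (q := 0) (r := 0) (t := -1) (by norm_num) (by norm_num) (by norm_num)
    fun σ => by simp [S.rot, S.W2, add_comm]

lemma G_neg (x : ℝ) : G (-x) = G x :=
  EE_rot (p := 1) (q := 0) (r := 0) (t := -1) (by norm_num) (by norm_num) (by norm_num)
    fun σ => by simp [S.rot, S.W2, add_comm]

lemma G_abs (x : ℝ) : G |x| = G x := by
  rcases abs_choice x with h | h <;> rw [h]
  exact G_neg x

lemma EE_ar (h B x y s : ℝ) : EE (ar h B x y s) =
    h * (B - (x - y) * h / 2) + -(mw / 2 * (h * (sg x + sg y) + 2 * (B - (x - y) * h / 2))) * s +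
      (G x + G y) * s ^ 2 + (D1 h B x y s + D2 h B x y s) := by
  set m := B - (x - y) * h / 2 with hm
  have k1 := EE_f (a := -1) (b := x) (sg_pos x) (by rw [sg_sq]; ring)
  have k2 := EE_f (a := 1) (b := -y) (sg_pos y) (by rw [sg_sq]; ring)
  have k3 := EE_f (a := 0) (b := 1) one_pos (by norm_num)
  have k4 := EE_f (a := 0) (b := -1) one_pos (by norm_num)
  have k5 : EE (fun σ => σ.W2 * σ.f 0 1) = EE fun σ => σ.W2 * σ.f 0 (-1) :=
    EE_rot (p := 1) (q := 0) (r := 0) (t := -1) (by norm_num) (by norm_num) (by norm_num)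
      fun σ => by simp [S.rot, S.W2, add_comm]
  have e : ar h B x y s = fun σ => h * m + (-(s * h) * σ.f (-1) x + (-(s * h) * σ.f 1 (-y) +
      ((s * h * (x - y) / 2 - s * m) * σ.f 0 1 + ((-(s * h * (x - y) / 2) - s * m) * σ.f 0 (-1) +
      (s ^ 2 * (σ.W2 * σ.f (-1) x) + (s ^ 2 * (σ.W2 * σ.f 1 (-y)) +
      (-(s ^ 2 * (x - y) / 2) * (σ.W2 * σ.f 0 1) + (s ^ 2 * (x - y) / 2 * (σ.W2 * σ.f 0 (-1)) +
      (e1 (x - y) (wb B x y s σ) (h - s * σ.W2) + max (s * σ.W2 - h) 0 *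
        (wb B x y s σ - (x - y) * (h - s * σ.W2) / 2)))))))))) := by
    ext σ
    rw [ar, e1, hm]
    rcases le_total (h - s * σ.W2) 0 with h1 | h1
    · rw [max_eq_right h1, max_eq_left (by linarith)]; simp only [wb, S.W2]; ring
    · rw [max_eq_left h1, max_eq_right (by linarith)]; simp only [wb, S.W2]; ring
  rw [e]
  iterate 10 rw [EE_add (by fun_prop) (by fun_prop)]
  rw [EE_const]
  iterate 8 rw [EE_mul _ (by fun_prop)]
  rw [k1, k2, k3, k4, k5, G_eq]
  unfold G D1 D2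
  ring

lemma D2_est {h : ℝ} (hh : 0 ≤ h) (B x y : ℝ) : (fun s => D2 h B x y s -
    (B - (x - y) * h / 2 - (|x| + |y|) * h / 2) * ph h s) =o[L0] ph h := by
  set b' := B - (x - y) * h / 2 - (|x| + |y|) * h / 2 with hb
  refine IsBigO.trans_isLittleO (g := fun s => (|x| + |y|) / 2 * ps h s + mw * (s * ph h s)) ?_
    (((ps_o_ph hh le_rfl).const_mul_left _).add ((sph_o_ph h).const_mul_left _))
  refine IsBigO.of_bound 1 ?_
  filter_upwards [self_mem_nhdsWithin] with s hs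
  have hs0 : 0 < s := hs
  have e1 : ph h s = EE fun σ => max (s * σ.W2 - h) 0 := (EE_W2 fun w => max (s * w - h) 0).symm
  have e2 : ps h s = EE fun σ => max (s * σ.W2 - h) 0 ^ 2 :=
    (EE_W2 fun w => max (s * w - h) 0 ^ 2).symm
  have e3 : ph h s * mw = EE fun σ => max (s * σ.W2 - h) 0 * σ.W1 := by
    rw [← EE_ph_W2]
    exact EE_rot (p := 0) (q := 1) (r := 1) (t := 0) (by norm_num) (by norm_num) (by norm_num)
      fun σ => by simp [S.rot, S.W1, S.W2]
  have e4 : (|x| + |y|) / 2 * ps h s + mw * (s * ph h s) = EE fun σ =>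
      (|x| + |y|) / 2 * max (s * σ.W2 - h) 0 ^ 2 + s * (max (s * σ.W2 - h) 0 * σ.W1) := by
    rw [EE_add (by fun_prop) (by fun_prop), EE_mul _ (by fun_prop), EE_mul _ (by fun_prop), ← e2,
      ← e3]; ring
  have e5 : D2 h B x y s - b' * ph h s = EE fun σ => max (s * σ.W2 - h) 0 *
      (wb B x y s σ - (x - y) * (h - s * σ.W2) / 2) - b' * max (s * σ.W2 - h) 0 := by
    rw [EE_sub (by fun_prop) (by fun_prop), EE_mul _ (by fun_prop), ← e1]; rfl
  have key : ∀ σ : S, |max (s * σ.W2 - h) 0 * (wb B x y s σ - (x - y) * (h - s * σ.W2) / 2) -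
      b' * max (s * σ.W2 - h) 0| ≤
      (|x| + |y|) / 2 * max (s * σ.W2 - h) 0 ^ 2 + s * (max (s * σ.W2 - h) 0 * σ.W1) := by
    intro σ
    rcases le_total (s * σ.W2 - h) 0 with h1 | h1
    · simp [max_eq_right h1]
    rw [max_eq_left h1]
    have a1 := σ.le2 (a := -1) (b := x) (a1 := -1) (b1 := 0) (a2 := 0) (b2 := x) zero_le_one
      zero_le_one (by ring) (by ring)
    have a2 := σ.le2 (a := 0) (b := x) (a1 := 1) (b1 := 0) (a2 := -1) (b2 := x) zero_le_one
      zero_le_one (by ring) (by ring)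
    have a3 := σ.le2 (a := 1) (b := -y) (a1 := 1) (b1 := 0) (a2 := 0) (b2 := -y) zero_le_one
      zero_le_one (by ring) (by ring)
    have a4 := σ.le2 (a := 0) (b := -y) (a1 := -1) (b1 := 0) (a2 := 1) (b2 := -y) zero_le_one
      zero_le_one (by ring) (by ring)
    have a5 : ∀ x, σ.f 0 x = |x| / 2 * σ.W2 + x / 2 * (σ.f 0 1 - σ.f 0 (-1)) := by
      intro x
      rcases le_total 0 x with h | h
      · have := σ.smul x 0 1 h
        rw [abs_of_nonneg h, S.W2]; simp only [mul_zero, mul_one] at this; linarith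
      · have := σ.smul (-x) 0 (-1) (by linarith)
        rw [abs_of_nonpos h, S.W2]; simp only [mul_zero, mul_neg, mul_one, neg_neg] at this
        linarith
    have a6 := a5 x
    have a7 := a5 (-y)
    rw [abs_neg] at a7
    set t := s * σ.W2 - h with ht
    have a8 : wb B x y s σ - (x - y) * (h - s * σ.W2) / 2 - b' = -((|x| + |y|) / 2 * t) -
        s * (σ.f (-1) x + σ.f 1 (-y) - σ.f 0 x - σ.f 0 (-y)) := by
      rw [a6, a7, hb, ht, wb, S.W2]; ring
    have a9 : |σ.f (-1) x + σ.f 1 (-y) - σ.f 0 x - σ.f 0 (-y)| ≤ σ.W1 := by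
      rw [abs_le, S.W1]; constructor <;> linarith
    rw [mul_comm b', ← mul_sub, a8, abs_mul, abs_of_nonneg h1]
    refine (mul_le_mul_of_nonneg_left ((abs_sub _ _).trans (add_le_add (le_of_eq (b := (|x| + |y|) / 2 * t) ?_)
      ((abs_mul _ _).trans_le (mul_le_mul (abs_of_pos hs0).le a9 (abs_nonneg _) hs0.le))))
      h1).trans (le_of_eq (by ring))
    · rw [abs_neg, abs_of_nonneg (by positivity)]
  have h0 : 0 ≤ (|x| + |y|) / 2 * ps h s + mw * (s * ph h s) := by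
    have := ps_nonneg h s
    have := ph_nonneg h s
    have := mw_pos
    positivity
  rw [one_mul, Real.norm_of_nonneg h0, Real.norm_eq_abs, e5, e4, abs_le, ← neg_one_mul,
    ← EE_mul _ (by fun_prop)]
  exact ⟨EE_mono (by fun_prop) (by fun_prop) fun σ => by linarith [(abs_le.1 (key σ)).1],
    EE_mono (by fun_prop) (by fun_prop) fun σ => (abs_le.1 (key σ)).2⟩

lemma EE_dir (u : ℝ) (f : ℝ → ℝ) :
    EE (fun σ => f (σ.W 1 (-u))) = EE fun σ => f (sg u * σ.W1) := by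
  have hp := sg_pos u
  rw [← EE_unit (a := 1 / sg u) (b := -u / sg u) (by field_simp; rw [sg_sq])
    fun a _ => f (sg u * a)]
  congr 2; ext σ
  simp only [S.W, mul_add, ← σ.smul _ _ _ hp.le]
  congr 3 <;> field_simp

lemma EE_dir1 (u b s : ℝ) :
    EE (fun σ => max (s * σ.W 1 (-u) - b) 0) = sg u * ph (b / sg u) s := by
  have hp := sg_pos u
  rw [EE_dir u fun w => max (s * w - b) 0, ph, ← EE_mul _ (by fun_prop)]
  congr 1; ext σ
  rw [mul_max_of_nonneg _ _ hp.le]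
  congr 1
  · field_simp
  · simp

lemma EE_dir2 (u b s : ℝ) :
    EE (fun σ => max (s * σ.W 1 (-u) - b) 0 ^ 2) = sg u ^ 2 * ps (b / sg u) s := by
  have hp := sg_pos u
  rw [EE_dir u fun w => max (s * w - b) 0 ^ 2, ps, ← EE_mul _ (by fun_prop)]
  congr 1; ext σ
  rw [← mul_pow, mul_max_of_nonneg _ _ hp.le]
  congr 2
  · field_simp
  · simp

lemma nm_le {x y u s : ℝ} (h1 : u ≤ x) (h2 : y ≤ u) (hs : 0 ≤ s) (b : ℝ) (σ : S) :
    nm x y b s σ ≤ s * σ.W 1 (-u) - b := by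
  have a1 := σ.le2 (a := -1) (b := x) (a1 := -1) (b1 := u) (a2 := 0) (b2 := 1) zero_le_one
    (sub_nonneg.2 h1) (by ring) (by ring)
  have a2 := σ.le2 (a := 1) (b := -y) (a1 := 1) (b1 := -u) (a2 := 0) (b2 := 1) zero_le_one
    (sub_nonneg.2 h2) (by ring) (by ring)
  simp only [nm, S.W, neg_neg]
  gcongr
  linarith

lemma nm_eq (h B x y s : ℝ) (σ : S) :
    (x - y) * (h - s * σ.W2) - wb B x y s σ = nm x y (B - (x - y) * h) s σ := by
  simp only [nm, wb, S.W2]; ring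

lemma D1_nonneg (h B : ℝ) {x y : ℝ} (hxy : y ≤ x) (s : ℝ) : 0 ≤ D1 h B x y s :=
  EE_nonneg (by fun_prop) fun _ => e1_nonneg (sub_nonneg.2 hxy) _ _

lemma D1_le_ph {h x y u s : ℝ} (hh : 0 ≤ h) (B : ℝ) (h1 : u ≤ x) (h2 : y ≤ u) (hs : 0 ≤ s) :
    D1 h B x y s ≤ h * sg u * ph ((B - (x - y) * h) / sg u) s := by
  rw [mul_assoc, ← EE_dir1, ← EE_mul _ (by fun_prop)]
  refine EE_mono (by fun_prop) (by fun_prop) fun σ => (e1_le (by linarith) _ _).trans ?_
  rw [nm_eq]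
  exact mul_le_mul (max_le (by linarith [mul_nonneg hs σ.W2_nonneg]) hh)
    (max_le_max (nm_le h1 h2 hs _ σ) le_rfl) (le_max_right _ _) hh

lemma D1_le_th (h B : ℝ) {x y : ℝ} (hxy : y < x) (s : ℝ) :
    D1 h B x y s ≤ EE (th x y (B - (x - y) * h) s) :=
  EE_mono (by fun_prop) (by fun_prop) fun σ => by
    rw [th, ← nm_eq]; exact e1_le_sq (sub_pos.2 hxy) _ _

lemma th_le_ps {x y u s : ℝ} (hxy : y < x) (h1 : u ≤ x) (h2 : y ≤ u) (hs : 0 ≤ s) (b : ℝ) :
    EE (th x y b s) ≤ sg u ^ 2 / (2 * (x - y)) * ps (b / sg u) s := by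
  rw [div_mul_eq_mul_div, ← EE_dir2, div_eq_inv_mul, ← EE_mul _ (by fun_prop)]
  refine EE_mono (by fun_prop) (by fun_prop) fun σ => ?_
  rw [th, div_eq_inv_mul]
  have := sub_pos.2 hxy
  gcongr
  exact nm_le h1 h2 hs _ σ

lemma th_sub_D1 {h B x y u δ : ℝ} (hxy : y < x) (h1 : u ≤ x) (h2 : y ≤ u)
    (hb : B - (x - y) * h = δ * sg u) (hδ : δ < h) : ∃ D C, δ < D ∧ ∀ s, 0 ≤ s →
      EE (th x y (B - (x - y) * h) s) - D1 h B x y s ≤ C * ps D s := by
  have hk := sub_pos.2 hxy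
  have hp := sg_pos u
  set D := (sg u * δ + (x - y) * h) / (sg u + (x - y)) with hD
  refine ⟨D, (sg u ^ 2 + (x - y) ^ 2) / (x - y), ?_, fun s hs => ?_⟩
  · rw [hD, lt_div_iff₀ (by positivity)]; nlinarith
  have e1 := EE_dir2 u (D * sg u) s
  rw [mul_div_cancel_right₀ _ hp.ne'] at e1
  have e2 : ps D s = EE fun σ => max (s * σ.W2 - D) 0 ^ 2 :=
    (EE_W2 fun w => max (s * w - D) 0 ^ 2).symm
  have e3 : (sg u ^ 2 + (x - y) ^ 2) / (x - y) * ps D s = EE fun σ =>
      (x - y)⁻¹ * max (s * σ.W 1 (-u) - D * sg u) 0 ^ 2 + (x - y) * max (s * σ.W2 - D) 0 ^ 2 := by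
    rw [EE_add (by fun_prop) (by fun_prop), EE_mul _ (by fun_prop), EE_mul _ (by fun_prop), e1,
      ← e2]; field_simp
  rw [e3, D1, ← EE_sub (by fun_prop) (by fun_prop)]
  refine EE_mono (by fun_prop) (by fun_prop) fun σ => ?_
  have k1 := sq_le_e1 hk (wb B x y s σ) (h - s * σ.W2)
  have k2 := nm_le h1 h2 hs (B - (x - y) * h) σ
  rw [← nm_eq] at k2
  rw [th, ← nm_eq]
  set p := max (s * σ.W 1 (-u) - D * sg u) 0
  set q := max (s * σ.W2 - D) 0
  have k3 : D * (sg u + (x - y)) = sg u * δ + (x - y) * h := by rw [hD]; field_simp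
  have k4 : max (-wb B x y s σ) 0 ≤ p + (x - y) * q := by
    refine max_le ?_ (by positivity)
    have := le_max_left (s * σ.W 1 (-u) - D * sg u) 0
    have := mul_le_mul_of_nonneg_left (le_max_left (s * σ.W2 - D) 0) hk.le
    nlinarith
  have k5 : max (-wb B x y s σ) 0 ^ 2 / (2 * (x - y)) ≤ (x - y)⁻¹ * p ^ 2 + (x - y) * q ^ 2 := by
    rw [div_le_iff₀ (by positivity)]
    refine (pow_le_pow_left₀ (le_max_right _ _) k4 2).trans ?_
    have : ((x - y)⁻¹ * p ^ 2 + (x - y) * q ^ 2) * (2 * (x - y)) =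
        2 * p ^ 2 + 2 * ((x - y) * q) ^ 2 := by field_simp
    rw [this]
    nlinarith [sq_nonneg (p - (x - y) * q)]
  linarith

lemma D1_lower {h B x y η : ℝ} (hh : 0 < h) (hxy : y < x) (hx : 0 ≤ x) (hy : y ≤ 0) (hη : 0 < η) :
    ∃ c > 0, ∀ᶠ s in L0, c * ph (B - (x - y) * h + η) s ≤ D1 h B x y s := by
  have hk := sub_pos.2 hxy
  set c := min (η / 2 / (2 * (x - y))) (h / 2 / 2) with hc
  have hc0 : 0 < c := by positivity
  set θ := min (h / 2) (η / (4 * (x - y))) with hθ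
  have hθ0 : 0 < θ := by positivity
  refine ⟨c / 2, by positivity, ?_⟩
  have := mw_pos
  filter_upwards [Ioo_mem_nhdsGT (show 0 < θ / (2 * mw) by positivity)] with s hs
  have hs0 := hs.1
  have hs1 : s * (2 * mw) < θ := (lt_div_iff₀ (by positivity)).1 hs.2
  set b := B - (x - y) * h + η with hb
  have k1 : EE (fun σ => c * max (s * σ.W1 - b) 0 - c * s / θ * (max (s * σ.W1 - b) 0 * σ.W2)) ≤
      D1 h B x y s := by
    refine EE_mono (by fun_prop) (by fun_prop) fun σ => ?_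
    have e : c * max (s * σ.W1 - b) 0 - c * s / θ * (max (s * σ.W1 - b) 0 * σ.W2) =
        c * max (s * σ.W1 - b) 0 * (1 - s * σ.W2 / θ) := by ring
    rw [e]
    by_cases h1 : s * σ.W2 ≤ θ
    · refine le_trans ?_ (e1_lower hk (half_pos hη) (half_pos hh)
        (by linarith [min_le_left (h / 2) (η / (4 * (x - y)))]))
      refine (mul_le_of_le_one_right (by positivity) (by
        linarith [div_nonneg (mul_nonneg hs0.le σ.W2_nonneg) hθ0.le])).trans ?_
      refine mul_le_mul_of_nonneg_left (max_le_max ?_ le_rfl) hc0.le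
      have a1 := σ.le2 (a := -1) (b := 0) (a1 := -1) (b1 := x) (a2 := 0) (b2 := -1) zero_le_one
        hx (by ring) (by ring)
      have a2 := σ.le2 (a := 1) (b := 0) (a1 := 1) (b1 := -y) (a2 := 0) (b2 := -1) zero_le_one
        (neg_nonneg.2 hy) (by ring) (by ring)
      have a3 : θ * (4 * (x - y)) ≤ η := (le_div_iff₀ (by positivity)).1 (min_le_right _ _)
      have a4 : s * σ.W1 ≤ s * (σ.f (-1) x + σ.f 1 (-y) + (x - y) * σ.f 0 (-1)) := by
        gcongr; rw [S.W1]; linarith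
      have a5 := mul_le_mul_of_nonneg_left h1 hk.le
      rw [wb, hb]
      nlinarith
    · refine le_trans (mul_nonpos_of_nonneg_of_nonpos (by positivity) ?_) (e1_nonneg hk.le _ _)
      rw [sub_nonpos, one_le_div hθ0]; linarith
  rw [EE_sub (by fun_prop) (by fun_prop), EE_mul _ (by fun_prop), EE_mul _ (by fun_prop),
    EE_ph_W2] at k1
  refine le_trans ?_ k1
  have k2 : c * s / θ * (ph b s * mw) ≤ c / 2 * ph b s := by
    have : s * mw / θ ≤ 1 / 2 := by rw [div_le_iff₀ hθ0]; linarith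
    calc _ = c * ph b s * (s * mw / θ) := by ring
      _ ≤ c * ph b s * (1 / 2) := by have := ph_nonneg b s; gcongr
      _ = _ := by ring
  unfold ph at k2 ⊢
  linarith

lemma D1_flip {h B x y : ℝ} (hh : 0 < h) (hxy : y ≤ x) (hy : 0 < y) (hb : 0 < B - x * h) :
    ∃ D C, B - x * h < D ∧ ∀ s, 0 ≤ s → D1 h B x y s ≤ C * ph D s := by
  set u := min y (h / (B - x * h)) with hu
  have hu0 : 0 < u := by positivity
  have hu1 : u ≤ y := min_le_left _ _
  have hu2 : u * (B - x * h) ≤ h := (le_div_iff₀ hb).1 (min_le_right _ _)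
  have hp := sg_pos u
  refine ⟨(B - x * h + u * h) / sg u, h * sg u, ?_, fun s hs => ?_⟩
  · rw [lt_div_iff₀ hp]
    refine lt_of_pow_lt_pow_left₀ 2 (by positivity) ?_
    rw [mul_pow, sg_sq]
    nlinarith [mul_pos hu0 hh, mul_pos hu0 hb, mul_pos (mul_pos hu0 hh) hb]
  rw [mul_assoc, ← EE_dir1, ← EE_mul _ (by fun_prop)]
  refine EE_mono (by fun_prop) (by fun_prop) fun σ => (e1_le (by linarith) _ _).trans ?_
  rcases le_total (h - s * σ.W2) 0 with h1 | h1
  · rw [max_eq_right h1, zero_mul]; positivity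
  refine mul_le_mul (max_le (by linarith [mul_nonneg hs σ.W2_nonneg]) hh.le)
    (max_le_max ?_ le_rfl) (le_max_right _ _) hh.le
  have a1 := σ.le2 (a := -1) (b := x) (a1 := -1) (b1 := u) (a2 := 0) (b2 := 1) zero_le_one
    (c := 1) (d := x - u) (by linarith) (by ring) (by ring)
  have a2 := σ.le2 (a := 1) (b := -y) (a1 := 1) (b1 := -u) (a2 := 0) (b2 := -1) zero_le_one
    (sub_nonneg.2 hu1) (by ring) (by ring)
  have a3 : s * (σ.f (-1) x + σ.f 1 (-y)) ≤ s * (σ.W 1 (-u) + (x - u) * σ.f 0 1 +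
      (y - u) * σ.f 0 (-1)) := by
    refine mul_le_mul_of_nonneg_left ?_ hs
    simp only [S.W, neg_neg]; linarith
  have a4 := mul_nonneg (sub_nonneg.2 hu1) h1
  simp only [wb, S.W2] at a4 ⊢
  nlinarith

end Pool.Agent.Lib.MP_2d4879_an
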