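import Pool.Agent.Lib.MP_2d4879_an.Gauss

namespace Pool.Agent.Lib.MP_2d4879_an

open MeasureTheory Real Filter Topology
open scoped InnerProductSpace ENNReal

noncomputable def en (h : ℝ) (f : E → ℝ) (x : E) : ℝ := ∫ z, pk h z * (f x - f (x - z)) ^ 2

noncomputable def bil (h : ℝ) (f : E → ℝ) : ℝ := ∫ x, f x * ∫ y, pk h (x - y) * f y

section
variable {h : ℝ} {f : E → ℝ}

lemma int_A (hh : 0 < h) (h2 : Integrable fun x => f x ^ 2) :
    Integrable (fun p : E × E => pk h p.2 * f p.1 ^ 2) (volume.prod volume) :=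
  (h2.mul_prod (pk_int hh)).congr (Eventually.of_forall fun _ => mul_comm _ _)

lemma int_B (hh : 0 < h) (h2 : Integrable fun x => f x ^ 2) :
    Integrable (fun p : E × E => pk h p.2 * f (p.1 - p.2) ^ 2) (volume.prod volume) :=
  (pk_int hh).convolution_integrand (ContinuousLinearMap.mul ℝ ℝ) h2

lemma int_C (hh : 0 < h) (hf : Measurable f) (h2 : Integrable fun x => f x ^ 2) :
    Integrable (fun p : E × E => pk h p.2 * (f p.1 * f (p.1 - p.2))) (volume.prod volume) := by
  refine Integrable.mono' ((int_A hh h2).add (int_B hh h2))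
    (Measurable.aestronglyMeasurable (by fun_prop)) (Eventually.of_forall fun p => ?_)
  have h1 := pk_pos hh p.2
  rw [norm_mul, Real.norm_of_nonneg h1.le, Pi.add_apply, ← mul_add, Real.norm_eq_abs]
  refine mul_le_mul_of_nonneg_left (abs_le.2 ⟨?_, ?_⟩) h1.le <;>
    nlinarith [sq_nonneg (f p.1 - f (p.1 - p.2)), sq_nonneg (f p.1 + f (p.1 - p.2))]

lemma int_en (hh : 0 < h) (hf : Measurable f) (h2 : Integrable fun x => f x ^ 2) :
    Integrable (fun p : E × E => pk h p.2 * (f p.1 - f (p.1 - p.2)) ^ 2) (volume.prod volume) := by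
  refine (((int_A hh h2).add (int_B hh h2)).sub ((int_C hh hf h2).const_mul 2)).congr
    (Eventually.of_forall fun p => ?_)
  simp only [Pi.add_apply, Pi.sub_apply]; ring

lemma en_int (hh : 0 < h) (hf : Measurable f) (h2 : Integrable fun x => f x ^ 2) :
    Integrable (en h f) := (int_en hh hf h2).integral_prod_left

lemma en_nonneg (hh : 0 < h) (x : E) : 0 ≤ en h f x :=
  integral_nonneg fun z => mul_nonneg (pk_pos hh z).le (sq_nonneg _)

lemma en_eq (hh : 0 < h) (hf : Measurable f) (h2 : Integrable fun x => f x ^ 2) :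
    ∫ x, en h f x = 2 * ((∫ x, f x ^ 2) - bil h f) := by
  have e0 : ∫ x, en h f x = ∫ p : E × E, pk h p.2 * (f p.1 - f (p.1 - p.2)) ^ 2
      ∂(volume.prod volume) := (integral_prod _ (int_en hh hf h2)).symm
  have e1 : ∫ p : E × E, pk h p.2 * f p.1 ^ 2 ∂(volume.prod volume) = ∫ x, f x ^ 2 := by
    rw [integral_prod _ (int_A hh h2)]
    simp_rw [integral_mul_const, pk_mass hh, one_mul]
  have e2 : ∫ p : E × E, pk h p.2 * f (p.1 - p.2) ^ 2 ∂(volume.prod volume) = ∫ x, f x ^ 2 := by
    rw [integral_prod_symm _ (int_B hh h2)]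
    simp_rw [integral_const_mul]
    have : ∀ z : E, ∫ x, f (x - z) ^ 2 = ∫ x, f x ^ 2 := fun z =>
      integral_sub_right_eq_self (fun x => f x ^ 2) z
    simp_rw [this, integral_mul_const, pk_mass hh, one_mul]
  have e3 : ∫ p : E × E, pk h p.2 * (f p.1 * f (p.1 - p.2)) ∂(volume.prod volume) = bil h f := by
    rw [integral_prod _ (int_C hh hf h2)]
    unfold bil
    congr 1; ext x
    rw [← integral_const_mul, ← integral_sub_left_eq_self _ volume x]
    congr 1; ext y
    simp only [sub_sub_cancel]; ring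
  have hAB : Integrable (fun p : E × E => pk h p.2 * f p.1 ^ 2 + pk h p.2 * f (p.1 - p.2) ^ 2)
      (volume.prod volume) := (int_A hh h2).add (int_B hh h2)
  have : (fun p : E × E => pk h p.2 * (f p.1 - f (p.1 - p.2)) ^ 2) = fun p =>
      (pk h p.2 * f p.1 ^ 2 + pk h p.2 * f (p.1 - p.2) ^ 2) -
        2 * (pk h p.2 * (f p.1 * f (p.1 - p.2))) := by ext p; ring
  rw [e0, this, integral_sub hAB ((int_C hh hf h2).const_mul 2),
    integral_add (int_A hh h2) (int_B hh h2), integral_const_mul, e1, e2, e3]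
  ring

lemma sq_int_le {φ : ℝ → ℝ} (hφ : Continuous φ) :
    (∫ t in (0 : ℝ)..1, φ t) ^ 2 ≤ ∫ t in (0 : ℝ)..1, φ t ^ 2 := by
  set c := ∫ t in (0 : ℝ)..1, φ t
  have h1 : 0 ≤ ∫ t in (0 : ℝ)..1, (φ t - c) ^ 2 :=
    intervalIntegral.integral_nonneg zero_le_one fun _ _ => sq_nonneg _
  have h2 : (fun t => (φ t - c) ^ 2) = fun t => (φ t ^ 2 - 2 * c * φ t) + c ^ 2 := by ext; ring
  rw [h2, intervalIntegral.integral_add (Continuous.intervalIntegrable (by fun_prop) _ _)
    (Continuous.intervalIntegrable (by fun_prop) _ _), intervalIntegral.integral_sub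
    (Continuous.intervalIntegrable (by fun_prop) _ _)
    (Continuous.intervalIntegrable (by fun_prop) _ _), intervalIntegral.integral_const_mul] at h1
  simp only [intervalIntegral.integral_const, sub_zero, smul_eq_mul, one_mul] at h1
  nlinarith

lemma diff_sq_le (hf : ContDiff ℝ 1 f) (x z : E) :
    (f x - f (x - z)) ^ 2 ≤ ∫ t in (0 : ℝ)..1, (fderiv ℝ f (x - t • z) z) ^ 2 := by
  have hc : Continuous fun t : ℝ => fderiv ℝ f (x - t • z) z := by
    have := hf.continuous_fderiv one_ne_zero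
    fun_prop
  have h1 : ∀ t : ℝ, HasDerivAt (fun t : ℝ => -f (x - t • z)) (fderiv ℝ f (x - t • z) z) t := by
    intro t
    have h2 : HasDerivAt (fun t : ℝ => x - t • z) (-z) t := by
      simpa using ((hasDerivAt_id t).smul_const z).const_sub x
    have := ((hf.differentiable one_ne_zero) (x - t • z)).hasFDerivAt.comp_hasDerivAt t h2
    have h3 := this.neg
    rw [map_neg, neg_neg] at h3
    exact h3
  have h3 := intervalIntegral.integral_eq_sub_of_hasDerivAt (a := 0) (b := 1)
    (fun t _ => h1 t) (hc.intervalIntegrable _ _)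
  have h4 := sq_int_le hc
  rw [h3] at h4
  simp only [one_smul, zero_smul, sub_zero] at h4
  convert h4 using 2
  ring

lemma pk_sq_le' (hh : 0 < h) (L : E →L[ℝ] ℝ) :
    ∫⁻ z, pe h z * ENNReal.ofReal (L z ^ 2) ≤ ENNReal.ofReal (2 * h * ‖L‖ ^ 2) := by
  set v := (InnerProductSpace.toDual ℝ E).symm L
  have h1 : ∀ z, L z = ⟪v, z⟫_ℝ := fun z => by simp [v]
  have h2 : ‖L‖ = ‖v‖ := by simp [v]
  simp_rw [h1, h2, pe, ← ENNReal.ofReal_mul (pk_pos hh _).le]
  rw [← ofReal_integral_eq_lintegral_ofReal (pk_sq_int hh v)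
    (Eventually.of_forall fun z => mul_nonneg (pk_pos hh z).le (sq_nonneg _))]
  exact ENNReal.ofReal_le_ofReal (pk_sq_le hh v)

lemma en_le_grad (hh : 0 < h) (hf : ContDiff ℝ 1 f) (hc : HasCompactSupport f) :
    ∫ x, en h f x ≤ 2 * h * ∫ x, ‖fderiv ℝ f x‖ ^ 2 := by
  have hfc := hf.continuous
  have hdc := hf.continuous_fderiv one_ne_zero
  have h2 : Integrable fun x => f x ^ 2 :=
    Continuous.integrable_of_hasCompactSupport (by fun_prop)
      (hc.comp_left (g := fun t : ℝ => t ^ 2) (by simp))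
  have hd2 : Integrable fun x => ‖fderiv ℝ f x‖ ^ 2 :=
    Continuous.integrable_of_hasCompactSupport (by fun_prop)
      ((hc.fderiv ℝ).comp_left (g := fun L : E →L[ℝ] ℝ => ‖L‖ ^ 2) (by simp))
  have k1 : ∀ z : E, ∫⁻ x, ENNReal.ofReal ((f x - f (x - z)) ^ 2) ≤
      ∫⁻ x, ENNReal.ofReal ((fderiv ℝ f x z) ^ 2) := by
    intro z
    calc _ ≤ ∫⁻ x, ∫⁻ t in Set.Ioc (0 : ℝ) 1, ENNReal.ofReal ((fderiv ℝ f (x - t • z) z) ^ 2) := by
          refine lintegral_mono fun x => ?_
          refine (ENNReal.ofReal_le_ofReal (diff_sq_le hf x z)).trans ?_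
          rw [intervalIntegral.integral_of_le zero_le_one]
          refine le_of_eq (ofReal_integral_eq_lintegral_ofReal ?_
            (Eventually.of_forall fun t => sq_nonneg _))
          exact (Continuous.integrableOn_Icc (by fun_prop)).mono_set Set.Ioc_subset_Icc_self
      _ = ∫⁻ t in Set.Ioc (0 : ℝ) 1, ∫⁻ x, ENNReal.ofReal ((fderiv ℝ f (x - t • z) z) ^ 2) := by
          refine lintegral_lintegral_swap (Measurable.aemeasurable ?_)
          refine Measurable.ennreal_ofReal (Continuous.measurable ?_)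
          fun_prop
      _ = _ := by
          have : ∀ t : ℝ, ∫⁻ x, ENNReal.ofReal ((fderiv ℝ f (x - t • z) z) ^ 2) =
              ∫⁻ x, ENNReal.ofReal ((fderiv ℝ f x z) ^ 2) := fun t =>
            lintegral_sub_right_eq_self (fun x => ENNReal.ofReal ((fderiv ℝ f x z) ^ 2)) (t • z)
          simp [this]
  have k2 : ENNReal.ofReal (∫ x, en h f x) ≤ ENNReal.ofReal (2 * h * ∫ x, ‖fderiv ℝ f x‖ ^ 2) := by
    have e0 : ∫ x, en h f x = ∫ p : E × E, pk h p.2 * (f p.1 - f (p.1 - p.2)) ^ 2
      ∂(volume.prod volume) := (integral_prod _ (int_en hh hfc.measurable h2)).symm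
    rw [e0, ofReal_integral_eq_lintegral_ofReal (int_en hh hfc.measurable h2)
      (Eventually.of_forall fun p => mul_nonneg (pk_pos hh _).le (sq_nonneg _)),
      lintegral_prod_symm _ (Measurable.aemeasurable (Measurable.ennreal_ofReal
        (Continuous.measurable (by fun_prop))))]
    calc _ ≤ ∫⁻ z, ∫⁻ x, pe h z * ENNReal.ofReal ((fderiv ℝ f x z) ^ 2) := by
          refine lintegral_mono fun z => ?_
          simp_rw [ENNReal.ofReal_mul (pk_pos hh _).le, pe]
          rw [lintegral_const_mul' _ _ ENNReal.ofReal_ne_top,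
            lintegral_const_mul' _ _ ENNReal.ofReal_ne_top]
          exact mul_le_mul_right (k1 z) _
      _ = ∫⁻ x, ∫⁻ z, pe h z * ENNReal.ofReal ((fderiv ℝ f x z) ^ 2) := by
          refine lintegral_lintegral_swap (Measurable.aemeasurable ?_)
          refine Measurable.mul (by fun_prop) (Measurable.ennreal_ofReal (Continuous.measurable ?_))
          fun_prop
      _ ≤ ∫⁻ x, ENNReal.ofReal (2 * h * ‖fderiv ℝ f x‖ ^ 2) :=
          lintegral_mono fun x => pk_sq_le' hh _
      _ = _ := by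
          rw [← integral_const_mul, ofReal_integral_eq_lintegral_ofReal (hd2.const_mul _)
            (Eventually.of_forall fun x => by positivity)]
  exact (ENNReal.ofReal_le_ofReal_iff (by
    have : 0 ≤ ∫ x, ‖fderiv ℝ f x‖ ^ 2 := integral_nonneg fun x => sq_nonneg _
    positivity)).1 k2

lemma cs_pk (hh : 0 < h) {a w u : E → ℝ} (hw : AEStronglyMeasurable w volume)
    (hu : AEStronglyMeasurable u volume)
    (ha : ∀ z, |a z| ≤ pk h z * |w z|) (h1 : Integrable fun z => pk h z * w z ^ 2)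
    (h2 : Integrable fun z => pk h z * u z ^ 2) :
    (∫ z, a z * u z) ^ 2 ≤ (∫ z, pk h z * w z ^ 2) * ∫ z, pk h z * u z ^ 2 := by
  have h3 : Integrable fun z => pk h z * (|w z| * |u z|) := by
    refine Integrable.mono' (h1.add h2) ((pk_meas h).aestronglyMeasurable.mul
      (hw.norm.mul hu.norm)) (Eventually.of_forall fun z => ?_)
    have := pk_pos hh z
    rw [Real.norm_of_nonneg (by positivity), Pi.add_apply, ← mul_add, ← sq_abs (w z),
      ← sq_abs (u z)]
    gcongr
    nlinarith [sq_nonneg (|w z| - |u z|), abs_nonneg (w z), abs_nonneg (u z)]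
  have h4 : |∫ z, a z * u z| ≤ ∫ z, pk h z * (|w z| * |u z|) := by
    refine norm_integral_le_of_norm_le (f := fun z => a z * u z) h3 (Eventually.of_forall fun z => ?_)
    rw [norm_mul, ← mul_assoc]
    exact mul_le_mul_of_nonneg_right (ha z) (abs_nonneg _)
  have h5 := discrim_le_zero (a := ∫ z, pk h z * w z ^ 2)
    (b := -2 * ∫ z, pk h z * (|w z| * |u z|)) (c := ∫ z, pk h z * u z ^ 2) (fun t => by
      have : 0 ≤ ∫ z, pk h z * (t * |w z| - |u z|) ^ 2 :=
        integral_nonneg fun z => mul_nonneg (pk_pos hh z).le (sq_nonneg _)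
      have e : (fun z => pk h z * (t * |w z| - |u z|) ^ 2) = fun z =>
          (t ^ 2 * (pk h z * w z ^ 2) - 2 * t * (pk h z * (|w z| * |u z|))) + pk h z * u z ^ 2 := by
        ext z; rw [← sq_abs (w z), ← sq_abs (u z)]; ring
      have h6 : Integrable fun z => t ^ 2 * (pk h z * w z ^ 2) -
          2 * t * (pk h z * (|w z| * |u z|)) := (h1.const_mul _).sub (h3.const_mul _)
      rw [e, integral_add h6 h2, integral_sub (h1.const_mul _) (h3.const_mul _),
        integral_const_mul, integral_const_mul] at this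
      linarith)
  rw [discrim] at h5
  have h7 := sq_le_sq' (by linarith [abs_nonneg (∫ z, a z * u z)]) h4
  rw [sq_abs] at h7
  nlinarith

end

end Pool.Agent.Lib.MP_2d4879_an
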