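import Mathlib

namespace Pool.Agent.Lib.MP_2d4879_an

open MeasureTheory Real Filter Topology
open scoped InnerProductSpace ENNReal

abbrev E := EuclideanSpace ℝ (Fin 2)

lemma nsq (z : E) : ‖z‖ ^ 2 = z 0 ^ 2 + z 1 ^ 2 := by
  rw [EuclideanSpace.real_norm_sq_eq, Fin.sum_univ_two]

lemma inn (u z : E) : ⟪u, z⟫_ℝ = u 0 * z 0 + u 1 * z 1 := by
  simp [PiLp.inner_apply, Fin.sum_univ_two, mul_comm]

noncomputable def pk (h : ℝ) (z : E) : ℝ := (4 * π * h)⁻¹ * exp (-‖z‖ ^ 2 / (4 * h))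

lemma pk_pos {h : ℝ} (hh : 0 < h) (z : E) : 0 < pk h z := by
  unfold pk; positivity

lemma pk_le {h : ℝ} (hh : 0 < h) (z : E) : pk h z ≤ (4 * π * h)⁻¹ := by
  unfold pk
  have : exp (-‖z‖ ^ 2 / (4 * h)) ≤ 1 := by
    rw [exp_le_one_iff]
    exact div_nonpos_of_nonpos_of_nonneg (by simp) (by positivity)
  exact mul_le_of_le_one_right (by positivity) this

lemma pk_zero (h : ℝ) : pk h 0 = (4 * π * h)⁻¹ := by simp [pk]

@[fun_prop] lemma pk_cont (h : ℝ) : Continuous (pk h) := by unfold pk; fun_prop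

@[fun_prop] lemma pk_meas (h : ℝ) : Measurable (pk h) := (pk_cont h).measurable

lemma pk_neg (h : ℝ) (z : E) : pk h (-z) = pk h z := by simp [pk]

lemma pk_sub_comm (h : ℝ) (a b : E) : pk h (a - b) = pk h (b - a) := by
  rw [← pk_neg, neg_sub]

lemma pk_mono {h : ℝ} (hh : 0 < h) {z w : E} (hzw : ‖z‖ ^ 2 ≤ ‖w‖ ^ 2) : pk h w ≤ pk h z := by
  unfold pk
  gcongr

lemma pk_congr (h : ℝ) {z w : E} (hzw : ‖z‖ = ‖w‖) : pk h z = pk h w := by
  unfold pk; rw [hzw]

lemma pk_int {h : ℝ} (hh : 0 < h) : Integrable (pk h) := by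
  have h1 := (GaussianFourier.integrable_cexp_neg_mul_sq_norm_add (V := E)
    (b := ((4 * h)⁻¹ : ℝ)) (by simp; positivity) 0 0).norm
  have h2 : Integrable (fun z : E => exp (-‖z‖ ^ 2 / (4 * h))) := by
    refine h1.congr (Eventually.of_forall fun z => ?_)
    simp only [zero_mul, add_zero, Complex.norm_exp]
    congr 1
    norm_cast
    ring
  exact h2.const_mul _

lemma pk_mass {h : ℝ} (hh : 0 < h) : ∫ z, pk h z = 1 := by
  unfold pk
  rw [integral_const_mul]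
  have h1 := GaussianFourier.integral_rexp_neg_mul_sq_norm (V := E) (b := (4 * h)⁻¹)
    (by positivity)
  have h2 : (fun z : E => exp (-‖z‖ ^ 2 / (4 * h))) = fun z : E => exp (-(4 * h)⁻¹ * ‖z‖ ^ 2) := by
    ext z; congr 1; ring
  rw [h2, h1]
  simp only [finrank_euclideanSpace, Fintype.card_fin, Nat.cast_ofNat]
  rw [div_self (two_ne_zero), rpow_one]
  field_simp

lemma pk_tilt_eq {h : ℝ} (hh : 0 < h) (v z : E) :
    pk h z * exp ⟪v, z⟫_ℝ = exp (h * ‖v‖ ^ 2) * pk h (z - (2 * h) • v) := by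
  unfold pk
  have : -‖z‖ ^ 2 / (4 * h) + ⟪v, z⟫_ℝ = h * ‖v‖ ^ 2 + -‖z - (2 * h) • v‖ ^ 2 / (4 * h) := by
    rw [nsq, nsq, nsq, inn]
    simp only [PiLp.sub_apply, PiLp.smul_apply, smul_eq_mul]
    field_simp
    ring
  rw [mul_assoc, ← exp_add, this, exp_add]
  ring

lemma pk_tilt_int {h : ℝ} (hh : 0 < h) (v : E) :
    Integrable (fun z => pk h z * exp ⟪v, z⟫_ℝ) := by
  simp_rw [pk_tilt_eq hh]
  exact ((pk_int hh).comp_sub_right _).const_mul _

lemma pk_tilt {h : ℝ} (hh : 0 < h) (v : E) :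
    ∫ z, pk h z * exp ⟪v, z⟫_ℝ = exp (h * ‖v‖ ^ 2) := by
  simp_rw [pk_tilt_eq hh]
  rw [integral_const_mul, integral_sub_right_eq_self (pk h), pk_mass hh, mul_one]

lemma sq_le_exp (u : ℝ) : u ^ 2 ≤ exp u + exp (-u) - 2 := by
  have h1 : ∀ u : ℝ, 0 ≤ u → u ^ 2 ≤ exp u + exp (-u) - 2 := by
    intro u hu
    have h2 : u / 2 ≤ sinh (u / 2) := Real.self_le_sinh_iff.2 (by positivity)
    have h3 : (u / 2) ^ 2 ≤ sinh (u / 2) ^ 2 := by gcongr
    rw [sinh_eq] at h3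
    have e1 : exp u = exp (u / 2) ^ 2 := by rw [← exp_nat_mul]; congr 1; push_cast; ring
    have e2 : exp (-u) = exp (-(u / 2)) ^ 2 := by rw [← exp_nat_mul]; congr 1; push_cast; ring
    have e3 : exp (u / 2) * exp (-(u / 2)) = 1 := by rw [← exp_add]; simp
    nlinarith
  rcases le_total 0 u with hu | hu
  · exact h1 u hu
  · have := h1 (-u) (by linarith)
    rw [neg_neg] at this
    nlinarith

lemma pk_sq_int {h : ℝ} (hh : 0 < h) (v : E) :
    Integrable (fun z => pk h z * ⟪v, z⟫_ℝ ^ 2) := by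
  refine Integrable.mono' (((pk_tilt_int hh v).add (pk_tilt_int hh (-v))))
    (by fun_prop) (Eventually.of_forall fun z => ?_)
  have h1 := sq_le_exp ⟪v, z⟫_ℝ
  have h2 := pk_pos hh z
  rw [Real.norm_of_nonneg (by positivity)]
  simp only [Pi.add_apply, inner_neg_left]
  nlinarith

lemma pk_sq_le {h : ℝ} (hh : 0 < h) (v : E) :
    ∫ z, pk h z * ⟪v, z⟫_ℝ ^ 2 ≤ 2 * h * ‖v‖ ^ 2 := by
  set I := ∫ z, pk h z * ⟪v, z⟫_ℝ ^ 2
  set a := h * ‖v‖ ^ 2 with ha
  have ha0 : 0 ≤ a := by positivity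
  have key : ∀ τ : ℝ, τ ^ 2 * I ≤ 2 * (exp (τ ^ 2 * a) - 1) := by
    intro τ
    have h1 : τ ^ 2 * I = ∫ z, pk h z * ⟪τ • v, z⟫_ℝ ^ 2 := by
      rw [← integral_const_mul]
      congr 1; ext z; rw [inner_smul_left]; simp; ring
    have h2 : ∫ z, pk h z * ⟪τ • v, z⟫_ℝ ^ 2 ≤
        ∫ z, (pk h z * exp ⟪τ • v, z⟫_ℝ + pk h z * exp ⟪-(τ • v), z⟫_ℝ - 2 * pk h z) := by
      refine integral_mono (pk_sq_int hh _) (((pk_tilt_int hh _).add (pk_tilt_int hh _)).sub
        ((pk_int hh).const_mul 2)) fun z => ?_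
      have h1 := sq_le_exp ⟪τ • v, z⟫_ℝ
      have h2 := pk_pos hh z
      simp only [inner_neg_left]
      nlinarith
    have h3 : Integrable (fun z => pk h z * exp ⟪τ • v, z⟫_ℝ + pk h z * exp ⟪-(τ • v), z⟫_ℝ) :=
      (pk_tilt_int hh _).add (pk_tilt_int hh _)
    rw [integral_sub h3 ((pk_int hh).const_mul 2),
      integral_add (pk_tilt_int hh _) (pk_tilt_int hh _), pk_tilt hh, pk_tilt hh,
      integral_const_mul, pk_mass hh, norm_neg, norm_smul, mul_pow, Real.norm_eq_abs,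
      sq_abs] at h2
    have : h * (τ ^ 2 * ‖v‖ ^ 2) = τ ^ 2 * a := by rw [ha]; ring
    rw [this] at h2
    linarith
  have : I ≤ 2 * a := by
    refine le_of_forall_pos_le_add fun ε hε => ?_
    set t : ℝ := min (1 / (a + 1)) (ε / (2 * a ^ 2 + 1)) with ht
    have ht0 : 0 < t := by positivity
    have ht1 : t * a ≤ 1 := by
      have : t ≤ 1 / (a + 1) := min_le_left _ _
      rw [le_div_iff₀ (by positivity)] at this
      nlinarith
    have ht2 : t * (2 * a ^ 2 + 1) ≤ ε := by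
      have : t ≤ ε / (2 * a ^ 2 + 1) := min_le_right _ _
      rwa [le_div_iff₀ (by positivity)] at this
    have h3 := key (√t)
    rw [sq_sqrt ht0.le] at h3
    have h4 := abs_exp_sub_one_sub_id_le (x := t * a) (by rw [abs_of_nonneg (by positivity)]; exact ht1)
    have h5 := (abs_le.1 h4).2
    have h6 : t * I ≤ t * (2 * a + ε) := by nlinarith [sq_nonneg t, sq_nonneg a]
    exact le_of_mul_le_mul_left h6 ht0
  linarith [ha]

lemma pk_mul_eq {s t : ℝ} (hs : 0 < s) (ht : 0 < t) (a b y : E) :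
    pk s (a - y) * pk t (y - b) = pk (s + t) (a - b) *
      pk (s * t / (s + t)) (y - ((t / (s + t)) • a + (s / (s + t)) • b)) := by
  unfold pk
  have : -‖a - y‖ ^ 2 / (4 * s) + -‖y - b‖ ^ 2 / (4 * t) = -‖a - b‖ ^ 2 / (4 * (s + t)) +
      -‖y - ((t / (s + t)) • a + (s / (s + t)) • b)‖ ^ 2 / (4 * (s * t / (s + t))) := by
    simp only [nsq, PiLp.sub_apply, PiLp.add_apply, PiLp.smul_apply, smul_eq_mul]
    field_simp
    ring
  have h2 : (4 * π * s)⁻¹ * (4 * π * t)⁻¹ = (4 * π * (s + t))⁻¹ * (4 * π * (s * t / (s + t)))⁻¹ := by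
    field_simp
  rw [mul_mul_mul_comm, ← exp_add, this, exp_add, h2]
  ring

lemma pk_ck_int {s t : ℝ} (hs : 0 < s) (ht : 0 < t) (a b : E) :
    Integrable (fun y => pk s (a - y) * pk t (y - b)) := by
  simp_rw [pk_mul_eq hs ht]
  exact ((pk_int (by positivity)).comp_sub_right _).const_mul _

lemma pk_ck {s t : ℝ} (hs : 0 < s) (ht : 0 < t) (a b : E) :
    ∫ y, pk s (a - y) * pk t (y - b) = pk (s + t) (a - b) := by
  simp_rw [pk_mul_eq hs ht]
  rw [integral_const_mul, integral_sub_right_eq_self (pk _), pk_mass (by positivity), mul_one]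

noncomputable def pe (h : ℝ) (z : E) : ℝ≥0∞ := ENNReal.ofReal (pk h z)

@[fun_prop] lemma pe_meas (h : ℝ) : Measurable (pe h) := by unfold pe; fun_prop

lemma pe_ck {s t : ℝ} (hs : 0 < s) (ht : 0 < t) (a b : E) :
    ∫⁻ y, pe s (a - y) * pe t (y - b) = pe (s + t) (a - b) := by
  unfold pe
  simp_rw [← ENNReal.ofReal_mul (pk_pos hs _).le]
  rw [← ofReal_integral_eq_lintegral_ofReal (pk_ck_int hs ht a b)
    (Eventually.of_forall fun y => (mul_pos (pk_pos hs _) (pk_pos ht _)).le), pk_ck hs ht]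

lemma pe_mass {h : ℝ} (hh : 0 < h) : ∫⁻ z, pe h z = 1 := by
  unfold pe
  rw [← ofReal_integral_eq_lintegral_ofReal (pk_int hh)
    (Eventually.of_forall fun y => (pk_pos hh _).le), pk_mass hh, ENNReal.ofReal_one]

lemma pk_smul {h s : ℝ} (hs : 0 < s) (z : E) : pk (s ^ 2 * h) (s • z) = (s ^ 2)⁻¹ * pk h z := by
  unfold pk
  rw [norm_smul, Real.norm_eq_abs, mul_pow, sq_abs]
  rcases eq_or_ne h 0 with rfl | hh
  · simp
  have : -(s ^ 2 * ‖z‖ ^ 2) / (4 * (s ^ 2 * h)) = -‖z‖ ^ 2 / (4 * h) := by field_simp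
  rw [this]
  field_simp

lemma hasDerivAt_posSq (x : ℝ) : HasDerivAt (fun x : ℝ => max x 0 ^ 2) (2 * max x 0) x := by
  rcases lt_trichotomy x 0 with hx | rfl | hx
  · have : (fun x : ℝ => max x 0 ^ 2) =ᶠ[𝓝 x] fun _ => 0 := by
      filter_upwards [gt_mem_nhds hx] with y hy
      simp [max_eq_right hy.le]
    rw [max_eq_right hx.le, mul_zero]
    exact (hasDerivAt_const x (0 : ℝ)).congr_of_eventuallyEq this
  · rw [hasDerivAt_iff_isLittleO_nhds_zero]
    simp only [zero_add, max_self, mul_zero, smul_zero, sub_zero, ne_eq, OfNat.ofNat_ne_zero,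
      not_false_eq_true, zero_pow]
    refine Asymptotics.IsBigO.trans_isLittleO (g := fun x : ℝ => x ^ 2) ?_ ?_
    · refine Asymptotics.IsBigO.of_bound 1 (Eventually.of_forall fun y => ?_)
      rw [one_mul, Real.norm_of_nonneg (sq_nonneg _), Real.norm_of_nonneg (sq_nonneg _)]
      rcases le_total y 0 with hy | hy
      · simp [max_eq_right hy, sq_nonneg]
      · simp [max_eq_left hy]
    · simpa using Asymptotics.isLittleO_pow_pow (𝕜 := ℝ) (show 1 < 2 by norm_num)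
  · have : (fun x : ℝ => max x 0 ^ 2) =ᶠ[𝓝 x] fun y => y ^ 2 := by
      filter_upwards [lt_mem_nhds hx] with y hy
      simp [max_eq_left hy.le]
    rw [max_eq_left hx.le]
    simpa using (hasDerivAt_pow 2 x).congr_of_eventuallyEq this

lemma contDiff_posSq : ContDiff ℝ 1 (fun x : ℝ => max x 0 ^ 2) := by
  rw [contDiff_one_iff_deriv]
  refine ⟨fun x => (hasDerivAt_posSq x).differentiableAt, ?_⟩
  have : deriv (fun x : ℝ => max x 0 ^ 2) = fun x => 2 * max x 0 :=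
    funext fun x => (hasDerivAt_posSq x).deriv
  rw [this]
  fun_prop

end Pool.Agent.Lib.MP_2d4879_an
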