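import Pool.Agent.Lib.MP_2d4879_an.Cases

namespace Pool.Agent.Lib.MP_2d4879_an

open MeasureTheory Real Filter Topology Set

def Cong (Ω Ω' : Set E) : Prop := ∃ (O : E ≃ₗᵢ[ℝ] E) (c : E), ∀ z, z ∈ Ω ↔ O z + c ∈ Ω'

noncomputable def mot (O : E ≃ₗᵢ[ℝ] E) (c : E) : E ≃ᵢ E :=
  O.toIsometryEquiv.trans (IsometryEquiv.addRight c)

lemma mot_apply (O : E ≃ₗᵢ[ℝ] E) (c z : E) : mot O c z = O z + c := rfl

lemma Cong.refl (Ω : Set E) : Cong Ω Ω := ⟨LinearIsometryEquiv.refl ℝ E, 0, fun z => by simp⟩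

lemma Cong.symm {Ω Ω' : Set E} (h : Cong Ω Ω') : Cong Ω' Ω := by
  obtain ⟨O, c, h⟩ := h
  exact ⟨O.symm, -O.symm c, fun z => by rw [h]; simp⟩

lemma Cong.trans {Ω Ω' Ω'' : Set E} (h : Cong Ω Ω') (h' : Cong Ω' Ω'') : Cong Ω Ω'' := by
  obtain ⟨O, c, h⟩ := h
  obtain ⟨O', c', h'⟩ := h'
  exact ⟨O.trans O', O' c + c', fun z => by rw [h, h']; simp [add_assoc]⟩

lemma Cong.image {Ω Ω' : Set E} (h : Cong Ω Ω') : ∃ φ : E ≃ᵢ E, φ '' Ω = Ω' := by
  obtain ⟨O, c, h⟩ := h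
  refine ⟨mot O c, ?_⟩
  rw [show Ω = mot O c ⁻¹' Ω' from Set.ext h]
  exact image_preimage_eq _ (mot O c).surjective

lemma Cong.interior {Ω Ω' : Set E} (h : Cong Ω Ω') : Cong (interior Ω) (interior Ω') := by
  obtain ⟨O, c, h⟩ := h
  refine ⟨O, c, fun z => ?_⟩
  rw [show Ω = (mot O c).toHomeomorph ⁻¹' Ω' from Set.ext h, ← Homeomorph.preimage_interior]
  rfl

lemma cong_hull (O : E ≃ₗᵢ[ℝ] E) (c : E) (s : Set E) :
    Cong (convexHull ℝ s) (convexHull ℝ ((fun z => O z + c) '' s)) := by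
  refine ⟨O, c, fun z => ?_⟩
  have := (O.toLinearEquiv.toLinearMap.toAffineMap + AffineMap.const ℝ E c).image_convexHull s
  change (fun z => O z + c) '' _ = convexHull ℝ ((fun z => O z + c) '' s) at this
  rw [← this]
  exact ((mot O c).injective.mem_set_image).symm

lemma Cong.adm_sub {Ω Ω' : Set E} (h : Cong Ω Ω') (k : ℕ) : adm Ω' k ⊆ adm Ω k := by
  obtain ⟨O, c, h⟩ := h
  rintro r ⟨V, hV, hf⟩
  let A : E ≃ₜ E := (mot O c).toHomeomorph
  have hint : ∀ F : E → ℝ, ∫ y, F (O y + c) = ∫ x, F x := fun F =>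
    (O.measurePreserving.integral_comp O.toHomeomorph.measurableEmbedding
      fun y => F (y + c)).trans (integral_add_right_eq_self F c)
  have hinj := LinearMap.funLeft_injective_of_surjective ℝ ℝ A A.surjective
  refine ⟨V.map (LinearMap.funLeft ℝ ℝ A), ?_, ?_⟩
  · rw [← hV]; exact (Submodule.equivMapOfInjective _ hinj V).finrank_eq.symm
  rintro _ ⟨f, hfV, rfl⟩
  obtain ⟨h1, h2, h3, h4⟩ := hf f hfV
  change ContDiff ℝ 1 (f ∘ A) ∧ HasCompactSupport (f ∘ A) ∧ tsupport (f ∘ A) ⊆ Ω ∧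
    ∫ x, ‖fderiv ℝ (f ∘ A) x‖ ^ 2 ≤ r * ∫ x, f (O x + c) ^ 2
  refine ⟨h1.comp (show ContDiff ℝ 1 fun y : E => O y + c from O.contDiff.add contDiff_const),
    h2.comp_homeomorph A,
    fun y hy => (h y).2 (h3 (tsupport_comp_subset_preimage f A.continuous hy)), ?_⟩
  have h5 : ∀ y, ‖fderiv ℝ (f ∘ A) y‖ ^ 2 = ‖fderiv ℝ f (O y + c)‖ ^ 2 := by
    intro y
    have h6 : HasFDerivAt A (O : E →L[ℝ] E) y :=
      (O.toContinuousLinearEquiv.hasFDerivAt (x := y)).add_const c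
    rw [(((h1.differentiable one_ne_zero) (A y)).hasFDerivAt.comp y h6).fderiv]
    exact congrArg (· ^ 2) (ContinuousLinearMap.opNorm_comp_linearIsometryEquiv _ O)
  simp_rw [h5]
  rw [hint (fun x => ‖fderiv ℝ f x‖ ^ 2), hint (fun x => f x ^ 2)]
  exact h4

lemma Cong.adm_eq {Ω Ω' : Set E} (h : Cong Ω Ω') (k : ℕ) : adm Ω k = adm Ω' k :=
  (h.symm.adm_sub k).antisymm (h.adm_sub k)

lemma convex_aff (a b c : ℝ) : Convex ℝ {p : E | a * p 0 + b * p 1 ≤ c} :=
  convex_halfSpace_le (f := fun p : E => a * p 0 + b * p 1)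
    ⟨fun x y => by simp; ring, fun t x => by simp; ring⟩ c

lemma convex_aff' (a b c : ℝ) : Convex ℝ {p : E | a * p 0 + b * p 1 < c} :=
  convex_halfSpace_lt (f := fun p : E => a * p 0 + b * p 1)
    ⟨fun x y => by simp; ring, fun t x => by simp; ring⟩ c

lemma lt_of_int {K : Set E} {a b c : ℝ} (hab : 0 < a ^ 2 + b ^ 2)
    (hK : ∀ p ∈ K, a * p 0 + b * p 1 ≤ c) {p : E} (hp : p ∈ interior K) :
    a * p 0 + b * p 1 < c := by
  have h1 : Tendsto (fun t : ℝ => p + t • (!₂[a, b] : E)) (𝓝[>] 0) (𝓝 p) := by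
    refine tendsto_nhdsWithin_of_tendsto_nhds (Continuous.tendsto' (by fun_prop) _ _ (by simp))
  obtain ⟨t, h2, h3⟩ := ((h1.eventually (mem_interior_iff_mem_nhds.1 hp)).and
    self_mem_nhdsWithin).exists
  have := hK _ h2
  simp only [PiLp.add_apply, PiLp.smul_apply, Matrix.cons_val_zero, Matrix.cons_val_one,
    smul_eq_mul] at this
  nlinarith [mul_pos (show 0 < t from h3) hab]

lemma open_trap (h B x y : ℝ) : IsOpen (Trap h B x y) := by
  refine IsOpen.and ?_ (IsOpen.and ?_ (IsOpen.and ?_ ?_)) <;>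
    exact isOpen_lt (by fun_prop) (by fun_prop)

lemma dom_trap {h B x y : ℝ} (hh : 0 < h) (hB : 0 < B) (hb : 0 < B - (x - y) * h) :
    Dom (Trap h B x y) := by
  refine ⟨open_trap _ _ _ _, ?_, ?_, ⟨!₂[(B + (x + y) * h / 2) / 2, h / 2], ?_⟩⟩
  · convert (convex_aff' 0 (-1) 0).inter ((convex_aff' 0 1 h).inter ((convex_aff' (-1) x 0).inter
      (convex_aff' 1 (-y) B))) using 1
    ext p
    simp only [Trap, mem_ofPred_eq, mem_inter_iff]
    constructor <;> rintro ⟨h1, h2, h3, h4⟩ <;> refine ⟨?_, ?_, ?_, ?_⟩ <;> linarith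
  · refine (Metric.isBounded_closedBall (x := (0 : E)) (r := B + (|x| + |y|) * h + h)).subset ?_
    rintro p ⟨h1, h2, h3, h4⟩
    rw [mem_closedBall_zero_iff, ← sq_le_sq₀ (norm_nonneg _) (by positivity), nsq]
    have k1 : |p 0| ≤ B + (|x| + |y|) * h := by
      have := abs_nonneg x
      have := abs_nonneg y
      refine abs_le.2 ⟨?_, ?_⟩
      · nlinarith [neg_abs_le x]
      · nlinarith [le_abs_self y]
    have k2 := sq_le_sq' (abs_le.1 k1).1 (abs_le.1 k1).2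
    have k3 : 0 ≤ B + (|x| + |y|) * h := by positivity
    nlinarith
  · simp only [Trap, mem_ofPred_eq, Matrix.cons_val_zero, Matrix.cons_val_one]
    refine ⟨?_, ?_, ?_, ?_⟩ <;> linarith

lemma int_hull {h B x y : ℝ} (hh : 0 < h) (hB : 0 < B) (hb : 0 < B - (x - y) * h) :
    interior (convexHull ℝ ({!₂[0, 0], !₂[B, 0], !₂[B + y * h, h], !₂[x * h, h]} : Set E)) =
      Trap h B x y := by
  set K := convexHull ℝ ({!₂[0, 0], !₂[B, 0], !₂[B + y * h, h], !₂[x * h, h]} : Set E)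
  have key : ∀ a b c : ℝ, 0 < a ^ 2 + b ^ 2 → 0 ≤ c → a * B ≤ c → a * (B + y * h) + b * h ≤ c →
      a * (x * h) + b * h ≤ c → ∀ p ∈ interior K, a * p 0 + b * p 1 < c := by
    intro a b c h0 h1 h2 h3 h4 p hp
    refine lt_of_int h0 (convexHull_min ?_ (convex_aff a b c)) hp
    rintro q (rfl | rfl | rfl | rfl) <;> change _ ≤ c <;> simpa
  refine Subset.antisymm (fun p hp => ⟨?_, ?_, ?_, ?_⟩) (interior_maximal ?_ (open_trap _ _ _ _))
  · linarith [key 0 (-1) 0 (by norm_num) le_rfl (by simp) (by linarith) (by linarith) p hp]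
  · linarith [key 0 1 h (by norm_num) hh.le (by linarith) (by linarith) (by linarith) p hp]
  · linarith [key (-1) x 0 (by positivity) le_rfl (by linarith) (by linarith) (by linarith) p hp]
  · linarith [key 1 (-y) B (by positivity) hB.le (by linarith) (by linarith) (by linarith) p hp]
  rintro p ⟨h1, h2, h3, h4⟩
  have hK : Convex ℝ K := convex_convexHull _ _
  have l0 : 0 ≤ p 1 / h := by positivity
  have l1 : 0 ≤ 1 - p 1 / h := sub_nonneg.2 ((div_le_one hh).2 h2.le)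
  have k1 := hK (subset_convexHull _ _ (show (!₂[0, 0] : E) ∈ _ by simp))
    (subset_convexHull _ _ (show (!₂[x * h, h] : E) ∈ _ by simp)) l1 l0 (by ring)
  have k2 := hK (subset_convexHull _ _ (show (!₂[B, 0] : E) ∈ _ by simp))
    (subset_convexHull _ _ (show (!₂[B + y * h, h] : E) ∈ _ by simp)) l1 l0 (by ring)
  obtain ⟨w, hw⟩ : ∃ w, w = B + y * p 1 - x * p 1 := ⟨_, rfl⟩
  have w0 : 0 < w := by linarith
  have k3 := hK k1 k2 (a := (B + y * p 1 - p 0) / w) (b := (p 0 - x * p 1) / w)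
    (div_nonneg (by linarith) w0.le) (div_nonneg (by linarith) w0.le) (by field_simp; linarith)
  convert k3 using 1
  ext i
  fin_cases i <;> simp <;> field_simp <;> rw [hw] <;> ring

lemma flipV (h B x y : ℝ) : Cong (Trap h B x y) (Trap h (B - (x - y) * h) (-x) (-y)) := by
  refine ⟨ort 1 0 0 (-1) (by norm_num) (by norm_num) (by norm_num), !₂[-x * h, h], fun z => ?_⟩
  simp only [Trap, mem_ofPred_eq, PiLp.add_apply, ort_0, ort_1, Matrix.cons_val_zero,
    Matrix.cons_val_one]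
  constructor <;> rintro ⟨h1, h2, h3, h4⟩ <;> refine ⟨?_, ?_, ?_, ?_⟩ <;> linarith

lemma flipH (h B x y : ℝ) : Cong (Trap h B x y) (Trap h B (-y) (-x)) := by
  refine ⟨ort (-1) 0 0 1 (by norm_num) (by norm_num) (by norm_num), !₂[B, 0], fun z => ?_⟩
  simp only [Trap, mem_ofPred_eq, PiLp.add_apply, ort_0, ort_1, Matrix.cons_val_zero,
    Matrix.cons_val_one]
  constructor <;> rintro ⟨h1, h2, h3, h4⟩ <;> refine ⟨?_, ?_, ?_, ?_⟩ <;> linarith

lemma flipP (h B x : ℝ) : Cong (Trap h B x x) (Trap (B / sg x) (h * sg x) x x) := by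
  have hs := sg_pos x
  have h2 := sg_sq x
  refine ⟨ort (x / sg x) (1 / sg x) (1 / sg x) (-x / sg x) (by field_simp; linarith)
    (by field_simp; linarith) (by ring), 0, fun z => ?_⟩
  simp only [Trap, mem_ofPred_eq, add_zero, ort_0, ort_1]
  have e1 : 1 / sg x * z 0 + -x / sg x * z 1 = (z 0 - x * z 1) / sg x := by ring
  have e2 : x / sg x * z 0 + 1 / sg x * z 1 = z 1 * sg x + x * ((z 0 - x * z 1) / sg x) := by
    field_simp; rw [h2]; ring
  rw [e1, e2, div_lt_div_iff_of_pos_right hs, div_pos_iff_of_pos_right hs, lt_add_iff_pos_left,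
    add_lt_add_iff_right, mul_pos_iff_of_pos_right hs, mul_lt_mul_iff_left₀ hs]
  constructor <;> rintro ⟨h1, h2, h3, h4⟩ <;> refine ⟨?_, ?_, ?_, ?_⟩ <;> linarith

lemma normal {h B x y : ℝ} (hh : 0 < h) (hB : 0 < B) (hb : 0 < B - (x - y) * h) :
    ∃ T : Tz, Cong (Trap h B x y) (Trap T.h T.B T.x T.y) := by
  wlog h1 : y ≤ x generalizing B x y
  · obtain ⟨T, hT⟩ := this (B := B - (x - y) * h) (x := -x) (y := -y) hb (by linarith)
      (by linarith)
    exact ⟨T, (flipV _ _ _ _).trans hT⟩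
  wlog h2 : -y ≤ x generalizing x y
  · obtain ⟨T, hT⟩ := this (x := -y) (y := -x) (by linarith) (by linarith) (by linarith)
    exact ⟨T, (flipH _ _ _ _).trans hT⟩
  have h3 : |y| ≤ x := abs_le.2 ⟨by linarith, h1⟩
  by_cases h4 : x = y → h * sg x ≤ B
  · exact ⟨⟨h, B, x, y, hh, h3, hb, h4⟩, Cong.refl _⟩
  push Not at h4
  obtain ⟨rfl, h4⟩ := h4
  have hs := sg_pos x
  exact ⟨⟨B / sg x, h * sg x, x, x, by positivity, h3, by simpa using mul_pos hh hs,
    fun _ => by rw [div_mul_cancel₀ _ hs.ne']; exact h4.le⟩, flipP _ _ _⟩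

lemma quad_cong {A B C D : E} {t : ℝ} (ht : 0 < t) (hi : AffineIndependent ℝ ![A, B, D])
    (hC : C - D = t • (B - A)) :
    ∃ T : Tz, Cong (interior (convexHull ℝ {A, B, C, D})) (Trap T.h T.B T.x T.y) := by
  set u := B - A with hu
  set v := D - A with hv
  have hd : u 0 * v 1 - u 1 * v 0 ≠ 0 := by
    intro h0
    rw [affineIndependent_iff_linearIndependent_vsub ℝ _ (0 : Fin 3),
      ← linearIndependent_equiv (finSuccAboveEquiv (0 : Fin 3))] at hi
    have h1 : LinearIndependent ℝ ![u, v] := by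
      have e : ![u, v] = (fun i : {i // i ≠ (0 : Fin 3)} => ![A, B, D] i -ᵥ ![A, B, D] 0) ∘
          finSuccAboveEquiv 0 := by
        ext1 i; fin_cases i <;> rfl
      exact e ▸ hi
    rw [LinearIndependent.pair_iff] at h1
    have k1 := h1 (v 1) (-u 1) (by ext i; fin_cases i <;> simp <;> linarith)
    have k2 := h1 (v 0) (-u 0) (by ext i; fin_cases i <;> simp <;> linarith)
    have k3 := h1 1 0 (by ext i; fin_cases i <;> simp <;> linarith [k1.2, k2.2])
    simp at k3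
  obtain ⟨e, he, hd⟩ : ∃ e : ℝ, e ^ 2 = 1 ∧ 0 < e * (u 0 * v 1 - u 1 * v 0) := by
    rcases lt_or_gt_of_ne hd with k | k
    · exact ⟨-1, by norm_num, by linarith⟩
    · exact ⟨1, by norm_num, by linarith⟩
  have hn := nsq u
  have hp : 0 < ‖u‖ := by
    refine norm_pos_iff.2 fun k => ?_
    simp [k] at hd
  set O := ort (u 0 / ‖u‖) (u 1 / ‖u‖) (-e * u 1 / ‖u‖) (e * u 0 / ‖u‖)
    (by field_simp; linear_combination (u 1 ^ 2) * he - hn)
    (by field_simp; linear_combination (u 0 ^ 2) * he - hn)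
    (by field_simp; linear_combination (-u 0 * u 1) * he) with hO
  have hOu : O u = !₂[‖u‖, 0] := by
    ext i; fin_cases i
    · simp [hO, ort_0]; field_simp; linarith
    · simp [hO, ort_1]; ring
  have hh : 0 < O v 1 := by
    rw [hO, ort_1]
    exact (div_pos hd hp).trans_eq (by ring)
  have hb : 0 < ‖u‖ - (O v 0 / O v 1 - (O v 0 + (t - 1) * ‖u‖) / O v 1) * O v 1 := by
    exact (mul_pos ht hp).trans_eq (by field_simp; ring)
  obtain ⟨T, hT⟩ := normal hh hp hb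
  refine ⟨T, Cong.trans ?_ hT⟩
  rw [← int_hull hh hp hb]
  convert (cong_hull O (-O A) {A, B, C, D}).interior using 3
  simp only [image_insert_eq, image_singleton, ← sub_eq_add_neg, ← map_sub]
  rw [show C - A = v + t • u by rw [← hC]; simp [hv], ← hu, ← hv, map_add, map_smul, hOu]
  congr 1
  · ext i; fin_cases i <;> simp
  congr 2
  · ext i; fin_cases i <;> simp
    field_simp; ring
  · congr 1
    ext i; fin_cases i <;> simp
    field_simp

lemma Tz.dom (T : Tz) : Dom (Trap T.h T.B T.x T.y) :=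
  dom_trap T.hh (by nlinarith [T.hb, mul_nonneg (sub_nonneg.2 T.yx) T.hh.le]) T.hb

theorem trap_hear {T U : Tz} (he : ∀ k, 0 < k → sInf (adm (Trap T.h T.B T.x T.y) k) =
    sInf (adm (Trap U.h U.B U.x U.y) k)) : Trap T.h T.B T.x T.y = Trap U.h U.B U.x U.y := by
  obtain ⟨h1, h2, h3, h4⟩ := tz_eq (T := T) (U := U) fun s hs => EE_heat T.dom U.dom he hs
    (by fun_prop) (by fun_prop) (er_trap _ _ _ _ hs.le) (er_trap _ _ _ _ hs.le)
  rw [h1, h2, h3, h4]

end Pool.Agent.Lib.MP_2d4879_an
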