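import Pool.Agent.Lib.MP_2d4879_an.Tail

namespace Pool.Agent.Lib.MP_2d4879_an

open MeasureTheory Real Filter Topology Set Asymptotics
open scoped InnerProductSpace ENNReal

noncomputable def ort (p q r t : ℝ) (h1 : p ^ 2 + r ^ 2 = 1) (h2 : q ^ 2 + t ^ 2 = 1)
    (h3 : p * q + r * t = 0) : E ≃ₗᵢ[ℝ] E :=
  LinearIsometry.toLinearIsometryEquiv
    { toFun := fun z => !₂[p * z 0 + q * z 1, r * z 0 + t * z 1]
      map_add' := fun x y => by ext i; fin_cases i <;> simp <;> ring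
      map_smul' := fun c x => by ext i; fin_cases i <;> simp <;> ring
      norm_map' := fun z => by
        rw [← sq_eq_sq₀ (norm_nonneg _) (norm_nonneg _), nsq, nsq]
        simp only [LinearMap.coe_mk, AddHom.coe_mk, Matrix.cons_val_zero, Matrix.cons_val_one]
        linear_combination (z 0 ^ 2) * h1 + (z 1 ^ 2) * h2 + (2 * z 0 * z 1) * h3 } rfl

lemma ort_0 {p q r t : ℝ} (h1 h2 h3) (z : E) : ort p q r t h1 h2 h3 z 0 = p * z 0 + q * z 1 := rfl

lemma ort_1 {p q r t : ℝ} (h1 h2 h3) (z : E) : ort p q r t h1 h2 h3 z 1 = r * z 0 + t * z 1 := rfl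

namespace S

def W1 (σ : S) : ℝ := σ.f 1 0 + σ.f (-1) 0

def W2 (σ : S) : ℝ := σ.f 0 1 + σ.f 0 (-1)

lemma W1_nonneg (σ : S) : 0 ≤ σ.W1 := add_nonneg (σ.nonneg _ _) (σ.nonneg _ _)

lemma W2_nonneg (σ : S) : 0 ≤ σ.W2 := add_nonneg (σ.nonneg _ _) (σ.nonneg _ _)

def rot (σ : S) (p q r t : ℝ) : S where
  f a b := σ.f (a * p + b * r) (a * q + b * t)
  add a b a' b' := by
    convert σ.add (a * p + b * r) (a * q + b * t) (a' * p + b' * r) (a' * q + b' * t) using 2 <;>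
      ring
  smul c a b hc := by convert σ.smul c _ _ hc using 2 <;> ring
  nonneg _ _ := σ.nonneg _ _

lemma le2 (σ : S) {a b c d a1 b1 a2 b2 : ℝ} (hc : 0 ≤ c) (hd : 0 ≤ d) (ha : a = c * a1 + d * a2)
    (hb : b = c * b1 + d * b2) : σ.f a b ≤ c * σ.f a1 b1 + d * σ.f a2 b2 := by
  rw [ha, hb, ← σ.smul c _ _ hc, ← σ.smul d _ _ hd]
  exact σ.add _ _ _ _

lemma le_abs (σ : S) (a b : ℝ) : σ.f a b ≤ |a| * σ.W1 + |b| * σ.W2 := by
  have h1 := σ.nonneg 1 0
  have h2 := σ.nonneg (-1) 0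
  have h3 := σ.nonneg 0 1
  have h4 := σ.nonneg 0 (-1)
  unfold W1 W2
  rcases le_total 0 a with ha | ha <;> rcases le_total 0 b with hb | hb
  · have := σ.le2 (a := a) (b := b) (a1 := 1) (b1 := 0) (a2 := 0) (b2 := 1) ha hb
      (by ring) (by ring)
    rw [abs_of_nonneg ha, abs_of_nonneg hb]; nlinarith
  · have := σ.le2 (a := a) (b := b) (a1 := 1) (b1 := 0) (a2 := 0) (b2 := -1) ha (neg_nonneg.2 hb)
      (by ring) (by ring)
    rw [abs_of_nonneg ha, abs_of_nonpos hb]; nlinarith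
  · have := σ.le2 (a := a) (b := b) (a1 := -1) (b1 := 0) (a2 := 0) (b2 := 1) (neg_nonneg.2 ha) hb
      (by ring) (by ring)
    rw [abs_of_nonpos ha, abs_of_nonneg hb]; nlinarith
  · have := σ.le2 (a := a) (b := b) (a1 := -1) (b1 := 0) (a2 := 0) (b2 := -1) (neg_nonneg.2 ha)
      (neg_nonneg.2 hb) (by ring) (by ring)
    rw [abs_of_nonpos ha, abs_of_nonpos hb]; nlinarith

@[ext] lemma ext' {σ τ : S} (h : σ.f = τ.f) : σ = τ := by cases σ; cases τ; congr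

end S

lemma sp_ort {n : ℕ} {p q r t : ℝ} (h1 h2 h3) (y : Fin n → E) :
    sp (fun j => ort p q r t h1 h2 h3 (y j)) = (sp y).rot p q r t := by
  ext a b
  have e := cns_map (ort p q r t h1 h2 h3) 0 y
  simp only [map_zero] at e
  simp only [sp, spf, S.rot, e, ort_0, ort_1]
  congr 1; ext j; ring

@[fun_prop] def Good (Φ : S → ℝ) : Prop :=
  (∀ n, Measurable fun y : Fin n → E => Φ (sp y)) ∧
    ∀ ε > 0, ∃ C, ∀ σ, |Φ σ| ≤ C * exp (ε * (σ.W1 + σ.W2))

namespace Good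
variable {Φ Ψ : S → ℝ}

@[fun_prop] lemma const (c : ℝ) : Good fun _ => c :=
  ⟨fun _ => measurable_const, fun _ hε => ⟨|c|, fun σ => le_mul_of_one_le_right (abs_nonneg _)
    (one_le_exp (mul_nonneg hε.le (add_nonneg σ.W1_nonneg σ.W2_nonneg)))⟩⟩

@[fun_prop] lemma atom (a b : ℝ) : Good fun σ => σ.f a b :=
  ⟨fun n => meas_spf n a b, fun ε hε => ⟨(|a| + |b|) / ε, fun σ => by
    have h1 := σ.le_abs a b
    have h2 := add_one_le_exp (ε * (σ.W1 + σ.W2))
    have h3 := σ.W1_nonneg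
    have h4 := σ.W2_nonneg
    rw [abs_of_nonneg (σ.nonneg a b), div_mul_eq_mul_div, le_div_iff₀ hε]
    have h5 : σ.f a b ≤ (|a| + |b|) * (σ.W1 + σ.W2) := by
      nlinarith [mul_nonneg (abs_nonneg a) h4, mul_nonneg (abs_nonneg b) h3]
    calc _ ≤ (|a| + |b|) * (σ.W1 + σ.W2) * ε := by gcongr
      _ = (|a| + |b|) * (ε * (σ.W1 + σ.W2)) := by ring
      _ ≤ _ := by gcongr; linarith⟩⟩

lemma of_le (hΨ : Good Ψ) (hm : ∀ n, Measurable fun y : Fin n → E => Φ (sp y))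
    (h : ∀ σ, |Φ σ| ≤ Ψ σ) : Good Φ :=
  ⟨hm, fun ε hε => by
    obtain ⟨C, hC⟩ := hΨ.2 ε hε
    exact ⟨C, fun σ => (h σ).trans ((le_abs_self _).trans (hC σ))⟩⟩

@[fun_prop] lemma add (h1 : Good Φ) (h2 : Good Ψ) : Good fun σ => Φ σ + Ψ σ :=
  ⟨fun n => (h1.1 n).add (h2.1 n), fun ε hε => by
    obtain ⟨C, hC⟩ := h1.2 ε hε
    obtain ⟨D, hD⟩ := h2.2 ε hε
    exact ⟨C + D, fun σ => by linarith [abs_add_le (Φ σ) (Ψ σ), hC σ, hD σ]⟩⟩

@[fun_prop] lemma mul (h1 : Good Φ) (h2 : Good Ψ) : Good fun σ => Φ σ * Ψ σ :=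
  ⟨fun n => (h1.1 n).mul (h2.1 n), fun ε hε => by
    obtain ⟨C, hC⟩ := h1.2 (ε / 2) (half_pos hε)
    obtain ⟨D, hD⟩ := h2.2 (ε / 2) (half_pos hε)
    refine ⟨C * D, fun σ => ?_⟩
    rw [abs_mul]
    refine (mul_le_mul (hC σ) (hD σ) (abs_nonneg _) ((abs_nonneg _).trans (hC σ))).trans
      (le_of_eq ?_)
    rw [mul_mul_mul_comm, ← exp_add]; congr 2; ring⟩

@[fun_prop] lemma neg (h1 : Good Φ) : Good fun σ => -Φ σ :=
  ⟨fun n => (h1.1 n).neg, fun ε hε => by simpa using h1.2 ε hε⟩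

@[fun_prop] lemma abs (h1 : Good Φ) : Good fun σ => |Φ σ| :=
  ⟨fun n => (h1.1 n).abs, fun ε hε => by simpa using h1.2 ε hε⟩

@[fun_prop] lemma sub (h1 : Good Φ) (h2 : Good Ψ) : Good fun σ => Φ σ - Ψ σ := by
  simpa [sub_eq_add_neg] using h1.add h2.neg

@[fun_prop] lemma div (h1 : Good Φ) (c : ℝ) : Good fun σ => Φ σ / c := by
  simpa [div_eq_mul_inv] using h1.mul (const c⁻¹)

@[fun_prop] lemma pow (h1 : Good Φ) (k : ℕ) : Good fun σ => Φ σ ^ k := by
  induction k with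
  | zero => simpa using const 1
  | succ k ih => simpa [pow_succ] using ih.mul h1

@[fun_prop] lemma max (h1 : Good Φ) (h2 : Good Ψ) : Good fun σ => max (Φ σ) (Ψ σ) :=
  (h1.abs.add h2.abs).of_le (fun n => (h1.1 n).max (h2.1 n)) fun σ => by
    rcases le_total (Φ σ) (Ψ σ) with h | h
    · rw [max_eq_right h]; linarith [abs_nonneg (Φ σ)]
    · rw [max_eq_left h]; linarith [abs_nonneg (Ψ σ)]

@[fun_prop] lemma W1 : Good fun σ => σ.W1 := (atom _ _).add (atom _ _)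

@[fun_prop] lemma W2 : Good fun σ => σ.W2 := (atom _ _).add (atom _ _)

end Good

noncomputable def En (n : ℕ) (Φ : S → ℝ) : ℝ := ∫ y, Φ (sp y) ∂nu n

lemma En_rot (n : ℕ) {p q r t : ℝ} (h1 : p ^ 2 + r ^ 2 = 1) (h2 : q ^ 2 + t ^ 2 = 1)
    (h3 : p * q + r * t = 0) (Φ : S → ℝ) : En n (fun σ => Φ (σ.rot p q r t)) = En n Φ := by
  unfold En
  rw [← nu_iso_int (ort p q r t h1 h2 h3) fun y => Φ (sp y)]
  simp_rw [sp_ort]

lemma exp_W1 : ∃ C, ∀ n, Integrable (fun y : Fin n → E => exp (sp y).W1) (nu n) ∧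
    En n (fun σ => exp σ.W1) ≤ C := by
  refine ⟨exp 2 + exp 2 * (2 * exp 4 * ((2 * 1 + 4) * exp (-1 ^ 2))), fun n => ?_⟩
  obtain ⟨h1, h2⟩ := int_tl n one_pos
  have h3 : ∀ y : Fin n → E, exp (sp y).W1 ≤ exp 2 + exp 2 * tl (1 + 1) (wd y) := by
    intro y
    change exp (wd y) ≤ _
    unfold tl
    split_ifs with h
    · rw [← exp_add]; norm_num; positivity
    · rw [mul_zero, add_zero]; exact exp_le_exp.2 (by linarith)
  have h4 : Integrable (fun y : Fin n → E => exp 2 + exp 2 * tl (1 + 1) (wd y)) (nu n) :=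
    (integrable_const _).add (h1.const_mul _)
  refine ⟨h4.mono' (meas_wd n).exp.aestronglyMeasurable (Eventually.of_forall fun y => ?_),
    (integral_mono_of_nonneg (Eventually.of_forall fun y => (exp_pos _).le) h4
      (Eventually.of_forall h3)).trans ?_⟩
  · rw [Real.norm_of_nonneg (exp_pos _).le]; exact h3 y
  · rw [integral_add (integrable_const _) (h1.const_mul _), integral_const_mul]
    simp only [integral_const, probReal_univ, smul_eq_mul, one_mul]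
    gcongr

lemma rot_swap_W1 (σ : S) : (σ.rot 0 1 1 0).W1 = σ.W2 := by simp [S.rot, S.W1, S.W2]

lemma Good.int_bd {Φ : S → ℝ} (h : Good Φ) :
    ∃ C, ∀ n, Integrable (fun y : Fin n → E => Φ (sp y)) (nu n) ∧ |En n Φ| ≤ C := by
  obtain ⟨C, hC⟩ := exp_W1
  obtain ⟨D, hD⟩ := h.2 (1 / 2) (by norm_num)
  refine ⟨|D| * (C + C), fun n => ?_⟩
  have i1 := (hC n).1
  have i2 : Integrable (fun y : Fin n → E => exp (sp y).W2) (nu n) := by
    have := ((nu_iso (n := n) (ort 0 1 1 0 (by norm_num) (by norm_num)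
      (by norm_num))).integrable_comp i1.aestronglyMeasurable).2 i1
    simpa only [Function.comp_def, sp_ort, rot_swap_W1] using this
  have e2 : En n (fun σ => exp σ.W2) = En n (fun σ => exp σ.W1) := by
    rw [← En_rot n (p := 0) (q := 1) (r := 1) (t := 0) (by norm_num) (by norm_num) (by norm_num)
      (fun σ => exp σ.W1)]
    simp_rw [rot_swap_W1]
  have h3 : ∀ y : Fin n → E, ‖Φ (sp y)‖ ≤ |D| * (exp (sp y).W1 + exp (sp y).W2) := by
    intro y
    refine (hD _).trans (mul_le_mul (le_abs_self _) ?_ (exp_pos _).le (abs_nonneg _))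
    rcases le_total (sp y).W1 (sp y).W2 with h | h
    · linarith [exp_le_exp.2 (show 1 / 2 * ((sp y).W1 + (sp y).W2) ≤ (sp y).W2 by linarith),
        exp_pos (sp y).W1]
    · linarith [exp_le_exp.2 (show 1 / 2 * ((sp y).W1 + (sp y).W2) ≤ (sp y).W1 by linarith),
        exp_pos (sp y).W2]
  have i3 : Integrable (fun y : Fin n → E => |D| * (exp (sp y).W1 + exp (sp y).W2)) (nu n) :=
    (i1.add i2).const_mul _
  refine ⟨i3.mono' (h.1 n).aestronglyMeasurable (Eventually.of_forall h3),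
    (norm_integral_le_of_norm_le i3 (Eventually.of_forall h3)).trans ?_⟩
  rw [integral_const_mul, integral_add i1 i2]
  have := (hC n).2
  unfold En at e2 this
  rw [e2]
  gcongr

lemma Good.int {Φ : S → ℝ} (h : Good Φ) (n : ℕ) :
    Integrable (fun y : Fin n → E => Φ (sp y)) (nu n) := (h.int_bd.choose_spec n).1

noncomputable def EE (Φ : S → ℝ) : ℝ := limUnder (hyperfilter ℕ) fun j => En (4 * j + 3) Φ

lemma Good.lim {Φ : S → ℝ} (h : Good Φ) :
    Tendsto (fun j => En (4 * j + 3) Φ) (hyperfilter ℕ) (𝓝 (EE Φ)) := by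
  obtain ⟨C, hC⟩ := h.int_bd
  obtain ⟨x, -, hx⟩ := (isCompact_Icc (a := -C) (b := C)).ultrafilter_le_nhds
    ((hyperfilter ℕ).map fun j => En (4 * j + 3) Φ) (by
      rw [Ultrafilter.coe_map, ← Tendsto, tendsto_principal]
      exact Eventually.of_forall fun j => abs_le.1 (hC _).2)
  exact tendsto_nhds_limUnder ⟨x, hx⟩

variable {Φ Ψ : S → ℝ}

lemma EE_const (c : ℝ) : EE (fun _ => c) = c := by
  refine tendsto_nhds_unique (Good.const c).lim ?_
  simp [En]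

lemma EE_add (h1 : Good Φ) (h2 : Good Ψ) : EE (fun σ => Φ σ + Ψ σ) = EE Φ + EE Ψ :=
  tendsto_nhds_unique (h1.add h2).lim ((h1.lim.add h2.lim).congr fun _ =>
    (integral_add (h1.int _) (h2.int _)).symm)

lemma EE_sub (h1 : Good Φ) (h2 : Good Ψ) : EE (fun σ => Φ σ - Ψ σ) = EE Φ - EE Ψ :=
  tendsto_nhds_unique (h1.sub h2).lim ((h1.lim.sub h2.lim).congr fun _ =>
    (integral_sub (h1.int _) (h2.int _)).symm)

lemma EE_mul (c : ℝ) (h1 : Good Φ) : EE (fun σ => c * Φ σ) = c * EE Φ :=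
  tendsto_nhds_unique ((Good.const c).mul h1).lim ((h1.lim.const_mul c).congr fun _ =>
    (integral_const_mul _ _).symm)

lemma EE_mono' (h1 : Good Φ) (h2 : Good Ψ) (h : ∀ j, En (4 * j + 3) Φ ≤ En (4 * j + 3) Ψ) :
    EE Φ ≤ EE Ψ := le_of_tendsto_of_tendsto' h1.lim h2.lim h

lemma EE_mono (h1 : Good Φ) (h2 : Good Ψ) (h : ∀ σ, Φ σ ≤ Ψ σ) : EE Φ ≤ EE Ψ :=
  EE_mono' h1 h2 fun _ => integral_mono (h1.int _) (h2.int _) fun _ => h _

lemma EE_nonneg (h1 : Good Φ) (h : ∀ σ, 0 ≤ Φ σ) : 0 ≤ EE Φ :=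
  (EE_const 0).ge.trans (EE_mono (Good.const 0) h1 h)

lemma EE_rot {p q r t : ℝ} (h1 : p ^ 2 + r ^ 2 = 1) (h2 : q ^ 2 + t ^ 2 = 1)
    (h3 : p * q + r * t = 0) (h : ∀ σ, Ψ σ = Φ (σ.rot p q r t)) : EE Ψ = EE Φ := by
  rw [show Ψ = fun σ => Φ (σ.rot p q r t) from funext h]
  unfold EE
  simp_rw [En_rot _ h1 h2 h3]

lemma EE_indep {f g : ℝ → ℝ}
    (h1 : Good fun σ => f σ.W1) (h2 : Good fun σ => g σ.W2) :
    EE (fun σ => f σ.W1 * g σ.W2) = EE (fun σ => f σ.W1) * EE (fun σ => g σ.W2) := by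
  refine tendsto_nhds_unique (h1.mul h2).lim ((h1.lim.mul h2.lim).congr fun j => ?_)
  set n := 4 * j + 3
  have m : Measurable fun (x : Fin n → ℝ) j => (!₂[x j, x j] : E) := by
    refine Continuous.measurable ?_
    fun_prop
  have e : ∀ (y : Fin n → E) (i : Fin 2) (a b : ℝ), spf (fun j => !₂[y j i, y j i]) a b =
      ⨆ j, (a + b) * cns 0 y j i := by
    intro y i a b
    have e0 : (!₂[(0 : E) i, (0 : E) i] : E) = 0 := by ext k; fin_cases k <;> simp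
    have e1 := cns_map (fun z => !₂[z i, z i]) 0 y
    simp only [e0] at e1
    simp [spf, e1, add_mul]
  have := ((nu_indep n).comp ((h1.1 n).comp m) ((h2.1 n).comp m)).integral_fun_mul_eq_mul_integral
    (((h1.1 n).comp m).comp (by fun_prop)).aestronglyMeasurable
    (((h2.1 n).comp m).comp (by fun_prop)).aestronglyMeasurable
  have e1 : ∀ y : Fin n → E, (sp fun j => (!₂[y j 0, y j 0] : E)).W1 = (sp y).W1 := by
    intro y; simp only [S.W1, sp, e]; simp [spf]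
  have e2 : ∀ y : Fin n → E, (sp fun j => (!₂[y j 1, y j 1] : E)).W2 = (sp y).W2 := by
    intro y; simp only [S.W2, sp, e]; simp [spf]
  simp only [Function.comp_def, e1, e2] at this
  exact this.symm

theorem EE_heat {D D' : Set E} (hD : Dom D) (hD' : Dom D')
    (he : ∀ k, 0 < k → sInf (adm D k) = sInf (adm D' k)) {s : ℝ} (hs : 0 < s)
    (h1 : Good Φ) (h2 : Good Ψ) (e1 : ∀ n (y : Fin n → E), er D s y = Φ (sp y))
    (e2 : ∀ n (y : Fin n → E), er D' s y = Ψ (sp y)) : EE Φ = EE Ψ := by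
  have h3 := (er_lim hD hD' he hs).mono_left Nat.hyperfilter_le_atTop
  simp_rw [e1, e2] at h3
  exact sub_eq_zero.1 (tendsto_nhds_unique (h1.lim.sub h2.lim) h3)

end Pool.Agent.Lib.MP_2d4879_an
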