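import Pool.Agent.Lib.MP_2d4879_an.Form

namespace Pool.Agent.Lib.MP_2d4879_an

open MeasureTheory Real Filter Topology
open scoped InnerProductSpace ENNReal Convolution

noncomputable def gg (h : ℝ) (z : E) : ℝ := exp (-‖z‖ ^ 2 / (8 * h))

noncomputable def rho (h ε : ℝ) (z : E) : ℝ := (4 * π * h)⁻¹ * max (gg h z - ε) 0 ^ 2

noncomputable def drho (h ε : ℝ) (z v : E) : ℝ :=
  -((4 * π * h)⁻¹ * max (gg h z - ε) 0 * gg h z * (⟪v, z⟫_ℝ / (2 * h)))

noncomputable def mol (h ε : ℝ) (f : E → ℝ) (x : E) : ℝ := ∫ t, f t * rho h ε (x - t)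

section
variable {h ε : ℝ} {f : E → ℝ}

lemma gg_pos (h : ℝ) (z : E) : 0 < gg h z := exp_pos _

lemma pk_eq_gg (h : ℝ) (z : E) : pk h z = (4 * π * h)⁻¹ * gg h z ^ 2 := by
  unfold pk gg
  rw [← exp_nat_mul]
  congr 2; push_cast; ring

lemma pk_two_eq_gg (h : ℝ) (z : E) : pk (2 * h) z = (4 * π * h)⁻¹ * gg h z / 2 := by
  unfold pk gg
  rw [show 4 * (2 * h) = 8 * h by ring, show 4 * π * (2 * h) = 4 * π * h * 2 by ring, mul_inv]
  ring

lemma rho_nonneg (hh : 0 < h) (z : E) : 0 ≤ rho h ε z := by unfold rho; positivity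

lemma max_le_gg (hε : 0 < ε) (z : E) : max (gg h z - ε) 0 ≤ gg h z :=
  max_le (by linarith) (gg_pos h z).le

lemma rho_le (hh : 0 < h) (hε : 0 < ε) (z : E) : rho h ε z ≤ pk h z := by
  rw [pk_eq_gg, rho]
  gcongr
  exact max_le_gg hε z

lemma le_rho (hh : 0 < h) (hε : 0 < ε) (z : E) : pk h z - 4 * ε * pk (2 * h) z ≤ rho h ε z := by
  rw [pk_eq_gg h, pk_two_eq_gg, rho]
  have h1 : gg h z ^ 2 - 2 * ε * gg h z ≤ max (gg h z - ε) 0 ^ 2 := by
    have := gg_pos h z
    rcases le_total (gg h z - ε) 0 with h2 | h2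
    · rw [max_eq_right h2]; nlinarith
    · rw [max_eq_left h2]; nlinarith
  have h2 : 0 < (4 * π * h)⁻¹ := by positivity
  nlinarith

lemma gg_contDiff (h : ℝ) : ContDiff ℝ 1 (gg h) := by
  unfold gg
  exact ((contDiff_norm_sq ℝ).neg.div_const _).exp

lemma rho_contDiff (h ε : ℝ) : ContDiff ℝ 1 (rho h ε) :=
  contDiff_const.mul (contDiff_posSq.comp ((gg_contDiff h).sub contDiff_const))

lemma rho_fderiv (h ε : ℝ) (z v : E) : fderiv ℝ (rho h ε) z v = drho h ε z v := by
  have h1 : HasFDerivAt (fun z : E => -‖z‖ ^ 2 / (8 * h)) ((-(8 * h)⁻¹) • (2 • innerSL ℝ z)) z := by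
    have := (hasStrictFDerivAt_norm_sq z).hasFDerivAt.const_mul (-(8 * h)⁻¹)
    convert! this using 1
    ext y; ring
  have h2 : HasFDerivAt (fun z => gg h z - ε) (gg h z • (-(8 * h)⁻¹) • (2 • innerSL ℝ z)) z :=
    h1.exp.sub_const ε
  have h3 := ((hasDerivAt_posSq (gg h z - ε)).comp_hasFDerivAt z h2).const_mul (4 * π * h)⁻¹
  have h4 : fderiv ℝ (rho h ε) z = _ := h3.fderiv
  rw [h4, drho]
  simp only [smul_apply, innerSL_apply_apply, smul_eq_mul, nsmul_eq_mul,
    Nat.cast_ofNat, real_inner_comm v z]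
  ring

lemma drho_le (hh : 0 < h) (hε : 0 < ε) (z v : E) :
    |drho h ε z v| ≤ pk h z * |⟪v, z⟫_ℝ / (2 * h)| := by
  have := gg_pos h z
  rw [drho, abs_neg, abs_mul, pk_eq_gg, abs_of_nonneg (by positivity), sq, ← mul_assoc]
  gcongr
  exact max_le_gg hε z

lemma rho_supp (hh : 0 < h) (hε : 0 < ε) {z : E} (hz : rho h ε z ≠ 0) :
    ‖z‖ ≤ √(8 * h * -log ε) := by
  have h1 : ε < gg h z := by
    by_contra h1
    exact hz (by simp [rho, max_eq_right (sub_nonpos.2 (not_lt.1 h1))])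
  rw [gg, ← log_lt_iff_lt_exp hε, lt_div_iff₀ (by positivity)] at h1
  exact le_sqrt_of_sq_le (by linarith)

lemma rho_cs (hh : 0 < h) (hε : 0 < ε) : HasCompactSupport (rho h ε) :=
  HasCompactSupport.intro (isCompact_closedBall (0 : E) √(8 * h * -log ε)) fun z hz => by
    by_contra h1
    exact hz (by simpa using rho_supp hh hε h1)

lemma rho_int (hh : 0 < h) (hε : 0 < ε) : Integrable (rho h ε) :=
  (rho_contDiff h ε).continuous.integrable_of_hasCompactSupport (rho_cs hh hε)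

lemma rho_mass (hh : 0 < h) (hε : 0 < ε) : 1 - 4 * ε ≤ ∫ z, rho h ε z := by
  have h1 : ∫ z, (pk h z - 4 * ε * pk (2 * h) z) ≤ ∫ z, rho h ε z :=
    integral_mono ((pk_int hh).sub ((pk_int (by positivity)).const_mul _)) (rho_int hh hε)
      (le_rho hh hε)
  rwa [integral_sub (pk_int hh) ((pk_int (by positivity)).const_mul _), integral_const_mul,
    pk_mass hh, pk_mass (by positivity), mul_one] at h1

lemma mol_eq (h ε : ℝ) (f : E → ℝ) : mol h ε f = f ⋆[ContinuousLinearMap.mul ℝ ℝ, volume] rho h ε :=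
  rfl

lemma mol_contDiff (hh : 0 < h) (hε : 0 < ε) (h1 : Integrable f) : ContDiff ℝ 1 (mol h ε f) :=
  (rho_cs hh hε).contDiff_convolution_right (n := 1) (ContinuousLinearMap.mul ℝ ℝ)
    h1.locallyIntegrable (rho_contDiff h ε)

lemma mol_fderiv (hh : 0 < h) (hε : 0 < ε) (h1 : Integrable f) (x v : E) :
    fderiv ℝ (mol h ε f) x v = ∫ t, f t * drho h ε (x - t) v := by
  have := (rho_cs hh hε).hasFDerivAt_convolution_right (ContinuousLinearMap.mul ℝ ℝ)
    h1.locallyIntegrable (rho_contDiff h ε) x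
  rw [mol_eq, this.fderiv, convolution_precompR_apply _ h1.locallyIntegrable
    ((rho_cs hh hε).fderiv ℝ) ((rho_contDiff h ε).continuous_fderiv one_ne_zero)]
  simp only [convolution_def, rho_fderiv, ContinuousLinearMap.mul_apply']

lemma conv_center {a : E → ℝ} (ha : Continuous a) (hc : HasCompactSupport a) (h1 : Integrable f)
    (x : E) : ∫ z, a z * (f x - f (x - z)) = (∫ z, a z) * f x - ∫ t, f t * a (x - t) := by
  obtain ⟨C, hC⟩ := hc.exists_bound_of_continuous ha
  have h2 : Integrable fun z => a z * f (x - z) :=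
    (h1.comp_sub_left x).bdd_mul ha.aestronglyMeasurable (Eventually.of_forall hC)
  simp_rw [mul_sub]
  rw [integral_sub ((ha.integrable_of_hasCompactSupport hc).mul_const _) h2, integral_mul_const,
    ← integral_sub_left_eq_self (fun t => f t * a (x - t)) volume x]
  simp only [sub_sub_cancel, mul_comm]

lemma mol_sub (hh : 0 < h) (hε : 0 < ε) (hf : Measurable f) (h1 : Integrable f) {x : E}
    (hx : Integrable fun z => pk h z * (f x - f (x - z)) ^ 2) :
    ((∫ z, rho h ε z) * f x - mol h ε f x) ^ 2 ≤ en h f x := by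
  have := cs_pk hh (a := rho h ε) (w := fun _ => 1) (u := fun z => f x - f (x - z))
    aestronglyMeasurable_const (Measurable.aestronglyMeasurable (by fun_prop))
    (fun z => by simpa [abs_of_nonneg (rho_nonneg hh z)] using rho_le hh hε z)
    (by simpa using pk_int hh) hx
  rw [conv_center (rho_contDiff h ε).continuous (rho_cs hh hε) h1] at this
  simpa [pk_mass hh, mol, en] using this

lemma mol_grad (hh : 0 < h) (hε : 0 < ε) (hf : Measurable f) (h1 : Integrable f) {x : E}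
    (hx : Integrable fun z => pk h z * (f x - f (x - z)) ^ 2) :
    ‖fderiv ℝ (mol h ε f) x‖ ^ 2 ≤ en h f x / (2 * h) := by
  have h0 := en_nonneg (f := f) hh x
  have key : ∀ v, (fderiv ℝ (mol h ε f) x v) ^ 2 ≤ en h f x / (2 * h) * ‖v‖ ^ 2 := by
    intro v
    have e1 : (fun z => pk h z * (⟪v, z⟫_ℝ / (2 * h)) ^ 2) =
        fun z => ((2 * h) ^ 2)⁻¹ * (pk h z * ⟪v, z⟫_ℝ ^ 2) := by ext z; field_simp
    have := cs_pk hh (a := fun z => drho h ε z v) (w := fun z => ⟪v, z⟫_ℝ / (2 * h))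
      (u := fun z => f x - f (x - z)) (Measurable.aestronglyMeasurable (by fun_prop))
      (Measurable.aestronglyMeasurable (by fun_prop)) (fun z => drho_le hh hε z v)
      (by rw [e1]; exact (pk_sq_int hh v).const_mul _) hx
    have hc : Continuous fun z => drho h ε z v := by
      simp_rw [← rho_fderiv]
      have := (rho_contDiff h ε).continuous_fderiv one_ne_zero
      fun_prop
    have hs : HasCompactSupport fun z => drho h ε z v := by
      simp_rw [← rho_fderiv]
      exact ((rho_cs hh hε).fderiv ℝ).comp_left (g := fun L : E →L[ℝ] ℝ => L v) rfl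
    have hz : ∫ z, drho h ε z v = 0 := by
      have h2 := integral_neg_eq_self (fun z => drho h ε z v) volume
      have h3 : ∀ z, drho h ε (-z) v = -drho h ε z v := by
        intro z; simp only [drho, gg, norm_neg, inner_neg_right]; ring
      simp_rw [h3, integral_neg] at h2
      linarith
    rw [conv_center hc hs h1, hz, zero_mul, zero_sub, neg_sq, ← mol_fderiv hh hε h1, e1,
      integral_const_mul] at this
    refine this.trans ?_
    have h4 := pk_sq_le hh v
    calc _ ≤ ((2 * h) ^ 2)⁻¹ * (2 * h * ‖v‖ ^ 2) * en h f x := by gcongr; exact le_rfl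
      _ = _ := by field_simp
  have h5 : ‖fderiv ℝ (mol h ε f) x‖ ≤ √(en h f x / (2 * h)) := by
    refine ContinuousLinearMap.opNorm_le_bound _ (sqrt_nonneg _) fun v => ?_
    refine abs_le_of_sq_le_sq ?_ (by positivity)
    rw [mul_pow, sq_sqrt (by positivity)]
    exact key v
  calc _ ≤ √(en h f x / (2 * h)) ^ 2 := by gcongr
    _ = _ := sq_sqrt (by positivity)

lemma mol_grad_int (hh : 0 < h) (hε : 0 < ε) (hf : Measurable f) (h1 : Integrable f)
    (h2 : Integrable fun x => f x ^ 2) :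
    ∫ x, ‖fderiv ℝ (mol h ε f) x‖ ^ 2 ≤ ((∫ x, f x ^ 2) - bil h f) / h := by
  have h3 : ∫ x, ‖fderiv ℝ (mol h ε f) x‖ ^ 2 ≤ ∫ x, en h f x / (2 * h) := by
    refine integral_mono_of_nonneg (Eventually.of_forall fun x => sq_nonneg _)
      ((en_int hh hf h2).div_const _) ?_
    filter_upwards [(int_en hh hf h2).prod_right_ae] with x hx
    exact mol_grad hh hε hf h1 hx
  rw [integral_div, en_eq hh hf h2] at h3
  refine h3.trans (le_of_eq ?_)
  field_simp

lemma mol_sq_int (hh : 0 < h) (hε : 0 < ε) (hε1 : ε ≤ 1 / 4) (hf : Measurable f) (h1 : Integrable f)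
    (h2 : Integrable fun x => f x ^ 2) (h3 : Integrable fun x => mol h ε f x ^ 2) :
    (1 - 9 * ε) * (∫ x, f x ^ 2) - 2 / ε * ((∫ x, f x ^ 2) - bil h f) ≤ ∫ x, mol h ε f x ^ 2 := by
  have h4 : ∫ x, ((1 - 9 * ε) * f x ^ 2 - ε⁻¹ * en h f x) ≤ ∫ x, mol h ε f x ^ 2 := by
    refine integral_mono_ae ((h2.const_mul _).sub ((en_int hh hf h2).const_mul _)) h3 ?_
    filter_upwards [(int_en hh hf h2).prod_right_ae] with x hx
    have h5 := mol_sub hh hε hf h1 hx
    have h6 := rho_mass hh hε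
    set m := ∫ z, rho h ε z
    set u := f x
    set w := mol h ε f x
    have h7 : (1 - 8 * ε) * u ^ 2 ≤ (m * u) ^ 2 := by
      rw [mul_pow]
      have : 1 - 8 * ε ≤ m ^ 2 := by nlinarith
      gcongr
    have h8 : ε * ((1 - ε) * (m * u) ^ 2) ≤ ε * w ^ 2 + (m * u - w) ^ 2 := by
      nlinarith [sq_nonneg ((1 - ε) * (m * u) - w), sq_nonneg w, sq_nonneg (m * u)]
    have h9 : (1 - 9 * ε) * u ^ 2 ≤ (1 - ε) * (m * u) ^ 2 := by
      have : (1 - ε) * ((1 - 8 * ε) * u ^ 2) ≤ (1 - ε) * (m * u) ^ 2 := by gcongr; linarith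
      nlinarith [sq_nonneg (ε * u)]
    have h10 : ε * ((1 - 9 * ε) * u ^ 2) ≤ ε * w ^ 2 + en h f x := by nlinarith
    have h11 : ε * ((1 - 9 * ε) * u ^ 2 - ε⁻¹ * en h f x) ≤ ε * w ^ 2 := by
      rw [mul_sub, mul_inv_cancel_left₀ hε.ne']; linarith
    exact le_of_mul_le_mul_left h11 hε
  rw [integral_sub (h2.const_mul _) ((en_int hh hf h2).const_mul _), integral_const_mul,
    integral_const_mul, en_eq hh hf h2] at h4
  refine le_trans (le_of_eq ?_) h4
  ring

end

end Pool.Agent.Lib.MP_2d4879_an
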