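import Pool.Agent.Lib.MP_2d4879_an.Est

namespace Pool.Agent.Lib.MP_2d4879_an

open Real Filter Topology Set Asymptotics

namespace S

lemma W_nonneg (σ : S) (a b : ℝ) : 0 ≤ σ.W a b := add_nonneg (σ.nonneg _ _) (σ.nonneg _ _)

lemma W_smul (σ : S) (c a b : ℝ) : σ.W (c * a) (c * b) = |c| * σ.W a b := by
  unfold W
  rcases le_total 0 c with h | h
  · rw [abs_of_nonneg h, mul_add, ← σ.smul c _ _ h, ← σ.smul c _ _ h]; simp
  · rw [abs_of_nonpos h, mul_add, ← σ.smul (-c) _ _ (by linarith), ← σ.smul (-c) _ _ (by linarith),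
      add_comm]
    simp

lemma W_add (σ : S) (a b a' b' : ℝ) : σ.W (a + a') (b + b') ≤ σ.W a b + σ.W a' b' := by
  unfold W
  have h1 := σ.add a b a' b'
  have h2 := σ.add (-a) (-b) (-a') (-b')
  rw [← neg_add, ← neg_add] at h2
  linarith

lemma W_le2 (σ : S) {a b c d a1 b1 a2 b2 : ℝ} (ha : a = c * a1 + d * a2)
    (hb : b = c * b1 + d * b2) : σ.W a b ≤ |c| * σ.W a1 b1 + |d| * σ.W a2 b2 := by
  rw [ha, hb, ← W_smul, ← W_smul]; exact σ.W_add _ _ _ _

lemma W_ge2 (σ : S) {a b c d a1 b1 a2 b2 : ℝ} (ha : a = c * a1 + d * a2)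
    (hb : b = c * b1 + d * b2) : |c| * σ.W a1 b1 - |d| * σ.W a2 b2 ≤ σ.W a b := by
  have := σ.W_le2 (a := c * a1) (b := c * b1) (c := 1) (d := -d) (a1 := a) (b1 := b) (a2 := a2)
    (b2 := b2) (by rw [ha]; ring) (by rw [hb]; ring)
  rw [W_smul, abs_neg, abs_one] at this
  linarith

end S

lemma conv4 {φ : ℝ → ℝ} (hφ : ∀ a b l, 0 ≤ l → l ≤ 1 → φ (l * a + (1 - l) * b) ≤
    l * φ a + (1 - l) * φ b) {p q a b : ℝ} (h1 : p ≤ a) (h2 : a ≤ q) (h3 : a + b = p + q) :
    φ a + φ b ≤ φ p + φ q := by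
  rcases (h1.trans h2).eq_or_lt with h | h
  · rw [show a = p by linarith, show b = q by linarith]
  have hq : 0 < q - p := sub_pos.2 h
  have l0 : 0 ≤ (q - a) / (q - p) := div_nonneg (by linarith) hq.le
  have l1 : (q - a) / (q - p) ≤ 1 := (div_le_one hq).2 (by linarith)
  have k1 := hφ p q _ l0 l1
  have k2 := hφ q p _ l0 l1
  rw [show (q - a) / (q - p) * p + (1 - (q - a) / (q - p)) * q = a by field_simp; ring] at k1
  rw [show (q - a) / (q - p) * q + (1 - (q - a) / (q - p)) * p = b by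
    rw [show b = p + q - a by linarith]; field_simp; ring] at k2
  linarith

theorem G_lt {x1 y1 x2 y2 : ℝ} (h1 : x1 < x2) (h2 : y1 ≤ x1) (h3 : 0 ≤ y1) (h4 : 0 ≤ y2)
    (h5 : x1 + y1 ≤ x2 + y2) : G x1 + G y1 < G x2 + G y2 := by
  let g : S → ℝ → ℝ := fun σ x => σ.W 1 x + σ.W 1 (-x)
  have eG : ∀ x, EE (fun σ => σ.W2 * g σ x) = 4 * G x := by
    intro x
    have e : (fun σ => σ.W2 * g σ x) = fun σ => σ.W2 * σ.f 1 (- -x) + (σ.W2 * σ.f (-1) (-x) +
        (σ.W2 * σ.f 1 (-x) + σ.W2 * σ.f (-1) x)) := by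
      ext σ; simp only [g, S.W, neg_neg]; ring
    rw [e, EE_add (by fun_prop) (by fun_prop), EE_add (by fun_prop) (by fun_prop),
      EE_add (by fun_prop) (by fun_prop), G_eq, G_eq, ← G, ← G, G_neg]
    ring
  have gc : ∀ σ a b l, 0 ≤ l → l ≤ 1 → g σ (l * a + (1 - l) * b) ≤
      l * g σ a + (1 - l) * g σ b := by
    intro σ a b l l0 l1
    have k1 := σ.W_le2 (a := 1) (b := l * a + (1 - l) * b) (c := l) (d := 1 - l) (a1 := 1)
      (b1 := a) (a2 := 1) (b2 := b) (by ring) rfl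
    have k2 := σ.W_le2 (a := 1) (b := -(l * a + (1 - l) * b)) (c := l) (d := 1 - l) (a1 := 1)
      (b1 := -a) (a2 := 1) (b2 := -b) (by ring) (by ring)
    rw [abs_of_nonneg l0, abs_of_nonneg (sub_nonneg.2 l1)] at k1 k2
    simp only [g]; linarith
  have gm : ∀ σ a b, 0 ≤ a → a ≤ b → g σ a ≤ g σ b := by
    intro σ a b ha hab
    have := conv4 (gc σ) (p := -b) (q := b) (a := a) (b := -a) (by linarith) hab (by ring)
    simp only [g, neg_neg] at this ⊢
    linarith
  have D0 : ∀ σ, 0 ≤ g σ x2 + g σ y2 - g σ x1 - g σ y1 := by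
    intro σ
    have k1 := conv4 (gc σ) (p := max (x1 + y1 - x2) 0) (q := x1 + y1 - max (x1 + y1 - x2) 0)
      (a := y1) (b := x1) (max_le (by linarith) h3)
      (by linarith [max_le (show x1 + y1 - x2 ≤ x1 by linarith) (h3.trans h2)]) (by ring)
    have k2 := gm σ _ y2 (le_max_right (x1 + y1 - x2) 0) (max_le (by linarith) h4)
    have k3 := gm σ (x1 + y1 - max (x1 + y1 - x2) 0) x2
      (by linarith [max_le (show x1 + y1 - x2 ≤ x1 by linarith) (h3.trans h2)])
      (by linarith [le_max_left (x1 + y1 - x2) 0])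
    linarith
  have hp := sg_pos x1
  have hq := sg_sq x1
  set r := sg x1
  obtain ⟨c, C, hc, hC, hD⟩ : ∃ c C : ℝ, 0 < c ∧ 0 < C ∧ ∀ σ : S,
      c * σ.W (x1 / r) (1 / r) - C * σ.W (-(1 / r)) (x1 / r) ≤ σ.W2 ∧
      c * σ.W (x1 / r) (1 / r) - C * σ.W (-(1 / r)) (x1 / r) ≤
        g σ x2 + g σ y2 - g σ x1 - g σ y1 := by
    let q : ℝ → ℝ := fun x => |(x * x1 - 1) / r| + |(-x * x1 - 1) / r|
    have q0 : ∀ x, 0 ≤ q x := fun x => by positivity
    refine ⟨min 1 (x2 - x1) / r, q x2 + q y2 + q x1 + q y1 + |x1 / r| + 1,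
      div_pos (lt_min one_pos (sub_pos.2 h1)) hp, 
      by have := abs_nonneg (x1 / r); linarith [q0 x2, q0 y2, q0 x1, q0 y1], fun σ => ?_⟩
    have U0 := σ.W_nonneg (x1 / r) (1 / r)
    have V0 := σ.W_nonneg (-(1 / r)) (x1 / r)
    have k : ∀ x, |σ.W 1 x - |x1 + x| / r * σ.W (x1 / r) (1 / r)| ≤
        |(x * x1 - 1) / r| * σ.W (-(1 / r)) (x1 / r) := by
      intro x
      have e1 : (1 : ℝ) = (x1 + x) / r * (x1 / r) + (x * x1 - 1) / r * -(1 / r) := by
        field_simp; linarith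
      have e2 : x = (x1 + x) / r * (1 / r) + (x * x1 - 1) / r * (x1 / r) := by
        field_simp; rw [hq]; ring
      have k1 := σ.W_le2 e1 e2
      have k2 := σ.W_ge2 e1 e2
      rw [abs_div, abs_of_pos hp] at k1 k2
      rw [abs_le]; constructor <;> linarith
    set U := σ.W (x1 / r) (1 / r)
    set V := σ.W (-(1 / r)) (x1 / r)
    have kg : ∀ x, |g σ x - (|x1 + x| + |x1 - x|) / r * U| ≤ q x * V := by
      intro x
      have k1 := abs_le.1 (k x)
      have k2 := abs_le.1 (k (-x))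
      rw [← sub_eq_add_neg] at k2
      rw [abs_le, add_div]
      simp only [g, q]
      constructor <;> linarith
    constructor
    · have := σ.W_ge2 (a := 0) (b := 1) (c := 1 / r) (d := x1 / r) (a1 := x1 / r) (b1 := 1 / r)
        (a2 := -(1 / r)) (b2 := x1 / r) (by ring) (by field_simp; linarith)
      rw [abs_of_pos (a := 1 / r) (by positivity)] at this
      have k3 : min 1 (x2 - x1) / r * U ≤ 1 / r * U := by gcongr; exact min_le_left _ _
      have k4 : σ.W 0 1 = σ.W2 := by simp [S.W, S.W2]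
      nlinarith [q0 x2, q0 y2, q0 x1, q0 y1]
    · have k1 := (abs_le.1 (kg x2)).1
      have k2 := (abs_le.1 (kg y2)).1
      have k3 := (abs_le.1 (kg x1)).2
      have k4 := (abs_le.1 (kg y1)).2
      have k5 : min 1 (x2 - x1) ≤ (|x1 + x2| + |x1 - x2|) + (|x1 + y2| + |x1 - y2|) -
          (|x1 + x1| + |x1 - x1|) - (|x1 + y1| + |x1 - y1|) := by
        rw [abs_of_nonneg (a := x1 + x1) (by linarith), abs_of_nonneg (a := x1 + y1) (by linarith),
          abs_of_nonneg (a := x1 - y1) (by linarith), sub_self, abs_zero]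
        linarith [min_le_right 1 (x2 - x1), le_abs_self (x1 + x2), neg_le_abs (x1 - x2),
          le_abs_self (x1 + y2), le_abs_self (x1 - y2)]
      have k6 := mul_le_mul_of_nonneg_right (div_le_div_of_nonneg_right k5 hp.le) U0
      rw [sub_div, sub_div, add_div (_ + _)] at k6
      nlinarith [mul_nonneg (abs_nonneg (x1 / r)) V0]
  have hm := mw_pos
  set η := 2 * C * mw with hη
  have hη0 : 0 < η := by positivity
  have k1 : EE (fun σ => η * max (c * σ.W (x1 / r) (1 / r) - 2 * η) 0 -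
      C * (max (c * σ.W (x1 / r) (1 / r) - 2 * η) 0 * σ.W (-(1 / r)) (x1 / r))) ≤
      EE fun σ => σ.W2 * g σ x2 + σ.W2 * g σ y2 - σ.W2 * g σ x1 - σ.W2 * g σ y1 := by
    refine EE_mono (by fun_prop) (by simp only [g]; fun_prop) fun σ => ?_
    obtain ⟨k2, k3⟩ := hD σ
    have k4 := D0 σ
    have k5 := σ.W2_nonneg
    have V0 := mul_nonneg hC.le (σ.W_nonneg (-(1 / r)) (x1 / r))
    set U := c * σ.W (x1 / r) (1 / r)
    rw [mul_left_comm C, ← mul_add, ← mul_sub, ← mul_sub, mul_comm η, ← mul_sub]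
    set V := C * σ.W (-(1 / r)) (x1 / r)
    rcases le_total (U - 2 * η) 0 with h6 | h6
    · rw [max_eq_right h6, zero_mul]; positivity
    rw [max_eq_left h6]
    rcases le_total η V with h7 | h7
    · exact (mul_nonpos_of_nonneg_of_nonpos h6 (by linarith)).trans (by positivity)
    · rw [mul_comm]
      exact mul_le_mul (by linarith) (by linarith) h6 k5
  rw [EE_unit (a := x1 / r) (b := 1 / r) (by field_simp; linarith)
    (fun U V => η * max (c * U - 2 * η) 0 - C * (max (c * U - 2 * η) 0 * V)),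
    EE_sub (by fun_prop) (by fun_prop), EE_mul _ (by fun_prop), EE_mul _ (by fun_prop), EE_ph_W2,
    EE_sub (by simp only [g]; fun_prop) (by simp only [g]; fun_prop),
    EE_sub (by simp only [g]; fun_prop) (by simp only [g]; fun_prop),
    EE_add (by simp only [g]; fun_prop) (by simp only [g]; fun_prop), eG, eG, eG, eG, ← ph] at k1
  have := ph_pos (h := 2 * η) (by positivity) hc
  nlinarith [mul_pos (mul_pos hC hm) this]

lemma th_mono {x y x' y' s : ℝ} (h1 : y < x) (h2 : x ≤ x') (h3 : y' ≤ y) (hs : 0 ≤ s) (b : ℝ) :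
    (x' - y') * EE (th x' y' b s) ≤ (x - y) * EE (th x y b s) := by
  rw [← EE_mul _ (by fun_prop), ← EE_mul _ (by fun_prop)]
  refine EE_mono (by fun_prop) (by fun_prop) fun σ => ?_
  have a1 := σ.le2 (a := -1) (b := x') (a1 := -1) (b1 := x) (a2 := 0) (b2 := 1) zero_le_one
    (sub_nonneg.2 h2) (by ring) (by ring)
  have a2 := σ.le2 (a := 1) (b := -y') (a1 := 1) (b1 := -y) (a2 := 0) (b2 := 1) zero_le_one
    (sub_nonneg.2 h3) (by ring) (by ring)
  have a3 : nm x' y' b s σ ≤ nm x y b s σ := by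
    unfold nm
    exact sub_le_sub_right (mul_le_mul_of_nonneg_left (by linarith) hs) _
  have k1 : 0 < x - y := sub_pos.2 h1
  have k2 : 0 < x' - y' := by linarith
  calc _ = max (nm x' y' b s σ) 0 ^ 2 / 2 := by unfold th; field_simp
    _ ≤ max (nm x y b s σ) 0 ^ 2 / 2 := by gcongr
    _ = _ := by unfold th; field_simp

lemma th_shear {x y τ s : ℝ} (h1 : y < x) (h2 : 0 ≤ x + y) (hτ : 0 ≤ τ) (hs : 0 ≤ s) (b : ℝ) :
    EE (th x y b s) ≤ EE (th (x + τ) (y + τ) b s) := by
  rcases hτ.eq_or_lt with rfl | hτ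
  · simp
  have e : EE (th (-(y + τ)) (-(x + τ)) b s) = EE (th (x + τ) (y + τ) b s) :=
    EE_rot (p := -1) (q := 0) (r := 0) (t := 1) (by norm_num) (by norm_num) (by norm_num)
      fun σ => by
        simp only [th, nm, S.rot, mul_neg, mul_one, neg_neg, mul_zero, add_zero, zero_add, neg_zero]
        rw [add_comm (σ.f 1 _), show -(y + τ) - -(x + τ) = x + τ - (y + τ) by ring]
  set l := τ / (x + y + 2 * τ) with hl
  have l0 : 0 ≤ l := by positivity
  have l1 : l ≤ 1 := (div_le_one (by positivity)).2 (by linarith)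
  have l2 : l * (x + y + 2 * τ) = τ := by rw [hl]; field_simp
  have k : EE (th x y b s) ≤ EE fun σ => l * th (-(y + τ)) (-(x + τ)) b s σ +
      (1 - l) * th (x + τ) (y + τ) b s σ := by
    refine EE_mono (by fun_prop) (by fun_prop) fun σ => ?_
    have a1 := σ.le2 (a := -1) (b := x) (a1 := -1) (b1 := -(y + τ)) (a2 := -1) (b2 := x + τ) l0
      (sub_nonneg.2 l1) (by ring) (by linarith)
    have a2 := σ.le2 (a := 1) (b := -y) (a1 := 1) (b1 := - -(x + τ)) (a2 := 1) (b2 := -(y + τ)) l0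
      (sub_nonneg.2 l1) (by ring) (by linarith)
    have a3 : nm x y b s σ ≤ l * nm (-(y + τ)) (-(x + τ)) b s σ +
        (1 - l) * nm (x + τ) (y + τ) b s σ := by
      have := mul_le_mul_of_nonneg_left (add_le_add a1 a2) hs
      unfold nm
      linarith
    unfold th
    rw [show -(y + τ) - -(x + τ) = x - y by ring, show x + τ - (y + τ) = x - y by ring,
      ← mul_div_assoc, ← mul_div_assoc, ← add_div]
    have k1 : 0 < x - y := sub_pos.2 h1
    gcongr
    set p := max (nm (-(y + τ)) (-(x + τ)) b s σ) 0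
    set q := max (nm (x + τ) (y + τ) b s σ) 0
    have a4 : max (nm x y b s σ) 0 ≤ l * p + (1 - l) * q := by
      have := sub_nonneg.2 l1
      refine max_le (a3.trans ?_) (by positivity)
      gcongr <;> exact le_max_left _ _
    refine (pow_le_pow_left₀ (le_max_right _ _) a4 2).trans ?_
    nlinarith [mul_nonneg (mul_nonneg l0 (sub_nonneg.2 l1)) (sq_nonneg (p - q))]
  rw [EE_add (by fun_prop) (by fun_prop), EE_mul _ (by fun_prop), EE_mul _ (by fun_prop)] at k
  rw [e] at k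
  linarith

end Pool.Agent.Lib.MP_2d4879_an
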