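import Pool.Agent.Lib.MP_2d4879_an.Cmp

namespace Pool.Agent.Lib.MP_2d4879_an

open MeasureTheory Real Filter Topology Set
open scoped InnerProductSpace ENNReal

def cns {n : ℕ} (a : E) (x : Fin n → E) : Fin (n + 1) → E := Fin.cons a x

def snc {n : ℕ} (x : Fin n → E) (b : E) : Fin (n + 1) → E := Fin.snoc x b

@[simp] lemma cns_zero {n : ℕ} (a : E) (x : Fin n → E) : cns a x 0 = a := rfl

@[simp] lemma cns_succ {n : ℕ} (a : E) (x : Fin n → E) (j : Fin n) : cns a x j.succ = x j := rfl

lemma snc_cns {n : ℕ} (a : E) (x : Fin n → E) (b : E) : snc (cns a x) b = cns a (snc x b) :=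
  (Fin.cons_snoc_eq_snoc_cons a x b).symm

@[fun_prop] lemma cont_cns {X : Type} [TopologicalSpace X] {n : ℕ} {f : X → E} {g : X → Fin n → E}
    (hf : Continuous f) (hg : Continuous g) : Continuous fun p => cns (f p) (g p) :=
  Continuous.finCons (A := fun _ => E) hf hg

@[fun_prop] lemma cont_snc {X : Type} [TopologicalSpace X] {n : ℕ} {f : X → E} {g : X → Fin n → E}
    (hf : Continuous f) (hg : Continuous g) : Continuous fun p => snc (g p) (f p) :=
  Continuous.finSnoc (A := fun _ => E) hg hf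

@[fun_prop] lemma meas_cns {X : Type} [MeasurableSpace X] {n : ℕ} {f : X → E} {g : X → Fin n → E}
    (hf : Measurable f) (hg : Measurable g) : Measurable fun p => cns (f p) (g p) :=
  (cont_cns continuous_fst continuous_snd).measurable.comp (hf.prodMk hg)

lemma cns_map {n : ℕ} (φ : E → E) (a : E) (x : Fin n → E) (j : Fin (n + 1)) :
    cns (φ a) (fun i => φ (x i)) j = φ (cns a x j) := by
  cases j using Fin.cases <;> simp

lemma snc_map {n : ℕ} (φ : E → E) (b : E) (x : Fin n → E) (j : Fin (n + 1)) :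
    snc (fun i => φ (x i)) (φ b) j = φ (snc x b j) := by
  cases j using Fin.lastCases <;> simp [snc]

noncomputable def wt (h : ℝ) {n : ℕ} (a b : E) (x : Fin n → E) : ℝ≥0∞ :=
  ∏ j : Fin (n + 1), pe h (cns a x j - snc x b j)

@[fun_prop] lemma meas_snc {X : Type} [MeasurableSpace X] {n : ℕ} {f : X → E} {g : X → Fin n → E}
    (hf : Measurable f) (hg : Measurable g) : Measurable fun p => snc (g p) (f p) :=
  (cont_snc (X := E × (Fin n → E)) continuous_fst continuous_snd).measurable.comp (hf.prodMk hg)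

@[fun_prop] lemma meas_wt (h : ℝ) {X : Type} [MeasurableSpace X] {n : ℕ} {f g : X → E}
    {x : X → Fin n → E} (hf : Measurable f) (hg : Measurable g) (hx : Measurable x) :
    Measurable fun p => wt h (f p) (g p) (x p) := by
  unfold wt
  refine Finset.measurable_prod _ fun j _ => (pe_meas h).comp ?_
  exact ((measurable_pi_apply j).comp (meas_cns hf hx)).sub
    ((measurable_pi_apply j).comp (meas_snc hg hx))

lemma wt_cns (h : ℝ) {n : ℕ} (a b y : E) (x : Fin n → E) :
    wt h a b (cns y x) = pe h (a - y) * wt h y b x := by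
  unfold wt
  rw [Fin.prod_univ_succ, snc_cns]
  simp

lemma lintegral_cns {n : ℕ} {G : (Fin (n + 1) → E) → ℝ≥0∞} (hG : Measurable G) :
    ∫⁻ z, G z = ∫⁻ y, ∫⁻ x, G (cns y x) := by
  rw [((volume_preserving_piFinSuccAbove (fun _ : Fin (n + 1) => E) 0).symm _).lintegral_map_equiv,
    Measure.volume_eq_prod, lintegral_prod _ (Measurable.aemeasurable (by fun_prop))]
  congr 1; ext y; congr 1; ext x
  simp [MeasurableEquiv.piFinSuccAbove, cns, Fin.insertNthEquiv]

noncomputable def pm (h : ℝ) (n : ℕ) (a b : E) : Measure (Fin n → E) :=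
  volume.withDensity (wt h a b)

lemma lint_pm (h : ℝ) {n : ℕ} (a b : E) {F : (Fin n → E) → ℝ≥0∞} (hF : Measurable F) :
    ∫⁻ x, F x ∂pm h n a b = ∫⁻ x, wt h a b x * F x :=
  lintegral_withDensity_eq_lintegral_mul _ (by fun_prop) hF

lemma pm_apply (h : ℝ) {n : ℕ} (a b : E) {S : Set (Fin n → E)} (hS : MeasurableSet S) :
    pm h n a b S = ∫⁻ x, wt h a b x * S.indicator 1 x := by
  rw [← lint_pm _ _ _ (measurable_one.indicator hS), lintegral_indicator_one hS]

lemma pm_zero (h : ℝ) (a b : E) : pm h 0 a b univ = pe h (a - b) := by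
  rw [pm_apply _ _ _ MeasurableSet.univ]
  simp [wt, snc, Fin.snoc, volume_pi]

lemma pe_ne_top (h : ℝ) (z : E) : pe h z ≠ ∞ := ENNReal.ofReal_ne_top

lemma pm_succ (h : ℝ) {n : ℕ} (a b : E) {S : Set (Fin (n + 1) → E)} (hS : MeasurableSet S) :
    pm h (n + 1) a b S = ∫⁻ y, pe h (a - y) * pm h n y b (cns y ⁻¹' S) := by
  rw [pm_apply _ _ _ hS, lintegral_cns (G := fun x => wt h a b x * S.indicator 1 x)
    ((by fun_prop : Measurable (wt h a b)).mul (measurable_one.indicator hS))]
  congr 1; ext y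
  rw [pm_apply _ _ _ (hS.preimage (by fun_prop)), ← lintegral_const_mul' _ _ (pe_ne_top _ _)]
  congr 1; ext x
  rw [wt_cns, mul_assoc]
  rfl

variable {h : ℝ}

lemma pm_univ (hh : 0 < h) (n : ℕ) (b : E) :
    ∀ a, pm h n a b univ = pe ((n + 1) * h) (a - b) := by
  induction n with
  | zero => intro a; simp [pm_zero]
  | succ n ih =>
    intro a
    rw [pm_succ _ _ _ MeasurableSet.univ]
    simp_rw [preimage_univ, ih]
    rw [pe_ck hh (by positivity)]
    congr 1; push_cast; ring

lemma pe_mono {t : ℝ} (ht : 0 < t) {z w : E} (hzw : ‖z‖ ^ 2 ≤ ‖w‖ ^ 2) : pe t w ≤ pe t z :=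
  ENNReal.ofReal_le_ofReal (pk_mono ht hzw)

lemma ms_ex {n : ℕ} {A : Set E} (hA : MeasurableSet A) :
    MeasurableSet {x : Fin n → E | ∃ j, x j ∈ A} := by
  rw [ofPred_exists]
  exact MeasurableSet.iUnion fun j => hA.preimage (measurable_pi_apply j)

lemma ms_all {n : ℕ} {A : Set E} (hA : MeasurableSet A) :
    MeasurableSet {x : Fin n → E | ∀ j, x j ∈ A} := by
  rw [ofPred_forall]
  exact MeasurableSet.iInter fun j => hA.preimage (measurable_pi_apply j)

lemma ms_at {n : ℕ} {A : Set E} (hA : MeasurableSet A) (j : Fin n) :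
    MeasurableSet {x : Fin n → E | x j ∈ A} := hA.preimage (measurable_pi_apply j)

lemma hit1 (hh : 0 < h) {A : Set E} (hA : MeasurableSet A) {b b' : E}
    (hb : ∀ y ∈ A, ‖y - b'‖ ^ 2 ≤ ‖y - b‖ ^ 2) (n : ℕ) :
    ∀ a, pm h n a b {x | ∃ j, x j ∈ A} ≤ pe ((n + 1) * h) (a - b') := by
  induction n with
  | zero => intro a; simp
  | succ n ih =>
    intro a
    have hn : 0 < ((n : ℝ) + 1) * h := by positivity
    rw [pm_succ _ _ _ (ms_ex hA)]
    calc _ ≤ ∫⁻ y, pe h (a - y) * pe ((n + 1) * h) (y - b') := by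
          refine lintegral_mono fun y => mul_le_mul_right ?_ _
          by_cases hy : y ∈ A
          · exact (measure_mono (subset_univ _)).trans
              ((pm_univ hh n b y).le.trans (pe_mono hn (hb y hy)))
          · refine le_trans (measure_mono ?_) (ih y)
            rintro x ⟨j, hj⟩
            cases j using Fin.cases
            · exact (hy hj).elim
            · exact ⟨_, hj⟩
      _ = _ := by rw [pe_ck hh hn]; congr 1; push_cast; ring

lemma hit2 (hh : 0 < h) {A B : Set E} (hA : MeasurableSet A) (hB : MeasurableSet B) {b b' b'' : E}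
    (hb : ∀ y ∈ B, ‖y - b'‖ ^ 2 ≤ ‖y - b‖ ^ 2) (hb' : ∀ y ∈ A, ‖y - b''‖ ^ 2 ≤ ‖y - b'‖ ^ 2)
    (n : ℕ) :
    ∀ a, pm h n a b {x | ∃ i j, i < j ∧ x i ∈ A ∧ x j ∈ B} ≤ pe ((n + 1) * h) (a - b'') := by
  induction n with
  | zero => intro a; simp
  | succ n ih =>
    intro a
    have hn : 0 < ((n : ℝ) + 1) * h := by positivity
    have hm : MeasurableSet {x : Fin (n + 1) → E | ∃ i j, i < j ∧ x i ∈ A ∧ x j ∈ B} := by
      simp only [ofPred_exists, ofPred_and]
      exact MeasurableSet.iUnion fun i => MeasurableSet.iUnion fun j =>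
        (MeasurableSet.const _).inter ((hA.preimage (measurable_pi_apply i)).inter
          (hB.preimage (measurable_pi_apply j)))
    rw [pm_succ _ _ _ hm]
    calc _ ≤ ∫⁻ y, pe h (a - y) * pe ((n + 1) * h) (y - b'') := by
          refine lintegral_mono fun y => mul_le_mul_right ?_ _
          by_cases hy : y ∈ A
          · refine le_trans (measure_mono ?_) ((hit1 hh hB hb n y).trans (pe_mono hn (hb' y hy)))
            rintro x ⟨i, j, hij, -, hj⟩
            cases j using Fin.cases
            · simp at hij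
            · exact ⟨_, hj⟩
          · refine le_trans (measure_mono ?_) (ih y)
            rintro x ⟨i, j, hij, hi, hj⟩
            cases j using Fin.cases
            · simp at hij
            cases i using Fin.cases
            · exact (hy hi).elim
            · exact ⟨_, _, Fin.succ_lt_succ_iff.1 hij, hi, hj⟩
      _ = _ := by rw [pe_ck hh hn]; congr 1; push_cast; ring

lemma pm_mid (hh : 0 < h) {A : Set E} (hA : MeasurableSet A) (b : E) (l m : ℕ) :
    ∀ a, pm h (l + 1 + m) a b {x | x ⟨m, by omega⟩ ∈ A} =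
      ∫⁻ z in A, pe ((m + 1) * h) (a - z) * pe ((l + 1) * h) (z - b) := by
  induction m with
  | zero =>
    intro a
    refine (pm_succ h (n := l) a b (ms_at hA 0)).trans ?_
    rw [← lintegral_indicator hA]
    congr 1; ext y
    by_cases hy : y ∈ A
    · rw [indicator_of_mem hy, ← pm_univ hh l]
      simp only [Nat.cast_zero, zero_add, one_mul]
      congr 2
      ext x; simpa using hy
    · rw [indicator_of_notMem hy]
      convert mul_zero _
      convert measure_empty (μ := pm h l y b)
      ext x; simpa using hy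
  | succ m ih =>
    intro a
    have hm : 0 < ((m : ℝ) + 1) * h := by positivity
    refine (pm_succ h (n := l + 1 + m) a b (ms_at hA ⟨m + 1, by omega⟩)).trans ?_
    calc _ = ∫⁻ y, ∫⁻ z in A, pe h (a - y) * (pe ((m + 1) * h) (y - z) *
            pe ((l + 1) * h) (z - b)) := by
          congr 1; ext y
          rw [lintegral_const_mul' _ _ (pe_ne_top _ _), ← ih y]
          rfl
      _ = ∫⁻ z in A, ∫⁻ y, pe h (a - y) * (pe ((m + 1) * h) (y - z) *
            pe ((l + 1) * h) (z - b)) :=
          lintegral_lintegral_swap (Measurable.aemeasurable (by unfold Function.uncurry; fun_prop))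
      _ = _ := by
          congr 1; ext z
          simp_rw [← mul_assoc]
          rw [lintegral_mul_const' _ _ (pe_ne_top _ _), pe_ck hh hm]
          congr 2; push_cast; ring

lemma pw_eq_pm (hh : 0 < h) {D : Set E} (hD : Dom D) (n : ℕ) (b : E) : ∀ a,
    ENNReal.ofReal (pw (volume.restrict D) (fun x y => pk h (x - y)) n a b) =
      pm h n a b {x | ∀ j, x j ∈ D} := by
  have := hD.fin
  have hm := hD.isOpen.measurableSet
  induction n with
  | zero => intro a; simpa [pw, pe] using (pm_zero h a b).symm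
  | succ n ih =>
    intro a
    rw [pm_succ _ _ _ (ms_all hm), pw, cv, ofReal_integral_eq_lintegral_ofReal,
      ← lintegral_indicator hm]
    · congr 1; ext y
      by_cases hy : y ∈ D
      · rw [indicator_of_mem hy, ENNReal.ofReal_mul (pk_pos hh _).le, ih]
        congr 2
        ext x; simp [Fin.forall_fin_succ, hy]
      · rw [indicator_of_notMem hy]
        symm
        convert mul_zero _
        convert measure_empty (μ := pm h n y b)
        ext x; simp [Fin.forall_fin_succ, hy]
    · obtain ⟨C, -, hC⟩ := (gk_pk hh).bdd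
      exact (((gk_pk hh).pw n).int_col b).bdd_mul ((gk_pk hh).meas_row a).aestronglyMeasurable
        (Eventually.of_forall (hC a))
    · exact Eventually.of_forall fun y => mul_nonneg (pk_pos hh _).le (pw_le hh n y b).1

lemma wt_aff (h : ℝ) {s : ℝ} (hs : 0 < s) {n : ℕ} (a : E) (y : Fin n → E) :
    wt (s ^ 2 * h) a a (fun j => a + s • y j) = ENNReal.ofReal ((s ^ 2)⁻¹) ^ (n + 1) * wt h 0 0 y := by
  unfold wt
  have e1 := cns_map (fun z => a + s • z) 0 y
  have e2 := snc_map (fun z => a + s • z) 0 y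
  simp only [smul_zero, add_zero] at e1 e2
  simp_rw [e1, e2, add_sub_add_left_eq_sub, ← smul_sub, pe, pk_smul hs,
    ENNReal.ofReal_mul (show 0 ≤ (s ^ 2)⁻¹ by positivity)]
  rw [Finset.prod_mul_distrib]
  simp

lemma lint_pm_aff (h : ℝ) {s : ℝ} (hs : 0 < s) {n : ℕ} (a : E) {F : (Fin n → E) → ℝ≥0∞}
    (hF : Measurable F) : ∫⁻ x, F x ∂pm (s ^ 2 * h) n a a =
      ENNReal.ofReal ((s ^ 2)⁻¹) * ∫⁻ y, F (fun j => a + s • y j) ∂pm h n 0 0 := by
  set c := ENNReal.ofReal ((s ^ 2)⁻¹)
  have hc : c ≠ ∞ := ENNReal.ofReal_ne_top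
  have hc0 : c ≠ 0 := by simp [c]; positivity
  have key : ∀ G : (Fin n → E) → ℝ≥0∞, Measurable G →
      ∫⁻ y : Fin n → E, G (fun j => a + s • y j) = c ^ n * ∫⁻ x, G x := by
    intro G hG
    have h1 := lintegral_map (μ := volume) (f := fun y : Fin n → E => G ((fun _ => a) + y))
      (g := fun y : Fin n → E => s • y) (by fun_prop) (by fun_prop)
    rw [Measure.map_addHaar_smul volume hs.ne', lintegral_smul_measure,
      lintegral_add_left_eq_self G] at h1
    refine h1.symm.trans ?_
    simp only [c, smul_eq_mul]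
    rw [← ENNReal.ofReal_pow (by positivity), Module.finrank_pi_fintype]
    simp only [finrank_euclideanSpace, Fintype.card_fin, Finset.sum_const, Finset.card_univ,
      smul_eq_mul]
    rw [abs_of_pos (by positivity), mul_comm n, pow_mul, inv_pow]
  rw [lint_pm _ _ _ hF, lint_pm _ _ _ (by fun_prop)]
  have h2 := key (fun x => wt (s ^ 2 * h) a a x * F x) (by fun_prop)
  simp_rw [wt_aff h hs, mul_assoc] at h2
  rw [lintegral_const_mul' _ _ (ENNReal.pow_ne_top hc), pow_succ, mul_assoc] at h2
  exact ((ENNReal.mul_right_inj (pow_ne_zero _ hc0) (ENNReal.pow_ne_top hc)).1 h2).symm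

end Pool.Agent.Lib.MP_2d4879_an
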