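import Pool.Agent.Lib.MP_2d4879_an.Bridge

namespace Pool.Agent.Lib.MP_2d4879_an

open MeasureTheory Real Filter Topology Set
open scoped ENNReal

structure Pol (ρ : E ≃ₗᵢ[ℝ] E) (ℓ : E → ℝ) (H T R1 R2 : Set E) : Prop where
  inv : ∀ z, ρ (ρ z) = z
  neg : ∀ z, ℓ (ρ z) = -ℓ z
  near : ∀ z w, 0 ≤ ℓ z → 0 ≤ ℓ w → ‖z - w‖ ^ 2 ≤ ‖z - ρ w‖ ^ 2
  hH : ∀ z, 0 ≤ ℓ z → ρ z ∈ H → z ∈ H
  hT : ∀ z, 0 ≤ ℓ z → ρ z ∈ H → ρ z ∈ T → z ∈ T
  hR : ∀ z, z ∈ R2 ↔ ρ z ∈ R1
  hR' : ∀ z, 0 ≤ ℓ z → z ∈ R2 → z ∈ R1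

noncomputable def act {ι : Type} (ρ : E ≃ₗᵢ[ℝ] E) (σ : ι → Bool) (x : ι → E) (j : ι) : E :=
  if σ j then x j else ρ (x j)

def ev3 {ι : Type} (H T R : Set E) : Set (ι → E) :=
  {x | (∀ j, x j ∈ H) ∧ (∃ j, x j ∈ T) ∧ ∃ j, x j ∈ R}

section
variable {ι κ : Type} [Fintype ι] [DecidableEq ι] [Fintype κ] {ρ : E ≃ₗᵢ[ℝ] E} {ℓ : E → ℝ}
  {H T R1 R2 : Set E} {h : ℝ}

lemma pol_edge (P : Pol ρ ℓ H T R1 R2) (hh : 0 < h) {u v : E} (hu : 0 ≤ ℓ u) (hv : 0 ≤ ℓ v)
    (a b c d : Bool) :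
    pk h ((if a then u else ρ u) - if c then v else ρ v) *
      pk h ((if b then u else ρ u) - if d then v else ρ v) ≤
    pk h ((if (a && b) then u else ρ u) - if (c && d) then v else ρ v) *
      pk h ((if (a || b) then u else ρ u) - if (c || d) then v else ρ v) := by
  have k1 : pk h (ρ u - ρ v) = pk h (u - v) := by
    rw [← map_sub]; exact pk_congr h (ρ.norm_map _)
  have k2 : pk h (ρ u - v) = pk h (u - ρ v) := by
    conv_lhs => rw [← P.inv v, ← map_sub]
    exact pk_congr h (ρ.norm_map _)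
  have k3 : pk h (u - ρ v) ≤ pk h (u - v) := pk_mono hh (P.near _ _ hu hv)
  have k4 := pk_pos hh (u - ρ v)
  cases a <;> cases b <;> cases c <;> cases d <;> simp [k1, k2, mul_comm] <;> nlinarith

lemma pol_pos (P : Pol ρ ℓ H T R1 R2) (hh : 0 < h) (src tgt : κ → ι) (z : ι → E)
    (hz : ∀ j, 0 ≤ ℓ (z j)) :
    ∑ σ : ι → Bool, (∏ e, pk h (act ρ σ z (src e) - act ρ σ z (tgt e))) *
        (ev3 H T R2).indicator 1 (act ρ σ z) ≤
      ∑ σ : ι → Bool, (∏ e, pk h (act ρ σ z (src e) - act ρ σ z (tgt e))) *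
        (ev3 H T R1).indicator 1 (act ρ σ z) := by
  classical
  set w : (ι → Bool) → ℝ := fun σ => ∏ e, pk h (act ρ σ z (src e) - act ρ σ z (tgt e)) with hw
  let f : (ι → Bool) → ℝ := fun σ =>
    if (∀ j, act ρ σ z j ∈ H) ∧ ∃ j, act ρ σ z j ∈ T then 1 else 0
  let g : Set E → (ι → Bool) → ℝ := fun R σ => if ∃ j, act ρ σ z j ∈ R then 1 else 0
  have e : ∀ R σ, (ev3 H T R).indicator (1 : (ι → E) → ℝ) (act ρ σ z) = f σ * g R σ := by
    intro R σ
    simp only [indicator, ev3, mem_ofPred_eq, f, g, Pi.one_apply, ← and_assoc]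
    split_ifs <;> simp_all
  have w0 : ∀ σ, 0 < w σ := fun σ => Finset.prod_pos fun e _ => pk_pos hh _
  have hc : ∀ σ j, act ρ σᶜ z j = ρ (act ρ σ z j) := by
    intro σ j
    unfold act
    cases hσ : σ j <;> simp [hσ, P.inv]
  have wc : ∀ σ, w σᶜ = w σ := fun σ => Finset.prod_congr rfl fun e _ => by
    rw [hc, hc, ← map_sub]; exact pk_congr h (ρ.norm_map _)
  have gc : ∀ σ, g R2 σ = g R1 σᶜ := fun σ => by simp only [g, hc, P.hR]
  have cs : ∀ {σ σ' : ι → Bool}, σ ≤ σ' → ∀ j, act ρ σ z j = act ρ σ' z j ∨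
      (act ρ σ z j = ρ (z j) ∧ act ρ σ' z j = z j) := by
    intro σ σ' hσ j
    have := hσ j
    unfold act
    revert this
    cases σ j <;> cases σ' j <;> simp [Bool.le_iff_imp]
  have fm : Monotone f := by
    intro σ σ' hσ
    simp only [f]
    split_ifs with h1 h2
    · exact le_rfl
    · refine (h2 ⟨fun j => ?_, ?_⟩).elim
      · rcases cs hσ j with h3 | ⟨h3, h4⟩
        · exact h3 ▸ h1.1 j
        · rw [h4]; exact P.hH _ (hz j) (h3 ▸ h1.1 j)
      · obtain ⟨j, hj⟩ := h1.2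
        refine ⟨j, ?_⟩
        rcases cs hσ j with h3 | ⟨h3, h4⟩
        · exact h3 ▸ hj
        · rw [h4]; exact P.hT _ (hz j) (h3 ▸ h1.1 j) (h3 ▸ hj)
    · exact zero_le_one
    · exact le_rfl
  have gm : Monotone (g R1) := by
    intro σ σ' hσ
    simp only [g]
    split_ifs with h1 h2
    · exact le_rfl
    · obtain ⟨j, hj⟩ := h1
      refine (h2 ⟨j, ?_⟩).elim
      rcases cs hσ j with h3 | ⟨h3, h4⟩
      · exact h3 ▸ hj
      · rw [h4]; exact P.hR' _ (hz j) ((P.hR _).2 (h3 ▸ hj))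
    · exact zero_le_one
    · exact le_rfl
  have g01 : ∀ R σ, 0 ≤ g R σ ∧ g R σ ≤ 1 := fun R σ => by
    simp only [g]; split_ifs <;> norm_num
  have key := fkg f (fun σ => 1 + g R1 σ - g R1 σᶜ) w (fun σ => (w0 σ).le)
    (fun σ => by simp only [f, Pi.zero_apply]; split_ifs <;> norm_num)
    (fun σ => by simp only [Pi.zero_apply]; linarith [(g01 R1 σ).1, (g01 R1 σᶜ).2]) fm
    (fun σ σ' hσ => by linarith [gm hσ, gm (compl_le_compl hσ)]) (fun a b => by
      simp only [hw, ← Finset.prod_mul_distrib]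
      refine Finset.prod_le_prod (fun e _ => (mul_pos (pk_pos hh _) (pk_pos hh _)).le) fun e _ => ?_
      exact pol_edge P hh (hz (src e)) (hz (tgt e)) (a (src e)) (b (src e)) (a (tgt e)) (b (tgt e)))
  have s1 : ∑ σ, w σ * g R1 σᶜ = ∑ σ, w σ * g R1 σ := by
    rw [← Equiv.sum_comp (Function.Involutive.toPerm _ (compl_involutive (α := ι → Bool)))]
    simp [wc]
  have s2 : ∑ σ, w σ * (1 + g R1 σ - g R1 σᶜ) = ∑ σ, w σ := by
    simp only [mul_sub, mul_add, mul_one, Finset.sum_sub_distrib, Finset.sum_add_distrib, s1]; ring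
  have s3 : ∑ σ, w σ * (f σ * (1 + g R1 σ - g R1 σᶜ)) = ∑ σ, w σ * f σ +
      ∑ σ, w σ * (f σ * g R1 σ) - ∑ σ, w σ * (f σ * g R1 σᶜ) := by
    simp only [mul_sub, mul_add, mul_one, Finset.sum_sub_distrib, Finset.sum_add_distrib]
  rw [s2, s3, mul_comm] at key
  have := le_of_mul_le_mul_left key (Finset.sum_pos (fun σ _ => w0 σ) Finset.univ_nonempty)
  simp only [e, gc]
  linarith

lemma pol_all (P : Pol ρ ℓ H T R1 R2) (hh : 0 < h) (src tgt : κ → ι) (x : ι → E) :
    ∑ σ : ι → Bool, (∏ e, pk h (act ρ σ x (src e) - act ρ σ x (tgt e))) *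
        (ev3 H T R2).indicator 1 (act ρ σ x) ≤
      ∑ σ : ι → Bool, (∏ e, pk h (act ρ σ x (src e) - act ρ σ x (tgt e))) *
        (ev3 H T R1).indicator 1 (act ρ σ x) := by
  classical
  let τ : ι → Bool := fun j => decide (0 ≤ ℓ (x j))
  have hi : Function.Involutive fun (σ : ι → Bool) j => (σ j == τ j) := by
    intro σ; ext j; simp only; cases σ j <;> cases τ j <;> rfl
  have e : ∀ σ, act ρ σ (act ρ τ x) = act ρ (fun j => σ j == τ j) x := by
    intro σ; ext1 j
    simp only [act]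
    by_cases h1 : σ j = true <;> by_cases h2 : τ j = true <;> simp [h1, h2, P.inv]
  have := pol_pos P hh src tgt (act ρ τ x) (fun j => by
    unfold act
    by_cases h1 : 0 ≤ ℓ (x j)
    · simp [τ, h1]
    · simp only [τ, h1, decide_false, Bool.false_eq_true, if_false, P.neg]; linarith)
  simp only [e] at this
  rw [← Equiv.sum_comp hi.toPerm, ← Equiv.sum_comp hi.toPerm (fun σ =>
    (∏ e, pk h (act ρ σ x (src e) - act ρ σ x (tgt e))) * (ev3 H T R1).indicator 1 (act ρ σ x))]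
  exact this

omit [DecidableEq ι] in
lemma ms_ev3 {R : Set E} (hH : MeasurableSet H) (hT : MeasurableSet T) (hR : MeasurableSet R) :
    MeasurableSet (ev3 H T R : Set (ι → E)) := by
  simp only [ev3, ofPred_and, ofPred_forall, ofPred_exists]
  exact (MeasurableSet.iInter fun j => hH.preimage (measurable_pi_apply j)).inter
    ((MeasurableSet.iUnion fun j => hT.preimage (measurable_pi_apply j)).inter
      (MeasurableSet.iUnion fun j => hR.preimage (measurable_pi_apply j)))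

lemma pol_int (P : Pol ρ ℓ H T R1 R2) (hh : 0 < h) (src tgt : κ → ι) (hH : MeasurableSet H)
    (hT : MeasurableSet T) (h1 : MeasurableSet R1) (h2 : MeasurableSet R2) :
    ∫⁻ x : ι → E, (∏ e, pe h (x (src e) - x (tgt e))) * (ev3 H T R2).indicator 1 x ≤
      ∫⁻ x : ι → E, (∏ e, pe h (x (src e) - x (tgt e))) * (ev3 H T R1).indicator 1 x := by
  have mp : ∀ σ : ι → Bool, MeasurePreserving (act ρ σ : (ι → E) → ι → E) := by
    intro σ
    have := volume_preserving_pi (f := fun (j : ι) (z : E) => if σ j then z else ρ z) fun j => by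
      cases σ j
      · exact ρ.measurePreserving
      · exact MeasurePreserving.id _
    exact this
  have key : ∀ R, MeasurableSet R → (Fintype.card (ι → Bool) : ℝ≥0∞) *
      ∫⁻ x : ι → E, (∏ e, pe h (x (src e) - x (tgt e))) * (ev3 H T R).indicator 1 x =
      ∫⁻ x : ι → E, ENNReal.ofReal (∑ σ : ι → Bool,
        (∏ e, pk h (act ρ σ x (src e) - act ρ σ x (tgt e))) *
          (ev3 H T R).indicator 1 (act ρ σ x)) := by
    intro R hR
    set F : (ι → E) → ℝ≥0∞ := fun x =>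
      (∏ e, pe h (x (src e) - x (tgt e))) * (ev3 H T R).indicator 1 x
    have hF : Measurable F := (Finset.measurable_prod _ fun e _ => by fun_prop).mul
      (measurable_one.indicator (ms_ev3 hH hT hR))
    calc _ = ∑ σ : ι → Bool, ∫⁻ x, F (act ρ σ x) := by
          simp [fun σ => (mp σ).lintegral_comp hF]
      _ = ∫⁻ x, ∑ σ : ι → Bool, F (act ρ σ x) :=
          (lintegral_finsetSum _ fun σ _ => hF.comp (mp σ).measurable).symm
      _ = _ := by
          congr 1; ext x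
          rw [ENNReal.ofReal_sum_of_nonneg fun σ _ => mul_nonneg (Finset.prod_nonneg fun e _ =>
            (pk_pos hh _).le) (indicator_nonneg (f := (1 : (ι → E) → ℝ))
              (fun _ _ => zero_le_one) _)]
          refine Finset.sum_congr rfl fun σ _ => ?_
          rw [ENNReal.ofReal_mul (Finset.prod_nonneg fun e _ => (pk_pos hh _).le),
            ENNReal.ofReal_prod_of_nonneg fun e _ => (pk_pos hh _).le]
          simp only [F, pe, indicator]
          split_ifs <;> simp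
  refine (ENNReal.mul_le_mul_iff_right (a := (Fintype.card (ι → Bool) : ℝ≥0∞)) (by simp)
    (by simp)).1 ?_
  rw [key _ h1, key _ h2]
  exact lintegral_mono fun x => ENNReal.ofReal_le_ofReal (pol_all P hh src tgt x)

end

lemma loop_eq {s : ℝ} (hs : 0 < s) (n : ℕ) {A : Set (Fin (n + 1) → E)} (hA : MeasurableSet A) :
    ∫⁻ x : Fin (n + 1) → E, (∏ e, pe (s ^ 2 * (1 / (n + 1))) (x e - x (finRotate _ e))) *
      A.indicator 1 x = ENNReal.ofReal (4 * π * s ^ 2)⁻¹ *
        ∫⁻ y, volume {a : E | (fun j => a + s • cns 0 y j) ∈ A} ∂nu n := by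
  have hm : Measurable fun p : E × (Fin n → E) => fun j => p.1 + s • cns 0 p.2 j :=
    measurable_pi_lambda _ fun j => measurable_fst.add
      (((measurable_pi_apply j).comp (meas_cns measurable_const measurable_snd)).const_smul s)
  have e2 : ∀ y : Fin n → E, volume {a : E | (fun j => a + s • cns 0 y j) ∈ A} =
      ∫⁻ a, A.indicator 1 (fun j => a + s • cns 0 y j) := fun y =>
    (lintegral_indicator_one ((hA.preimage hm).preimage (measurable_prodMk_right (y := y)))).symm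
  simp_rw [e2]
  rw [← lintegral_lintegral_swap (f := fun a y =>
    A.indicator (1 : (Fin (n + 1) → E) → ℝ≥0∞) (fun j => a + s • cns 0 y j))
    ((measurable_one.indicator hA).comp hm).aemeasurable,
    ← lintegral_const_mul' _ _ ENNReal.ofReal_ne_top, lintegral_cns (G := fun x : Fin (n + 1) → E =>
      (∏ e, pe (s ^ 2 * (1 / (n + 1))) (x e - x (finRotate _ e))) * A.indicator 1 x)
    ((Finset.measurable_prod _ fun e _ => by fun_prop).mul (measurable_one.indicator hA))]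
  congr 1; ext a
  have e3 := lint_pm_aff (1 / (n + 1)) hs a (F := fun x => A.indicator 1 (cns a x))
    ((measurable_one.indicator hA).comp (by fun_prop))
  rw [lint_pm _ _ _ (F := fun x => A.indicator 1 (cns a x))
    ((measurable_one.indicator hA).comp (by fun_prop))] at e3
  rw [nu, lintegral_smul_measure, smul_eq_mul, ← mul_assoc, ← ENNReal.ofReal_mul (by positivity),
    show (4 * π * s ^ 2)⁻¹ * (4 * π) = (s ^ 2)⁻¹ by field_simp]
  convert e3 using 1
  · congr 1; ext x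
    simp only [wt, snc, Fin.snoc_eq_cons_rotate]
    rfl
  · congr 2; ext y
    congr 1; ext1 j
    simpa using (cns_map (fun z => a + s • z) 0 y j).symm

theorem pol_nu {ρ : E ≃ₗᵢ[ℝ] E} {ℓ : E → ℝ} {H T R1 R2 : Set E} (P : Pol ρ ℓ H T R1 R2)
    (hH : MeasurableSet H) (hT : MeasurableSet T) (h1 : MeasurableSet R1) (h2 : MeasurableSet R2)
    {s : ℝ} (hs : 0 < s) (n : ℕ) :
    ∫⁻ y, volume {a : E | (fun j => a + s • cns 0 y j) ∈ ev3 H T R2} ∂nu n ≤
      ∫⁻ y, volume {a : E | (fun j => a + s • cns 0 y j) ∈ ev3 H T R1} ∂nu n := by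
  have := pol_int P (h := s ^ 2 * (1 / (n + 1))) (by positivity) id (finRotate (n + 1)) hH hT h1 h2
  simp only [id] at this
  rw [loop_eq hs n (ms_ev3 hH hT h1), loop_eq hs n (ms_ev3 hH hT h2)] at this
  exact (ENNReal.mul_le_mul_iff_right (by simp; positivity) ENNReal.ofReal_ne_top).1 this

end Pool.Agent.Lib.MP_2d4879_an
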