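import Mathlib

namespace Pool.Agent.Lib.MP_2d4879_an

open Filter Topology
open scoped InnerProductSpace

variable {H : Type} [NormedAddCommGroup H] [InnerProductSpace ℝ H] [CompleteSpace H]

theorem compact_of_hs (T : H →L[ℝ] H) (C : ℝ)
    (hC : ∀ (ι : Type) (v : ι → H), Orthonormal ℝ v → ∀ F : Finset ι, ∑ i ∈ F, ‖T (v i)‖ ^ 2 ≤ C) :
    IsCompactOperator T := by
  classical
  obtain ⟨w, b, -⟩ := exists_hilbertBasis ℝ H
  have hs : Summable fun i => ‖T (b i)‖ ^ 2 :=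
    summable_of_sum_le (fun i => sq_nonneg _) (hC w b b.orthonormal)
  let TF : Finset w → H →L[ℝ] H := fun F => ∑ i ∈ F, (innerSL ℝ (b i)).smulRight (T (b i))
  have hTF : ∀ F, IsCompactOperator (TF F) := by
    intro F
    induction F using Finset.induction_on with
    | empty => simpa [TF] using isCompactOperator_zero
    | insert a s ha ih =>
      have h1 : IsCompactOperator ((innerSL ℝ (b a)).smulRight (T (b a))) :=
        (isCompactOperator_of_locallyCompactSpace_dom (innerSL ℝ (b a))).clm_comp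
          (ContinuousLinearMap.toSpanSingleton ℝ (T (b a)))
      have := h1.add ih
      simpa [TF, Finset.sum_insert ha] using this
  refine isCompactOperator_of_tendsto (l := atTop) (F := TF) ?_ (Eventually.of_forall hTF)
  rw [Metric.tendsto_atTop]
  intro ε hε
  obtain ⟨F0, hF0⟩ := summable_iff_vanishing_norm.1 hs ((ε / 2) ^ 2) (by positivity)
  refine ⟨F0, fun F hF => ?_⟩
  rw [dist_comm, dist_eq_norm]
  refine lt_of_le_of_lt (ContinuousLinearMap.opNorm_le_bound _ (by positivity : 0 ≤ ε / 2)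
    fun f => ?_) (by linarith)
  have h1 : HasSum (fun i => ⟪b i, f⟫_ℝ • T (b i)) (T f) := by
    have := (b.hasSum_repr f).mapL T
    simpa [b.repr_apply_apply] using this
  have h2 : Tendsto (fun G : Finset w => ‖∑ i ∈ G, ⟪b i, f⟫_ℝ • T (b i) - TF F f‖) atTop
      (𝓝 ‖(T - TF F) f‖) := (Tendsto.sub_const h1 _).norm
  refine le_of_tendsto h2 ?_
  filter_upwards [eventually_ge_atTop F] with G hG
  have h3 : ∑ i ∈ G, ⟪b i, f⟫_ℝ • T (b i) - TF F f = ∑ i ∈ G \ F, ⟪b i, f⟫_ℝ • T (b i) := by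
    rw [← Finset.sum_sdiff hG]
    simp [TF]
  rw [h3]
  have h4 : ∑ i ∈ G \ F, ‖T (b i)‖ ^ 2 ≤ (ε / 2) ^ 2 := by
    have := hF0 (G \ F) (Finset.disjoint_of_subset_right hF Finset.sdiff_disjoint)
    exact (le_abs_self _).trans this.le
  have h5 : ∑ i ∈ G \ F, ‖⟪b i, f⟫_ℝ‖ ^ 2 ≤ ‖f‖ ^ 2 := b.orthonormal.sum_inner_products_le f
  have h6 : ‖∑ i ∈ G \ F, ⟪b i, f⟫_ℝ • T (b i)‖ ≤ ∑ i ∈ G \ F, ‖⟪b i, f⟫_ℝ‖ * ‖T (b i)‖ := by
    refine (norm_sum_le _ _).trans (le_of_eq ?_)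
    simp [norm_smul]
  have h7 := Finset.sum_mul_sq_le_sq_mul_sq (G \ F) (fun i => ‖⟪b i, f⟫_ℝ‖) (fun i => ‖T (b i)‖)
  refine h6.trans (abs_le_of_sq_le_sq' ?_ (by positivity)).2
  calc _ ≤ _ := h7
    _ ≤ ‖f‖ ^ 2 * (ε / 2) ^ 2 := by gcongr
    _ = _ := by ring

theorem exists_eigenbasis [TopologicalSpace.SeparableSpace H] (T : H →L[ℝ] H)
    (hT : IsCompactOperator T) (hs : (T : H →ₗ[ℝ] H).IsSymmetric) :
    ∃ (ι : Type) (_ : Countable ι) (b : HilbertBasis ι ℝ H) (μ : ι → ℝ),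
      ∀ i, T (b i) = μ i • b i := by
  have hcl : ∀ μ : ℝ, CompleteSpace (Module.End.eigenspace (T : H →ₗ[ℝ] H) μ) := by
    intro μ
    have : IsClosed (Module.End.eigenspace (T : H →ₗ[ℝ] H) μ : Set H) := by
      have : (Module.End.eigenspace (T : H →ₗ[ℝ] H) μ : Set H) = {x | T x = μ • x} := by
        ext x; simp
      rw [this]
      exact isClosed_eq T.continuous (by fun_prop)
    exact this.completeSpace_coe
  choose w b _hb using fun μ : ℝ =>
    exists_hilbertBasis ℝ (Module.End.eigenspace (T : H →ₗ[ℝ] H) μ)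
  let v : (Σ μ : ℝ, w μ) → H := fun a => (b a.1 a.2 : H)
  have hv : Orthonormal ℝ v :=
    hs.orthogonalFamily_eigenspaces.orthonormal_sigma_orthonormal fun μ => (b μ).orthonormal
  have hsp : (Submodule.span ℝ (Set.range v))ᗮ = ⊥ := by
    rw [eq_bot_iff, ← ContinuousLinearMap.orthogonalComplement_iSup_eigenspaces_eq_bot hT hs,
      ← Submodule.iInf_orthogonal]
    intro x hx
    rw [Submodule.mem_iInf]
    intro μ
    rw [Submodule.mem_orthogonal']
    intro y hy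
    have h1 := ((b μ).hasSum_repr ⟨y, hy⟩).mapL ((innerSL ℝ x).comp (Submodule.subtypeL _))
    have h2 : ∀ i : w μ, ⟪x, (b μ i : H)⟫_ℝ = 0 := fun i =>
      (Submodule.mem_orthogonal' _ _).1 hx _ (Submodule.subset_span ⟨⟨μ, i⟩, rfl⟩)
    simp only [ContinuousLinearMap.comp_apply, map_smul, Submodule.subtypeL_apply,
      innerSL_apply_apply, h2, smul_zero] at h1
    exact h1.unique hasSum_zero
  have hc : Countable (Σ μ : ℝ, w μ) := by
    refine Pairwise.countable_of_isOpen_disjoint (s := fun a => Metric.ball (v a) (1 / 2))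
      ?_ (fun _ => Metric.isOpen_ball) (fun _ => Metric.nonempty_ball.2 (by norm_num))
    intro i j hij
    refine Metric.ball_disjoint_ball ?_
    have h1 : ‖v i - v j‖ ^ 2 = 2 := by
      rw [norm_sub_sq_real, hv.1 i, hv.1 j, hv.2 hij]; norm_num
    rw [dist_eq_norm]
    nlinarith [norm_nonneg (v i - v j)]
  refine ⟨_, hc, HilbertBasis.mkOfOrthogonalEqBot hv hsp, fun a => a.1, fun a => ?_⟩
  rw [HilbertBasis.coe_mkOfOrthogonalEqBot]
  exact Module.End.mem_eigenspace_iff.1 (b a.1 a.2).2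

omit [CompleteSpace H] in
lemma hasSum_form {ι : Type} (T : H →L[ℝ] H) (hs : (T : H →ₗ[ℝ] H).IsSymmetric)
    (b : HilbertBasis ι ℝ H) (μ : ι → ℝ) (hb : ∀ i, T (b i) = μ i • b i) (f : H) :
    HasSum (fun i => μ i * ⟪b i, f⟫_ℝ ^ 2) ⟪f, T f⟫_ℝ := by
  convert! b.hasSum_inner_mul_inner f (T f) using 2 with i
  have : ⟪b i, T f⟫_ℝ = ⟪T (b i), f⟫_ℝ := (hs (b i) f).symm
  rw [this, hb, inner_smul_left, real_inner_comm f]
  simp; ring

omit [CompleteSpace H] in
lemma hasSum_normsq {ι : Type} (b : HilbertBasis ι ℝ H) (f : H) :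
    HasSum (fun i => ⟪b i, f⟫_ℝ ^ 2) (‖f‖ ^ 2) := by
  convert! b.hasSum_inner_mul_inner f f using 2 with i
  · rw [real_inner_comm f]; ring
  · rw [real_inner_self_eq_norm_sq]

omit [CompleteSpace H] in
theorem count_of_subspace {ι : Type} (T : H →L[ℝ] H) (hs : (T : H →ₗ[ℝ] H).IsSymmetric)
    (b : HilbertBasis ι ℝ H) (μ : ι → ℝ) (hb : ∀ i, T (b i) = μ i • b i)
    {U : Type} [AddCommGroup U] [Module ℝ U] [FiniteDimensional ℝ U] (L : U →ₗ[ℝ] H)
    (hL : ∀ u, u ≠ 0 → L u ≠ 0) {c c' : ℝ} (hc : c' < c)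
    (hV : ∀ u, c * ‖L u‖ ^ 2 ≤ ⟪L u, T (L u)⟫_ℝ) :
    ∃ J : Finset ι, J.card = Module.finrank ℝ U ∧ ∀ j ∈ J, c' ≤ μ j := by
  classical
  by_cases hfin : {j | c' ≤ μ j}.Finite
  swap
  · obtain ⟨J, hJ, hc⟩ := Set.Infinite.exists_subset_card_eq hfin (Module.finrank ℝ U)
    exact ⟨J, hc, fun j hj => hJ hj⟩
  by_cases hle : Module.finrank ℝ U ≤ hfin.toFinset.card
  · obtain ⟨J, hJ, hc⟩ := Finset.exists_subset_card_eq hle
    exact ⟨J, hc, fun j hj => by simpa using hJ hj⟩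
  exfalso
  let M : U →ₗ[ℝ] (hfin.toFinset → ℝ) :=
    LinearMap.pi fun j => (innerSL ℝ (b j) : H →ₗ[ℝ] ℝ).comp L
  have hM : LinearMap.ker M ≠ ⊥ := M.ker_ne_bot_of_finrank_lt (by simpa using hle)
  obtain ⟨u, hu, hu0⟩ := Submodule.exists_mem_ne_zero_of_ne_bot hM
  have h1 : ⟪L u, T (L u)⟫_ℝ ≤ c' * ‖L u‖ ^ 2 := by
    refine hasSum_le (fun i => ?_) (hasSum_form T hs b μ hb (L u)) ((hasSum_normsq b (L u)).mul_left c')
    by_cases hi : c' ≤ μ i
    · have := congrFun (LinearMap.mem_ker.1 hu) ⟨i, by simpa using hi⟩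
      simp only [M, LinearMap.pi_apply, LinearMap.comp_apply, ContinuousLinearMap.coe_coe,
        innerSL_apply_apply, Pi.zero_apply] at this
      simp [this]
    · exact mul_le_mul_of_nonneg_right (not_le.1 hi).le (sq_nonneg _)
  have h2 : 0 < ‖L u‖ ^ 2 := by have := hL u hu0; positivity
  nlinarith [hV u]

omit [CompleteSpace H] in
theorem subspace_of_count {ι : Type} (T : H →L[ℝ] H) (hs : (T : H →ₗ[ℝ] H).IsSymmetric)
    (b : HilbertBasis ι ℝ H) (μ : ι → ℝ) (hb : ∀ i, T (b i) = μ i • b i)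
    (I : Finset ι) {a : ℝ} (hI : ∀ i ∈ I, a ≤ μ i) :
    ∃ V : Submodule ℝ H, FiniteDimensional ℝ V ∧ Module.finrank ℝ V = I.card ∧
      ∀ f ∈ V, a * ‖f‖ ^ 2 ≤ ⟪f, T f⟫_ℝ := by
  classical
  have hli : LinearIndependent ℝ (fun i : I => b i) :=
    (b.orthonormal.comp _ Subtype.val_injective).linearIndependent
  refine ⟨Submodule.span ℝ (Set.range fun i : I => b i),
    FiniteDimensional.span_of_finite _ (Set.finite_range _), ?_, fun f hf => ?_⟩
  · rw [finrank_span_eq_card hli]; simp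
  refine hasSum_le (fun i => ?_) ((hasSum_normsq b f).mul_left a) (hasSum_form T hs b μ hb f)
  by_cases hi : i ∈ I
  · exact mul_le_mul_of_nonneg_right (hI i hi) (sq_nonneg _)
  · have : ⟪b i, f⟫_ℝ = 0 := by
      have h1 : Submodule.span ℝ (Set.range fun i : I => b i) ≤
          LinearMap.ker (innerSL ℝ (b i) : H →ₗ[ℝ] ℝ) := by
        rw [Submodule.span_le]
        rintro _ ⟨j, rfl⟩
        exact b.orthonormal.2 (fun h => hi (h ▸ j.2))
      exact h1 hf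
    simp [this]

theorem sum_le_of_count {ι κ : Type} (μ : ι → ℝ) (ν : κ → ℝ) (a0 : ℝ) (g F G : ℝ → ℝ)
    (h : ∀ (I : Finset ι) (a : ℝ), a0 ≤ a → (∀ i ∈ I, a ≤ μ i) → I.Nonempty →
      ∃ J : Finset κ, J.card = I.card ∧ ∀ j ∈ J, g a ≤ ν j)
    (hFG : ∀ i v, a0 ≤ μ i → g (μ i) ≤ v → F (μ i) ≤ G v) (I : Finset ι) (hI : ∀ i ∈ I, a0 ≤ μ i) :
    ∃ J : Finset κ, J.card = I.card ∧ ∑ i ∈ I, F (μ i) ≤ ∑ j ∈ J, G (ν j) := by
  classical
  induction I using Finset.induction_on_min_value μ with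
  | empty => exact ⟨∅, rfl, by simp⟩
  | insert a s ha hmin ih =>
    obtain ⟨J0, hJ0, hs⟩ := ih fun i hi => hI i (Finset.mem_insert_of_mem hi)
    have ha0 := hI a (Finset.mem_insert_self _ _)
    obtain ⟨J1, hJ1, hg⟩ := h (insert a s) (μ a) ha0 (by
      intro i hi
      rcases Finset.mem_insert.1 hi with rfl | hi
      exacts [le_rfl, hmin i hi]) (Finset.insert_nonempty _ _)
    rw [Finset.card_insert_of_notMem ha] at hJ1 ⊢
    obtain ⟨j, hj1, hj0⟩ := Finset.exists_mem_notMem_of_card_lt_card (s := J0) (t := J1) (by omega)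
    refine ⟨insert j J0, by rw [Finset.card_insert_of_notMem hj0, hJ0], ?_⟩
    rw [Finset.sum_insert ha, Finset.sum_insert hj0]
    exact add_le_add (hFG a _ ha0 (hg j hj1)) hs

end Pool.Agent.Lib.MP_2d4879_an
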