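import Pool.Agent.Lib.MP_2d4879_an.Bridge

namespace Pool.Agent.Lib.MP_2d4879_an

open MeasureTheory Real Filter Topology Set
open scoped InnerProductSpace ENNReal

structure S where
  f : ℝ → ℝ → ℝ
  add : ∀ a b a' b', f (a + a') (b + b') ≤ f a b + f a' b'
  smul : ∀ c a b, 0 ≤ c → f (c * a) (c * b) = c * f a b
  nonneg : ∀ a b, 0 ≤ f a b

noncomputable def spf {n : ℕ} (y : Fin n → E) (a b : ℝ) : ℝ :=
  ⨆ j : Fin (n + 1), a * cns 0 y j 0 + b * cns 0 y j 1

lemma le_spf {n : ℕ} (y : Fin n → E) (a b : ℝ) (j : Fin (n + 1)) :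
    a * cns 0 y j 0 + b * cns 0 y j 1 ≤ spf y a b :=
  le_ciSup (f := fun j : Fin (n + 1) => a * cns 0 y j 0 + b * cns 0 y j 1)
    (Finite.bddAbove_range _) j

lemma spf_eq {n : ℕ} (y : Fin n → E) (a b : ℝ) :
    ∃ j, a * cns 0 y j 0 + b * cns 0 y j 1 = spf y a b := exists_eq_ciSup_of_finite

lemma spf_lt_iff {n : ℕ} (y : Fin n → E) (a b c : ℝ) :
    spf y a b < c ↔ ∀ j, a * cns 0 y j 0 + b * cns 0 y j 1 < c :=
  ⟨fun h j => (le_spf y a b j).trans_lt h, fun h => by
    obtain ⟨j, hj⟩ := spf_eq y a b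
    exact hj ▸ h j⟩

lemma le_spf_iff {n : ℕ} (y : Fin n → E) (a b c : ℝ) :
    c ≤ spf y a b ↔ ∃ j, c ≤ a * cns 0 y j 0 + b * cns 0 y j 1 := by
  rw [← not_lt, spf_lt_iff]; simp

noncomputable def sp {n : ℕ} (y : Fin n → E) : S where
  f := spf y
  add a b a' b' := by
    obtain ⟨j, hj⟩ := spf_eq y (a + a') (b + b')
    linarith [le_spf y a b j, le_spf y a' b' j]
  smul c a b hc := by
    refine le_antisymm ?_ ?_
    · obtain ⟨j, hj⟩ := spf_eq y (c * a) (c * b)
      nlinarith [mul_le_mul_of_nonneg_left (le_spf y a b j) hc]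
    · obtain ⟨j, hj⟩ := spf_eq y a b
      rw [← hj]
      linarith [le_spf y (c * a) (c * b) j]
  nonneg a b := by simpa using le_spf y a b 0

lemma meas_spf (n : ℕ) (a b : ℝ) : Measurable fun y : Fin n → E => spf y a b := by
  refine Measurable.iSup fun j => ?_
  have := (measurable_pi_apply j).comp (meas_cns (measurable_const (a := (0 : E)))
    (measurable_id (α := Fin n → E)))
  have h0 : Measurable fun y : Fin n → E => cns 0 y j 0 :=
    (PiLp.continuous_apply 2 _ 0).measurable.comp this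
  have h1 : Measurable fun y : Fin n → E => cns 0 y j 1 :=
    (PiLp.continuous_apply 2 _ 1).measurable.comp this
  fun_prop

lemma exists_mid {n : ℕ} {y : Fin n → E} {a b c : ℝ} (hc : 0 < c) (h : c ≤ spf y a b) :
    ∃ j, c ≤ a * y j 0 + b * y j 1 := by
  obtain ⟨j, hj⟩ := (le_spf_iff y a b c).1 h
  cases j using Fin.cases
  · simp at hj; linarith
  · exact ⟨_, hj⟩

lemma ms_half (e c : ℝ) : MeasurableSet {z : E | c ≤ e * z 0} :=
  measurableSet_le measurable_const (by fun_prop)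

lemma nu_hit1 (n : ℕ) {e c : ℝ} (he : e ^ 2 = 1) (hc : 0 ≤ c) :
    nu n {y | ∃ j, c ≤ e * y j 0} ≤ ENNReal.ofReal (exp (-c ^ 2)) := by
  have := hit1 (h := 1 / (n + 1)) (by positivity) (ms_half e c) (b := 0) (b' := !₂[2 * c * e, 0])
    (fun y hy => by
      simp only [nsq, PiLp.sub_apply, PiLp.zero_apply, Matrix.cons_val_zero, Matrix.cons_val_one,
        mem_ofPred_eq] at hy ⊢
      nlinarith [mul_le_mul_of_nonneg_left hy hc]) n 0
  rw [nu, Measure.smul_apply, smul_eq_mul]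
  refine (mul_le_mul_right this _).trans (le_of_eq ?_)
  rw [step_mul, four_pi_pe, nsq]
  congr 2
  simp only [PiLp.sub_apply, PiLp.zero_apply, Matrix.cons_val_zero, Matrix.cons_val_one]
  linear_combination (-c ^ 2) * he

lemma nu_hit2 (n : ℕ) {e c d : ℝ} (he : e ^ 2 = 1) (hc : 0 ≤ c) (hd : 0 ≤ d) :
    nu n {y | ∃ i j, i < j ∧ c ≤ e * y i 0 ∧ d ≤ -e * y j 0} ≤
      ENNReal.ofReal (exp (-(c + d) ^ 2)) := by
  have := hit2 (h := 1 / (n + 1)) (by positivity) (ms_half e c) (ms_half (-e) d) (b := 0)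
    (b' := !₂[-2 * d * e, 0]) (b'' := !₂[2 * (c + d) * e, 0])
    (fun y hy => by
      simp only [nsq, PiLp.sub_apply, PiLp.zero_apply, Matrix.cons_val_zero, Matrix.cons_val_one,
        mem_ofPred_eq] at hy ⊢
      nlinarith [mul_le_mul_of_nonneg_left hy hd])
    (fun y hy => by
      simp only [nsq, PiLp.sub_apply, Matrix.cons_val_zero, Matrix.cons_val_one,
        mem_ofPred_eq] at hy ⊢
      have h1 : (y 0 - -2 * d * e) ^ 2 - (y 0 - 2 * (c + d) * e) ^ 2 =
          4 * (c + 2 * d) * (e * y 0 - c) := by linear_combination (-4 * c ^ 2 - 8 * c * d) * he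
      nlinarith [mul_nonneg (by positivity : 0 ≤ 4 * (c + 2 * d)) (sub_nonneg.2 hy)]) n 0
  rw [nu, Measure.smul_apply, smul_eq_mul]
  refine (mul_le_mul_right this _).trans (le_of_eq ?_)
  rw [step_mul, four_pi_pe, nsq]
  congr 2
  simp only [PiLp.sub_apply, PiLp.zero_apply, Matrix.cons_val_zero, Matrix.cons_val_one]
  linear_combination (-(c + d) ^ 2) * he

noncomputable def wd {n : ℕ} (y : Fin n → E) : ℝ := spf y 1 0 + spf y (-1) 0

lemma meas_wd (n : ℕ) : Measurable (wd (n := n)) := (meas_spf n _ _).add (meas_spf n _ _)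

lemma nu_wd (n : ℕ) {c : ℝ} (hc : 0 < c) :
    nu n {y | c + 1 ≤ wd y} ≤ ENNReal.ofReal ((2 * c + 4) * exp (-c ^ 2)) := by
  have hsub : {y : Fin n → E | c + 1 ≤ wd y} ⊆ ({y | ∃ j, c ≤ 1 * y j 0} ∪
      {y | ∃ j, c ≤ -1 * y j 0}) ∪ ⋃ k ∈ Finset.range ⌈c⌉₊,
      ({y | ∃ i j, i < j ∧ c - k ≤ 1 * y i 0 ∧ (k : ℝ) ≤ -1 * y j 0} ∪
        {y | ∃ i j, i < j ∧ (k : ℝ) ≤ -1 * y i 0 ∧ c - k ≤ -(-1) * y j 0}) := by
    intro y hy
    simp only [wd, mem_ofPred_eq] at hy
    by_cases h1 : c ≤ spf y 1 0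
    · obtain ⟨j, hj⟩ := exists_mid hc h1
      exact Or.inl (Or.inl ⟨j, by simpa using hj⟩)
    by_cases h2 : c ≤ spf y (-1) 0
    · obtain ⟨j, hj⟩ := exists_mid hc h2
      exact Or.inl (Or.inr ⟨j, by simpa using hj⟩)
    right
    push Not at h1 h2
    set k := ⌊spf y (-1) 0⌋₊
    have k1 : (k : ℝ) ≤ spf y (-1) 0 := Nat.floor_le (by linarith)
    have k2 : spf y (-1) 0 < k + 1 := Nat.lt_floor_add_one _
    obtain ⟨i, hi⟩ := exists_mid (y := y) (a := 1) (b := 0) (c := c - k) (by linarith) (by linarith)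
    obtain ⟨j, hj⟩ := exists_mid (y := y) (a := -1) (b := 0) (c := k) (by linarith) k1
    simp only [mem_iUnion, Finset.mem_range]
    refine ⟨k, Nat.lt_ceil.2 (by linarith), ?_⟩
    rcases lt_trichotomy i j with hij | rfl | hij
    · exact Or.inl ⟨i, j, hij, by linarith, by linarith⟩
    · exfalso; linarith
    · exact Or.inr ⟨j, i, hij, by linarith, by linarith⟩
  set X := ENNReal.ofReal (exp (-c ^ 2))
  have h3 : ∀ k ∈ Finset.range ⌈c⌉₊, nu n
      ({y | ∃ i j, i < j ∧ c - k ≤ 1 * y i 0 ∧ (k : ℝ) ≤ -1 * y j 0} ∪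
        {y | ∃ i j, i < j ∧ (k : ℝ) ≤ -1 * y i 0 ∧ c - k ≤ -(-1) * y j 0}) ≤ X + X := by
    intro k hk
    have hk' : 0 ≤ c - k := sub_nonneg.2 (Nat.lt_ceil.1 (Finset.mem_range.1 hk)).le
    refine (measure_union_le _ _).trans (add_le_add ?_ ?_)
    · simpa using nu_hit2 n (e := 1) (by norm_num) hk' k.cast_nonneg
    · simpa using nu_hit2 n (e := -1) (by norm_num) k.cast_nonneg hk'
  calc _ ≤ (X + X) + ∑ k ∈ Finset.range ⌈c⌉₊, (X + X) := by
        refine (measure_mono hsub).trans ((measure_union_le _ _).trans (add_le_add ?_ ?_))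
        · exact (measure_union_le _ _).trans (add_le_add (nu_hit1 n (by norm_num) hc.le)
            (nu_hit1 n (by norm_num) hc.le))
        · exact (measure_biUnion_finset_le _ _).trans (Finset.sum_le_sum h3)
    _ = ENNReal.ofReal ((2 + ⌈c⌉₊ * 2) * exp (-c ^ 2)) := by
        rw [ENNReal.ofReal_mul (by positivity), ENNReal.ofReal_add (by positivity) (by positivity),
          ENNReal.ofReal_mul (by positivity)]
        simp only [Finset.sum_const, Finset.card_range, nsmul_eq_mul, ENNReal.ofReal_ofNat,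
          ENNReal.ofReal_natCast, X]
        ring
    _ ≤ _ := by
        refine ENNReal.ofReal_le_ofReal (mul_le_mul_of_nonneg_right ?_ (exp_pos _).le)
        linarith [Nat.ceil_lt_add_one hc.le]

noncomputable def tl (x w : ℝ) : ℝ := if x ≤ w then exp (w - x) else 0

lemma tl_nonneg (x w : ℝ) : 0 ≤ tl x w := by unfold tl; split_ifs <;> positivity

lemma meas_tl (x : ℝ) : Measurable (tl x) :=
  Measurable.ite measurableSet_Ici (by fun_prop) measurable_const

lemma lint_tl (n : ℕ) {c : ℝ} (hc : 0 < c) : ∫⁻ y, ENNReal.ofReal (tl (c + 1) (wd y)) ∂nu n ≤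
    ENNReal.ofReal (2 * exp 4 * ((2 * c + 4) * exp (-c ^ 2))) := by
  have ms : ∀ m : ℕ, MeasurableSet {y : Fin n → E | c + m + 1 ≤ wd y} := fun m =>
    measurableSet_le measurable_const (meas_wd n)
  calc _ ≤ ∫⁻ y, ∑' m : ℕ, ENNReal.ofReal (exp (m + 1)) *
          {y : Fin n → E | c + m + 1 ≤ wd y}.indicator 1 y ∂nu n := by
        refine lintegral_mono fun y => ?_
        unfold tl
        split_ifs with hy
        · refine le_trans ?_ (ENNReal.le_tsum ⌊wd y - (c + 1)⌋₊)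
          have k1 := Nat.floor_le (sub_nonneg.2 hy)
          rw [indicator_of_mem (show y ∈ {y : Fin n → E | _} by
            simp only [mem_ofPred_eq]; linarith), Pi.one_apply, mul_one]
          exact ENNReal.ofReal_le_ofReal (exp_le_exp.2 (Nat.lt_floor_add_one _).le)
        · simp
    _ = ∑' m : ℕ, ENNReal.ofReal (exp (m + 1)) * nu n {y | c + m + 1 ≤ wd y} := by
        rw [lintegral_tsum fun m => ((measurable_one.indicator (ms m)).const_mul _).aemeasurable]
        congr 1; ext m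
        rw [lintegral_const_mul' _ _ ENNReal.ofReal_ne_top, lintegral_indicator_one (ms m)]
    _ ≤ ∑' m : ℕ, ENNReal.ofReal (exp 4 * ((2 * c + 4) * exp (-c ^ 2)) * (1 / 2) ^ m) := by
        refine ENNReal.tsum_le_tsum fun m => ?_
        refine (mul_le_mul_right (nu_wd n (c := c + m) (by positivity)) _).trans ?_
        rw [← ENNReal.ofReal_mul (exp_pos _).le]
        refine ENNReal.ofReal_le_ofReal ?_
        have hm : (0 : ℝ) ≤ m := m.cast_nonneg
        have h1 : 2 * (c + m) + 4 ≤ (2 * c + 4) * exp m := by nlinarith [add_one_le_exp (m : ℝ)]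
        have h2 : exp (-(m : ℝ)) ≤ (1 / 2) ^ m := by
          rw [← mul_neg_one, exp_nat_mul]
          refine pow_le_pow_left₀ (exp_pos _).le ?_ _
          rw [exp_neg, one_div]
          exact inv_anti₀ two_pos (by linarith [add_one_le_exp 1])
        have h3 : exp (m + 1) * exp m * exp (-(c + m) ^ 2) ≤ exp 4 * exp (-c ^ 2) * exp (-m) := by
          simp only [← exp_add]
          refine exp_le_exp.2 ?_
          nlinarith [sq_nonneg (2 * (m : ℝ) - 3), mul_nonneg hc.le hm]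
        calc _ ≤ exp (m + 1) * ((2 * c + 4) * exp m * exp (-(c + m) ^ 2)) := by gcongr
          _ = (2 * c + 4) * (exp (m + 1) * exp m * exp (-(c + m) ^ 2)) := by ring
          _ ≤ (2 * c + 4) * (exp 4 * exp (-c ^ 2) * (1 / 2) ^ m) := by
            exact mul_le_mul_of_nonneg_left (h3.trans (by gcongr)) (by positivity)
          _ = _ := by ring
    _ = _ := by
        rw [← ENNReal.ofReal_tsum_of_nonneg (fun m => by positivity)
          (summable_geometric_two.mul_left _), tsum_mul_left, tsum_geometric_two]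
        congr 1; ring

lemma int_tl (n : ℕ) {c : ℝ} (hc : 0 < c) : Integrable (fun y => tl (c + 1) (wd y)) (nu n) ∧
    ∫ y, tl (c + 1) (wd y) ∂nu n ≤ 2 * exp 4 * ((2 * c + 4) * exp (-c ^ 2)) := by
  have h1 := lint_tl n hc
  have hm : Measurable fun y : Fin n → E => tl (c + 1) (wd y) := (meas_tl _).comp (meas_wd n)
  have h2 : Integrable (fun y => tl (c + 1) (wd y)) (nu n) := by
    refine ⟨hm.aestronglyMeasurable, ?_⟩
    rw [hasFiniteIntegral_iff_ofReal (Eventually.of_forall fun y => tl_nonneg _ _)]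
    exact h1.trans_lt ENNReal.ofReal_lt_top
  refine ⟨h2, ?_⟩
  rw [← ofReal_integral_eq_lintegral_ofReal h2 (Eventually.of_forall fun y => tl_nonneg _ _)] at h1
  exact (ENNReal.ofReal_le_ofReal_iff (by positivity)).1 h1

lemma nu_lower {n : ℕ} (l : ℕ) (hn : n = l + 1 + l) {x : ℝ} (hx : 0 ≤ x) :
    ENNReal.ofReal (π⁻¹ * exp (-((x + 1) ^ 2 + 1))) ≤ nu n {y | x ≤ wd y} := by
  subst hn
  set A : Set E := (WithLp.ofLp : E → Fin 2 → ℝ) ⁻¹' Icc ![x, 0] ![x + 1, 1]
  have hA : MeasurableSet A := measurableSet_Icc.preimage (by fun_prop)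
  have hv : volume A = 1 := by
    rw [(PiLp.volume_preserving_ofLp (Fin 2)).measure_preimage
      measurableSet_Icc.nullMeasurableSet, Real.volume_Icc_pi]
    simp
  have hAm : ∀ z ∈ A, x ≤ z 0 ∧ ‖z‖ ^ 2 ≤ (x + 1) ^ 2 + 1 := by
    intro z hz
    have h1 : x ≤ z 0 := hz.1 0
    have h2 : 0 ≤ z 1 := hz.1 1
    have h3 : z 0 ≤ x + 1 := hz.2 0
    have h4 : z 1 ≤ 1 := hz.2 1
    rw [nsq]
    exact ⟨h1, by nlinarith⟩
  refine le_trans ?_ (measure_mono (s := {y | y ⟨l, by omega⟩ ∈ A}) fun y hy => ?_)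
  · rw [nu, Measure.smul_apply, pm_mid (by positivity) hA, smul_eq_mul,
      ← lintegral_const_mul' _ _ ENNReal.ofReal_ne_top]
    have e : ((l : ℝ) + 1) * (1 / (((l + 1 + l : ℕ) : ℝ) + 1)) = 1 / 2 := by
      push_cast; field_simp; ring
    rw [e, ← mul_one (ENNReal.ofReal (π⁻¹ * _)), ← hv, ← setLIntegral_const]
    refine setLIntegral_mono' hA fun z hz => ?_
    rw [pe, pe, ← ENNReal.ofReal_mul (pk_pos (by norm_num) _).le,
      ← ENNReal.ofReal_mul (by positivity), zero_sub, sub_zero, pk_neg, pk,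
      mul_mul_mul_comm (4 * π * (1 / 2))⁻¹, ← exp_add, ← mul_assoc (4 * π) (_ * _)]
    refine ENNReal.ofReal_le_ofReal (mul_le_mul (le_of_eq ?_) (exp_le_exp.2 ?_) (exp_pos _).le
      (by positivity))
    · field_simp; norm_num
    · linarith [(hAm z hz).2]
  · have h1 := le_spf y 1 0 (Fin.succ ⟨l, by omega⟩)
    have h2 := (sp y).nonneg (-1) 0
    have h3 := (hAm _ hy).1
    simp only [cns_succ, one_mul, zero_mul, add_zero] at h1
    exact h3.trans (h1.trans (le_add_of_nonneg_right h2))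

end Pool.Agent.Lib.MP_2d4879_an
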